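import Pool.Agent.helper21.HD.Grp1

/-! Classes with more than `l` elements: double transitivity (Jordan). -/

namespace WildH

open Equiv

variable {Ω : Type} [Fintype Ω] [DecidableEq Ω]

/-- The group of the elements of `G` fixing all points outside the class of `u`. -/
def HL (G : Subgroup (Perm Ω)) (l : ℕ) (u : Ω) : Subgroup (Perm Ω) where
  carrier := {n | n ∈ G ∧ ∀ w, ¬ Rel G l u w → n w = w}
  mul_mem' := by
    rintro a b ⟨ha, ha'⟩ ⟨hb, hb'⟩
    exact ⟨mul_mem ha hb, fun w hw => by rw [Perm.mul_apply, hb' w hw, ha' w hw]⟩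
  one_mem' := ⟨one_mem _, fun _ _ => rfl⟩
  inv_mem' := by
    rintro a ⟨ha, ha'⟩
    exact ⟨inv_mem ha, fun w hw => by rw [Perm.inv_eq_iff_eq, ha' w hw]⟩

/-- The permutations which preserve a finite set. -/
private def Grp2_Stb (B : Finset Ω) : Subgroup (Perm Ω) where
  carrier := {n | ∀ x, n x ∈ B ↔ x ∈ B}
  mul_mem' := by
    intro a b ha hb x
    rw [Perm.mul_apply, ha, hb]
  one_mem' := fun x => Iff.rfl
  inv_mem' := by
    intro a ha x
    rw [← ha (a⁻¹ x)]
    simp

private theorem Grp2_mem_Stb {B : Finset Ω} {n : Perm Ω} (h : B.image n = B) :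
    n ∈ Grp2_Stb B := by
  intro x
  constructor
  · intro hx
    rw [← h, Finset.mem_image] at hx
    obtain ⟨y, hy, hyx⟩ := hx
    rw [← n.injective hyx]
    exact hy
  · intro hx
    rw [← h]
    exact Finset.mem_image_of_mem _ hx

private theorem Grp2_cycle_mem_HL {G : Subgroup (Perm Ω)} {l : ℕ} {u b : Ω} {h : Perm Ω}
    (hh : h ∈ LCs G l) (hb : Rel G l u b) (hhb : h b ≠ b) : h ∈ HL G l u := by
  refine ⟨hh.1, fun w hw => ?_⟩
  by_contra hne
  exact hw (hb.trans (rel_supp hh hhb hne))

/-- If `h` is a cycle of prime length and `h ^ i` is not `1`, then `h` is a power of `h ^ i`. -/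
private theorem Grp2_zpow {h : Perm Ω} {l : ℕ} (hl : l.Prime) (ho : orderOf h = l) {i : ℤ}
    (hi : h ^ i ≠ 1) : ∃ a : ℤ, (h ^ i) ^ a = h := by
  have h1 : ¬ (l : ℤ) ∣ i := by
    rintro ⟨c, hc⟩
    apply hi
    rw [hc, zpow_mul, zpow_natCast, ← ho, pow_orderOf_eq_one, one_zpow]
  have h2 : IsCoprime (i : ℤ) (l : ℤ) :=
    ((Nat.prime_iff_prime_int.1 hl).coprime_iff_not_dvd.2 h1).symm
  obtain ⟨a, b, hab⟩ := h2
  refine ⟨a, ?_⟩
  have h3 : h ^ (a * i + b * l) = h := by rw [hab, zpow_one]
  rw [zpow_add, mul_comm b, zpow_mul h (l : ℤ) b, zpow_natCast, ← ho, pow_orderOf_eq_one,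
    one_zpow, mul_one, mul_comm a, zpow_mul] at h3
  exact h3

/-- Primitivity.  Let `B` be a set of at least two elements of the class `D` of `u`, such that for all
`n ∈ HL G l u` the set `n B` is equal to `B` or disjoint from `B`.  Then `B = D` (for `l` prime).

Proof.  Let `h` be a cycle of length `l` in `G` whose support meets `D`, so it lies in `D` (`rel_supp`),
and `h ∈ HL G l u`.  The sets `n B`, `n ∈ HL`, are pairwise equal or disjoint, have the same
cardinality, and cover `D` (`rel_loc`).  Claim: `h (n B) = n B` for all these sets.  Otherwise all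
points of `B1 = n B` are moved by `h` (`h B1` is disjoint from `B1`), the union `U` of the sets
`h ^ i B1` is `h`-invariant and contained in the support of `h`, hence (nonempty, and `h` is transitive
on its support) equal to the support; the distinct sets among the `h ^ i B1` are at least two,
pairwise disjoint, with `card B` elements each, so `card B ∣ l`, `card B ≠ l`, hence `card B = 1`
(`l` prime), a contradiction.  So all cycles of length `l` in `G` preserve `B` (those whose support does
not meet `D` fix `B` pointwise), hence so does `NL G l`, and `NL G l` is transitive on `D`. -/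
theorem HL_prim {G : Subgroup (Perm Ω)} {l : ℕ} (hl : l.Prime) {u : Ω} {B : Finset Ω}
    (hB : ∀ w ∈ B, Rel G l u w) (h2 : 2 ≤ B.card)
    (hblock : ∀ n ∈ HL G l u, B.image n = B ∨ Disjoint (B.image n) B) {w : Ω}
    (hw : Rel G l u w) : w ∈ B := by
  obtain ⟨b1, hb1, b2, hb2, hb12⟩ := Finset.one_lt_card.1 h2
  have claim : LCs G l ⊆ (Grp2_Stb B : Set (Perm Ω)) := by
    intro h hh
    by_cases hex : ∃ b ∈ B, h b ≠ b
    · obtain ⟨b, hb, hhb⟩ := hex
      have hHL : h ∈ HL G l u := Grp2_cycle_mem_HL hh (hB b hb) hhb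
      rcases hblock h hHL with h1 | h1
      · exact Grp2_mem_Stb h1
      · exfalso
        have hmov : ∀ x ∈ B, h x ≠ x := by
          intro x hx hxx
          refine (Finset.disjoint_left.1 h1) (Finset.mem_image_of_mem h hx) ?_
          rw [hxx]
          exact hx
        obtain ⟨i, hi⟩ := hh.2.1.sameCycle (hmov b1 hb1) (hmov b2 hb2)
        have hne : h ^ i ≠ 1 := by
          intro h0
          rw [h0, Perm.one_apply] at hi
          exact hb12 hi
        have hiHL : h ^ i ∈ HL G l u := zpow_mem hHL i
        have hS : h ^ i ∈ Grp2_Stb B := by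
          rcases hblock _ hiHL with h3 | h3
          · exact Grp2_mem_Stb h3
          · exfalso
            refine (Finset.disjoint_left.1 h3) (Finset.mem_image_of_mem _ hb1) ?_
            rw [hi]
            exact hb2
        obtain ⟨a, ha⟩ := Grp2_zpow hl (hh.2.1.orderOf.trans hh.2.2) hne
        have hS2 : h ∈ Grp2_Stb B := by
          rw [← ha]
          exact zpow_mem hS a
        exact (Finset.disjoint_left.1 h1) (Finset.mem_image_of_mem h hb1) ((hS2 b1).2 hb1)
    · push Not at hex
      intro x
      constructor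
      · intro hx
        have h3 := h.injective (hex _ hx)
        rw [← h3]
        exact hx
      · intro hx
        rw [hex x hx]
        exact hx
  have hle : NL G l ≤ Grp2_Stb B := (Subgroup.closure_le _).2 claim
  obtain ⟨n, hn, hnw⟩ := (hB b1 hb1).symm.trans hw
  rw [← hnw]
  exact (hle hn b1).2 hb1

private theorem Grp2_HL_map {G : Subgroup (Perm Ω)} {l : ℕ} {u : Ω} {n : Perm Ω}
    (hn : n ∈ HL G l u) {w : Ω} (hw : Rel G l u w) : Rel G l u (n w) := by
  by_contra hcon
  have h1 := hn.2 (n w) hcon
  rw [n.injective h1] at hcon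
  exact hcon hw

/-- The action of `HL G l u` on the class of `u`. -/
@[reducible] private def Grp2_act (G : Subgroup (Perm Ω)) (l : ℕ) (u : Ω) :
    MulAction (HL G l u) {w : Ω // Rel G l u w} where
  smul n x := ⟨n.1 x.1, Grp2_HL_map n.2 x.2⟩
  one_smul x := rfl
  mul_smul a b x := rfl

/-- **Jordan.**  If `l` is prime, the class `D` of `u` contains the support of a cycle of length `l` and
has more than `l` elements, then `HL G l u` is doubly transitive on `D`.

Proof.  Let the group `HL G l u` act on the type `{w // Rel G l u w}`.  It is primitive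
(`MulAction.IsPreprimitive`): it is transitive (`rel_loc`), and a block with at least two elements
is everything (`HL_prim`).  Let `g` be the cycle of length `l` with support in `D`, `s` the set of the
points of `D` fixed by `g`; `s` is not empty because `card D > l`.  The group `fixingSubgroup _ s` contains `g`,
which is transitive on the complement of `s`.  `MulAction.IsPreprimitive.is_two_pretransitive`
(Mathlib.GroupTheory.GroupAction.Jordan) applies (`s.ncard = n + 1`, `n + 2 < card D` because
`l ≥ 2`) and gives 2-transitivity (`MulAction.is_two_pretransitive_iff`).  (Alternatively prove the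
statement directly, the classical proof of Jordan for a cycle is short.) -/
theorem rel_two {G : Subgroup (Perm Ω)} {l : ℕ} (hl : l.Prime) {u : Ω} {g : Perm Ω}
    (hg : g ∈ LCs G l) (hgu : g u ≠ u) {D : Finset Ω} (hD : ∀ w, w ∈ D ↔ Rel G l u w)
    (hcard : l < D.card) {a b a' b' : Ω} (ha : a ∈ D) (hb : b ∈ D) (ha' : a' ∈ D) (hb' : b' ∈ D)
    (hab : a ≠ b) (hab' : a' ≠ b') :
    ∃ n ∈ G, n a = a' ∧ n b = b' ∧ ∀ w, w ∉ D → n w = w := by
  classical
  let _ : MulAction (HL G l u) {w : Ω // Rel G l u w} := Grp2_act G l u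
  have hsm : ∀ (n : HL G l u) (x : {w : Ω // Rel G l u w}), ((n • x : {w : Ω // Rel G l u w}) : Ω)
      = n.1 x.1 := fun _ _ => rfl
  have hgHL : g ∈ HL G l u := Grp2_cycle_mem_HL hg (Rel.refl G l u) hgu
  -- the action is primitive
  have htr : MulAction.IsPretransitive (HL G l u) {w : Ω // Rel G l u w} := by
    refine ⟨fun x y => ?_⟩
    obtain ⟨n, hn, hxy, hfix⟩ := rel_loc (x.2.symm.trans y.2)
    have hnHL : n ∈ HL G l u := ⟨hn, fun w hw => hfix w fun h => hw (x.2.trans h)⟩
    exact ⟨⟨n, hnHL⟩, Subtype.ext hxy⟩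
  have hprim : MulAction.IsPreprimitive (HL G l u) {w : Ω // Rel G l u w} := by
    refine { toIsPretransitive := htr, isTrivialBlock_of_isBlock := ?_ }
    intro B hBb
    rw [MulAction.isBlock_iff_smul_eq_or_disjoint] at hBb
    by_cases hsub : B.Subsingleton
    · exact Or.inl hsub
    · right
      rw [Set.not_subsingleton_iff] at hsub
      obtain ⟨x, hx, y, hy, hxy⟩ := hsub
      set B' : Finset Ω := Finset.univ.filter fun w => ∃ h : Rel G l u w,
        (⟨w, h⟩ : {w : Ω // Rel G l u w}) ∈ B with hB'
      have hmem : ∀ z : {w : Ω // Rel G l u w}, z.1 ∈ B' ↔ z ∈ B := by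
        intro z
        rw [hB', Finset.mem_filter]
        constructor
        · rintro ⟨_, _, h⟩
          exact h
        · intro h
          exact ⟨Finset.mem_univ _, z.2, h⟩
      have hB1 : ∀ w ∈ B', Rel G l u w := by
        intro w hw
        rw [hB', Finset.mem_filter] at hw
        exact hw.2.1
      have hB2 : 2 ≤ B'.card := by
        apply Finset.one_lt_card.2
        exact ⟨x.1, (hmem x).2 hx, y.1, (hmem y).2 hy, fun h => hxy (Subtype.ext h)⟩
      have hB3 : ∀ n ∈ HL G l u, B'.image n = B' ∨ Disjoint (B'.image n) B' := by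
        intro n hn
        rcases hBb ⟨n, hn⟩ with h1 | h1
        · left
          ext w
          rw [Finset.mem_image]
          constructor
          · rintro ⟨z, hz, rfl⟩
            have hz' : (⟨z, hB1 z hz⟩ : {w : Ω // Rel G l u w}) ∈ B := (hmem ⟨z, hB1 z hz⟩).1 hz
            have h2 := Set.smul_mem_smul_set (a := (⟨n, hn⟩ : HL G l u)) hz'
            rw [h1] at h2
            exact (hmem _).2 h2
          · intro hw
            have hw' : (⟨w, hB1 w hw⟩ : {w : Ω // Rel G l u w}) ∈ B := (hmem ⟨w, hB1 w hw⟩).1 hw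
            rw [← h1, Set.mem_smul_set] at hw'
            obtain ⟨z, hz, hzw⟩ := hw'
            exact ⟨z.1, (hmem z).2 hz, congrArg Subtype.val hzw⟩
        · right
          rw [Finset.disjoint_left]
          intro w hw hw2
          rw [Finset.mem_image] at hw
          obtain ⟨z, hz, rfl⟩ := hw
          have hz' : (⟨z, hB1 z hz⟩ : {w : Ω // Rel G l u w}) ∈ B := (hmem ⟨z, hB1 z hz⟩).1 hz
          have h2 := Set.smul_mem_smul_set (a := (⟨n, hn⟩ : HL G l u)) hz'
          exact (Set.disjoint_left.1 h1) h2 ((hmem _).1 hw2)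
      ext z
      simp only [Set.mem_univ, iff_true]
      exact (hmem z).1 (HL_prim hl hB1 hB2 hB3 z.2)
  -- the fixed points of the cycle
  set s : Set {w : Ω // Rel G l u w} := {x | g x.1 = x.1} with hs
  have hcardα : Nat.card {w : Ω // Rel G l u w} = D.card := by
    rw [Nat.card_congr (Equiv.subtypeEquivRight fun w => (hD w).symm), Nat.card_eq_fintype_card,
      Fintype.card_coe]
  have hsupp : g.support ⊆ D := by
    intro w hw
    rw [Perm.mem_support] at hw
    exact (hD w).2 (rel_supp hg hgu hw)
  have hscard : s.ncard = D.card - l := by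
    have h1 : s.ncard = (Subtype.val '' s).ncard :=
      (Set.ncard_image_of_injective s Subtype.val_injective).symm
    have h2 : Subtype.val '' s = ((D \ g.support : Finset Ω) : Set Ω) := by
      ext w
      simp only [Set.mem_image, Finset.coe_sdiff, Set.mem_sdiff, Finset.mem_coe, Perm.mem_support,
        not_not]
      constructor
      · rintro ⟨z, hz, rfl⟩
        exact ⟨(hD _).2 z.2, hz⟩
      · rintro ⟨h3, h4⟩
        exact ⟨⟨w, (hD w).1 h3⟩, h4, rfl⟩
    rw [h1, h2, Set.ncard_coe_finset, Finset.card_sdiff_of_subset hsupp, hg.2.2]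
  have hstr : MulAction.IsPretransitive (fixingSubgroup (HL G l u) s)
      (SubMulAction.ofFixingSubgroup (HL G l u) s) := by
    refine ⟨fun x y => ?_⟩
    have hx : g x.1.1 ≠ x.1.1 := x.2
    have hy : g y.1.1 ≠ y.1.1 := y.2
    obtain ⟨i, hi⟩ := hg.2.1.sameCycle hx hy
    have hmem : (⟨g ^ i, zpow_mem hgHL i⟩ : HL G l u) ∈ fixingSubgroup (HL G l u) s := by
      rw [mem_fixingSubgroup_iff]
      intro z hz
      apply Subtype.ext
      show (g ^ i) z.1 = z.1
      exact Perm.zpow_apply_eq_self_of_apply_eq_self hz i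
    refine ⟨⟨_, hmem⟩, ?_⟩
    apply Subtype.ext
    apply Subtype.ext
    exact hi
  have hl2 := hl.two_le
  have h2t := hprim.is_two_pretransitive (s := s) (n := D.card - l - 1)
    (by rw [hscard]; omega) (by rw [hcardα]; omega) hstr
  rw [MulAction.is_two_pretransitive_iff] at h2t
  obtain ⟨n, hn1, hn2⟩ := h2t (a := ⟨a, (hD a).1 ha⟩) (b := ⟨b, (hD b).1 hb⟩)
    (c := ⟨a', (hD a').1 ha'⟩) (d := ⟨b', (hD b').1 hb'⟩)
    (fun h => hab (congrArg Subtype.val h)) (fun h => hab' (congrArg Subtype.val h))
  refine ⟨n.1, n.2.1, congrArg Subtype.val hn1, congrArg Subtype.val hn2, fun w hw => ?_⟩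
  exact n.2.2 w fun h => hw ((hD w).2 h)

end WildH
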