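import Mathlib

/-!
# Permutation groups of prime degree (helper21, MP_11236d_an, stage 3)

The theorem of Burnside, with the proof of Peter Mueller (Arch. Math. 2005).
-/

namespace WildH

open Equiv

/-- A vanishing statement for power sums.  Proof.  If all power sums with exponents `1 .. card S`
vanish, then `∑ s ∈ S, s * f(s) = 0` for every polynomial `f` of degree less than `card S`; choose `f` with
`f(s0) = 1` and `f(s) = 0` for the other elements (`∏ (X - s)` over `S.erase s0`, scaled): `s0 = 0`, a
contradiction. -/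
theorem exists_power_sum {p : ℕ} [Fact p.Prime] {S : Finset (ZMod p)} (h0 : (0 : ZMod p) ∉ S)
    (hne : S.Nonempty) : ∃ r : ℕ, 1 ≤ r ∧ r ≤ S.card ∧ ∑ s ∈ S, s ^ r ≠ 0 ∧
      ∀ k, 1 ≤ k → k < r → ∑ s ∈ S, s ^ k = 0 := by
  classical
  by_contra hcon
  push Not at hcon
  have hall : ∀ r : ℕ, 1 ≤ r → r ≤ S.card → ∑ s ∈ S, s ^ r = 0 := by
    intro r
    induction r using Nat.strong_induction_on with
    | _ r ih =>
      intro h1 h2
      by_contra hne0
      obtain ⟨k, hk1, hk2, hk3⟩ := hcon r h1 h2 hne0
      exact hk3 (ih k hk2 hk1 (by omega))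
  obtain ⟨s0, hs0⟩ := hne
  have hs00 : s0 ≠ 0 := fun h => h0 (h ▸ hs0)
  set f : Polynomial (ZMod p) := ∏ s ∈ S.erase s0, (Polynomial.X - Polynomial.C s) with hf
  have hdeg : f.natDegree < S.card := by
    have h1 : f.natDegree = (S.erase s0).card := by
      rw [hf, Polynomial.natDegree_finsetProd_X_sub_C_eq_card]
    rw [h1, Finset.card_erase_of_mem hs0]
    have : 0 < S.card := Finset.card_pos.mpr ⟨s0, hs0⟩
    omega
  have hsum : ∑ s ∈ S, s * f.eval s = 0 := by
    have h1 : ∀ s ∈ S, s * f.eval s = ∑ i ∈ Finset.range S.card, f.coeff i * s ^ (i + 1) := by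
      intro s _
      rw [Polynomial.eval_eq_sum_range' hdeg, Finset.mul_sum]
      refine Finset.sum_congr rfl fun i _ => ?_
      ring
    rw [Finset.sum_congr rfl h1, Finset.sum_comm]
    refine Finset.sum_eq_zero fun i hi => ?_
    rw [← Finset.mul_sum, hall (i + 1) (by omega) (by have := Finset.mem_range.mp hi; omega), mul_zero]
  have hsum2 : ∑ s ∈ S, s * f.eval s = s0 * f.eval s0 := by
    refine Finset.sum_eq_single_of_mem s0 hs0 fun s hs hne => ?_
    have : f.eval s = 0 := by
      rw [hf, Polynomial.eval_prod]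
      refine Finset.prod_eq_zero (Finset.mem_erase.mpr ⟨hne, hs⟩) ?_
      simp
    rw [this, mul_zero]
  have hf0 : f.eval s0 ≠ 0 := by
    rw [hf, Polynomial.eval_prod]
    refine Finset.prod_ne_zero_iff.mpr fun s hs => ?_
    have := (Finset.mem_erase.mp hs).1
    simp only [Polynomial.eval_sub, Polynomial.eval_X, Polynomial.eval_C]
    exact sub_ne_zero.mpr (Ne.symm this)
  exact mul_ne_zero hs00 hf0 (hsum2 ▸ hsum)

/-- The coefficient of `X ^ (N - r)` of the sum of the translates. -/
theorem mueller_coeff_taylor {p : ℕ} [Fact p.Prime] {S : Finset (ZMod p)} {r : ℕ} (hr : 1 ≤ r)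
    (hk : ∀ k, 1 ≤ k → k < r → ∑ s ∈ S, s ^ k = 0) (R : Polynomial (ZMod p)) (hrR : r ≤ R.natDegree) :
    (∑ s ∈ S, Polynomial.taylor s R).coeff (R.natDegree - r) =
      S.card * R.coeff (R.natDegree - r) +
        (R.natDegree.choose (R.natDegree - r) : ZMod p) * R.leadingCoeff * ∑ s ∈ S, s ^ r := by
  set N := R.natDegree with hN
  set j := N - r with hj
  set H := Polynomial.hasseDeriv j R with hH
  have hHd : H.natDegree < r + 1 := by
    have := Polynomial.natDegree_hasseDeriv_le R j
    rw [← hH] at this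
    omega
  rw [Polynomial.finset_sum_coeff]
  have h1 : ∀ s ∈ S, (Polynomial.taylor s R).coeff j = ∑ i ∈ Finset.range (r + 1), H.coeff i * s ^ i := by
    intro s _
    rw [Polynomial.taylor_coeff, ← hH, Polynomial.eval_eq_sum_range' hHd]
  rw [Finset.sum_congr rfl h1, Finset.sum_comm]
  have h2 : ∀ i ∈ Finset.range (r + 1), ∑ s ∈ S, H.coeff i * s ^ i = H.coeff i * ∑ s ∈ S, s ^ i := by
    intro i _
    rw [Finset.mul_sum]
  rw [Finset.sum_congr rfl h2, Finset.sum_range_succ]
  obtain ⟨q, rfl⟩ : ∃ q, r = q + 1 := ⟨r - 1, by omega⟩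
  rw [Finset.sum_range_succ']
  have h3 : ∑ i ∈ Finset.range q, H.coeff (i + 1) * ∑ s ∈ S, s ^ (i + 1) = 0 := by
    refine Finset.sum_eq_zero fun i hi => ?_
    rw [hk (i + 1) (by omega) (by have := Finset.mem_range.mp hi; omega), mul_zero]
  rw [h3, zero_add]
  have h4 : H.coeff 0 = R.coeff j := by
    rw [hH, Polynomial.hasseDeriv_coeff]
    simp
  have h5 : H.coeff (q + 1) = (N.choose j : ZMod p) * R.leadingCoeff := by
    rw [hH, Polynomial.hasseDeriv_coeff]
    have : q + 1 + j = N := by omega
    rw [this, Polynomial.leadingCoeff, ← hN]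
  rw [h4, h5]
  simp [mul_comm]

/-- The coefficients of the sum of the powers of the shifts. -/
theorem mueller_coeff_shift {p : ℕ} [Fact p.Prime] {S : Finset (ZMod p)} {r : ℕ} (hr : 1 ≤ r)
    (hk : ∀ k, 1 ≤ k → k < r → ∑ s ∈ S, s ^ k = 0) (f : Polynomial (ZMod p)) (m j : ℕ)
    (hj : ∀ k, r ≤ k → k ≤ m → (m - k) * f.natDegree < j) :
    (∑ s ∈ S, (f + Polynomial.C s) ^ m).coeff j = S.card * (f ^ m).coeff j := by
  rw [Polynomial.finset_sum_coeff]
  have h1 : ∀ s ∈ S, ((f + Polynomial.C s) ^ m).coeff j =
      ∑ k ∈ Finset.range (m + 1), ((m.choose k : ZMod p) * (f ^ (m - k)).coeff j) * s ^ k := by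
    intro s _
    rw [add_comm f, add_pow, Polynomial.finset_sum_coeff]
    refine Finset.sum_congr rfl fun k _ => ?_
    rw [← Polynomial.C_pow, mul_assoc, Polynomial.coeff_C_mul, Polynomial.coeff_mul_natCast]
    ring
  rw [Finset.sum_congr rfl h1, Finset.sum_comm]
  have h2 : ∀ k ∈ Finset.range (m + 1), ∑ s ∈ S, ((m.choose k : ZMod p) * (f ^ (m - k)).coeff j) * s ^ k =
      ((m.choose k : ZMod p) * (f ^ (m - k)).coeff j) * ∑ s ∈ S, s ^ k := by
    intro k _
    rw [Finset.mul_sum]
  rw [Finset.sum_congr rfl h2, Finset.sum_range_succ']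
  have h3 : ∑ k ∈ Finset.range m, ((m.choose (k + 1) : ZMod p) * (f ^ (m - (k + 1))).coeff j) *
      ∑ s ∈ S, s ^ (k + 1) = 0 := by
    refine Finset.sum_eq_zero fun k hkm => ?_
    have hkm' := Finset.mem_range.mp hkm
    by_cases hlt : k + 1 < r
    · rw [hk (k + 1) (by omega) hlt, mul_zero]
    · have : (f ^ (m - (k + 1))).coeff j = 0 := by
        refine Polynomial.coeff_eq_zero_of_natDegree_lt ?_
        exact lt_of_le_of_lt Polynomial.natDegree_pow_le (hj (k + 1) (by omega) (by omega))
      rw [this, mul_zero, zero_mul]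
  rw [h3, zero_add]
  simp [mul_comm]

/-- **Mueller.**  A permutation of `ZMod p` preserving the relation `x - y ∈ S` is affine.

Proof.  For every `x` the map `s ↦ π (x + s) - π x` is a bijection of `S`, so
`∑ s ∈ S, π (x + s) ^ m = ∑ s ∈ S, (π x + s) ^ m` for all `x` and `m`.  Let `f` be the polynomial over `ZMod p` of
degree `n ≤ p - 1` with `f(x) = π x` for all `x` (`Lagrange.interpolate`); `n ≥ 1`.  Let `r` be as in
`exists_power_sum`, `r ≤ card S`, `2 r ≤ p - 1`.  Let `m` be the least positive integer with `m n ≥ r`.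
Then `m n ≤ p - 1`: clear if `m = 1`; otherwise `n < r` and `(m - 1) n < r`, so `m n < 2 r ≤ p - 1`.
So the polynomial `∑ s ∈ S, f(X + s) ^ m - ∑ s ∈ S, (f(X) + s) ^ m` of degree at most `m n < p`
vanishes on `ZMod p`, hence is zero.  With `R = f ^ m` and the Taylor expansion (Hasse derivatives)
`∑ s, R(X + s) - card S * R = ∑ k ≥ r, (∑ s, s ^ k) R^[k]` has degree exactly `m n - r`: the coefficient
of `X ^ (m n - r)` is `(∑ s, s ^ r) * (m n choose r) * lead`, and `p` does not divide the binomial
coefficient because `m n < p`.  The other side is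
`∑ s, (f + s) ^ m - card S * f ^ m = ∑ k from r to m, (m choose k) (∑ s, s ^ k) f ^ (m - k)`; it is zero if
`m < r` (a contradiction), and has degree at most `n (m - r)` otherwise.  So `m n - r ≤ n m - n r`,
`n ≤ 1`. -/
theorem affine_of_diff {p : ℕ} [Fact p.Prime] {S : Finset (ZMod p)} (h0 : (0 : ZMod p) ∉ S)
    (hne : S.Nonempty) (hS : 2 * S.card ≤ p - 1) {π : Perm (ZMod p)}
    (h : ∀ x y, x - y ∈ S → π x - π y ∈ S) : ∃ α β : ZMod p, ∀ x, π x = α * x + β := by
  classical
  have hp : p.Prime := Fact.out
  obtain ⟨r, hr1, hrS, hrne, hk⟩ := exists_power_sum h0 hne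
  -- reindexing
  have hbij : ∀ (x : ZMod p) (F : ZMod p → ZMod p),
      ∑ s ∈ S, F (π (x + s)) = ∑ s ∈ S, F (π x + s) := by
    intro x F
    have himg : S.image (fun s => π (x + s) - π x) = S := by
      apply Finset.eq_of_subset_of_card_le
      · intro z hz
        obtain ⟨s, hs, rfl⟩ := Finset.mem_image.mp hz
        exact h (x + s) x (by simpa using hs)
      · rw [Finset.card_image_of_injective]
        intro s t hst
        have : π (x + s) = π (x + t) := by simpa using hst
        simpa using this
    have hinj : Set.InjOn (fun s => π (x + s) - π x) (S : Set (ZMod p)) := by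
      intro s _ t _ hst
      have : π (x + s) = π (x + t) := by simpa using hst
      simpa using this
    have h1 : ∑ s ∈ S.image (fun s => π (x + s) - π x), F (π x + s) =
        ∑ s ∈ S, F (π x + (π (x + s) - π x)) := Finset.sum_image hinj
    rw [himg] at h1
    rw [h1]
    refine Finset.sum_congr rfl fun s _ => ?_
    congr 1
    ring
  -- the interpolation polynomial
  set f : Polynomial (ZMod p) := Lagrange.interpolate Finset.univ id (fun x => π x) with hf
  have hfe : ∀ x, f.eval x = π x := by
    intro x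
    have := Lagrange.eval_interpolate_at_node (s := Finset.univ) (v := (id : ZMod p → ZMod p))
      (fun x => π x) (Function.injective_id.injOn) (Finset.mem_univ x)
    exact this
  have hcard : (Finset.univ : Finset (ZMod p)).card = p := by
    rw [Finset.card_univ, ZMod.card]
  have hfd : f.natDegree < p := by
    have h1 : f.degree < (p : WithBot ℕ) := by
      have := Lagrange.degree_interpolate_lt (s := Finset.univ) (v := (id : ZMod p → ZMod p))
        (fun x => π x) (Function.injective_id.injOn)
      rw [hcard] at this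
      exact this
    by_cases hf0 : f = 0
    · rw [hf0, Polynomial.natDegree_zero]
      exact hp.pos
    · exact (Polynomial.natDegree_lt_iff_degree_lt hf0).mpr h1
  set n := f.natDegree with hn
  have hzero : ∀ P : Polynomial (ZMod p), P.natDegree < p → (∀ x, P.eval x = 0) → P = 0 := by
    intro P hP hPx
    refine Polynomial.eq_zero_of_natDegree_lt_card_of_eval_eq_zero' P Finset.univ (fun x _ => hPx x) ?_
    rw [hcard]
    exact hP
  by_cases hn1 : n ≤ 1
  · obtain ⟨a, b, hab⟩ := Polynomial.exists_eq_X_add_C_of_natDegree_le_one (hn ▸ hn1)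
    refine ⟨a, b, fun x => ?_⟩
    rw [← hfe x, hab]
    simp
  · exfalso
    push Not at hn1
    obtain ⟨m, hm1, hmr, hmp⟩ : ∃ m, 1 ≤ m ∧ r ≤ m * n ∧ m * n < p := by
      have hex : ∃ m, r ≤ m * n := ⟨r, Nat.le_mul_of_pos_right r (by omega)⟩
      refine ⟨Nat.find hex, ?_, Nat.find_spec hex, ?_⟩
      · rcases Nat.eq_zero_or_pos (Nat.find hex) with h00 | h00
        · have := Nat.find_spec hex
          rw [h00] at this
          omega
        · exact h00
      · obtain ⟨q, hq⟩ : ∃ q, q = Nat.find hex := ⟨_, rfl⟩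
        have hspec := Nat.find_spec hex
        have hmin : ∀ t, t < Nat.find hex → ¬ r ≤ t * n := fun t ht => Nat.find_min hex ht
        rw [← hq] at hspec hmin ⊢
        rcases q with _ | _ | q
        · omega
        · simpa using hfd
        · have h1 := hmin (q + 1) (by omega)
          push Not at h1
          have h2 : n ≤ (q + 1) * n := Nat.le_mul_of_pos_left n (by omega)
          have h3 : (q + 1 + 1) * n = (q + 1) * n + n := by ring
          have h4 := hp.pos
          omega
    -- the two polynomials agree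
    set A : Polynomial (ZMod p) := ∑ s ∈ S, Polynomial.taylor s (f ^ m) with hA
    set B : Polynomial (ZMod p) := ∑ s ∈ S, (f + Polynomial.C s) ^ m with hB
    have hdR : (f ^ m).natDegree = m * n := by
      rw [Polynomial.natDegree_pow]
    have hdA : A.natDegree ≤ m * n := by
      rw [hA]
      refine Polynomial.natDegree_sum_le_of_forall_le S _ fun s _ => ?_
      rw [Polynomial.natDegree_taylor, hdR]
    have hdB : B.natDegree ≤ m * n := by
      rw [hB]
      refine Polynomial.natDegree_sum_le_of_forall_le S _ fun s _ => ?_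
      refine Polynomial.natDegree_pow_le.trans ?_
      refine Nat.mul_le_mul_left m ?_
      refine (Polynomial.natDegree_add_le _ _).trans ?_
      simp [hn]
    have hAB : A - B = 0 := by
      refine hzero (A - B) ?_ fun x => ?_
      · refine lt_of_le_of_lt (Polynomial.natDegree_sub_le A B) ?_
        exact lt_of_le_of_lt (max_le hdA hdB) hmp
      · rw [Polynomial.eval_sub, sub_eq_zero, hA, hB, Polynomial.eval_finsetSum,
          Polynomial.eval_finsetSum]
        have h1 : ∀ s ∈ S, (Polynomial.taylor s (f ^ m)).eval x = (fun y => y ^ m) (π (x + s)) := by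
          intro s _
          rw [Polynomial.taylor_eval, Polynomial.eval_pow, hfe]
        have h2 : ∀ s ∈ S, ((f + Polynomial.C s) ^ m).eval x = (fun y => y ^ m) (π x + s) := by
          intro s _
          simp [hfe]
        rw [Finset.sum_congr rfl h1, Finset.sum_congr rfl h2]
        exact hbij x (fun y => y ^ m)
    have hf0 : f ≠ 0 := by
      intro h00
      rw [h00, Polynomial.natDegree_zero] at hn
      omega
    have hcA := mueller_coeff_taylor hr1 hk (f ^ m) (by rw [hdR]; exact hmr)
    have hcB := mueller_coeff_shift hr1 hk f m (m * n - r) (by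
      intro k hk1 hk2
      rw [← hn]
      have e1 : (m - k) * n + k * n = m * n := by
        rw [← Nat.add_mul]
        congr 1
        omega
      have e2 : k * 2 ≤ k * n := Nat.mul_le_mul_left k (by omega)
      omega)
    rw [hdR] at hcA
    rw [← hA] at hcA
    rw [← hB] at hcB
    rw [sub_eq_zero.mp hAB, hcB] at hcA
    have hz : ((m * n).choose (m * n - r) : ZMod p) * (f ^ m).leadingCoeff * ∑ s ∈ S, s ^ r = 0 := by
      have := hcA
      simpa using this
    have hch : ((m * n).choose (m * n - r) : ZMod p) ≠ 0 := by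
      intro hc
      rw [ZMod.natCast_eq_zero_iff] at hc
      have hdv : p ∣ (m * n).factorial := by
        refine dvd_trans hc ?_
        have := Nat.choose_mul_factorial_mul_factorial (n := m * n) (k := m * n - r) (Nat.sub_le _ _)
        rw [← this, mul_assoc]
        exact Dvd.intro _ rfl
      have := (hp.dvd_factorial).mp hdv
      omega
    have hlc : (f ^ m).leadingCoeff ≠ 0 := by
      rw [Polynomial.leadingCoeff_ne_zero]
      exact pow_ne_zero m hf0
    exact mul_ne_zero (mul_ne_zero hch hlc) hrne hz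

/-- **Burnside.**  A subgroup of `Perm (ZMod p)` containing the translation is doubly transitive or
consists of affine maps.

Proof.  Suppose there are `a ≠ b`, `a' ≠ b'` such that no element of `G` maps `(a, b)` to `(a', b')`.
Let `S` be the set of the `g b - g a`, `g ∈ G`.  Since `G` contains all translations, `y - x ∈ S` iff some
`g ∈ G` maps `(a, b)` to `(x, y)`; so `S` does not contain `0` and `b' - a'`, it is not empty, and
`y - x ∈ S` implies `g y - g x ∈ S` for all `g ∈ G`.  The complement `S'` of `S` in the nonzero elements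
has the same properties (use `g⁻¹`).  One of `S`, `S'` has at most `(p - 1) / 2` elements; apply
`affine_of_diff`. -/
theorem burnside {p : ℕ} [Fact p.Prime] (G : Subgroup (Perm (ZMod p)))
    (hT : Equiv.addRight (1 : ZMod p) ∈ G) :
    (∀ a b a' b' : ZMod p, a ≠ b → a' ≠ b' → ∃ g ∈ G, g a = a' ∧ g b = b') ∨
      ∀ g ∈ G, ∃ α β : ZMod p, ∀ x, g x = α * x + β := by
  classical
  have hp : p.Prime := Fact.out
  have hTall : ∀ c : ZMod p, Equiv.addRight c ∈ G := by
    intro c
    have h1 : (Equiv.addRight (1 : ZMod p)) ^ (c.val) ∈ G := G.pow_mem hT _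
    have h3 : ∀ k : ℕ, (Equiv.addRight (1 : ZMod p)) ^ k = Equiv.addRight (k : ZMod p) := by
      intro k
      induction k with
      | zero => exact Equiv.ext fun x => by simp
      | succ k ih =>
        rw [pow_succ, ih]
        refine Equiv.ext fun x => ?_
        simp only [Equiv.Perm.mul_apply, Equiv.coe_addRight, Nat.cast_add, Nat.cast_one]
        ring
    rw [h3, ZMod.natCast_zmod_val] at h1
    exact h1
  by_cases hdt : ∀ a b a' b' : ZMod p, a ≠ b → a' ≠ b' → ∃ g ∈ G, g a = a' ∧ g b = b'
  · exact Or.inl hdt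
  · right
    push Not at hdt
    obtain ⟨a, b, a', b', hab, hab', hno⟩ := hdt
    set S : Finset (ZMod p) := Finset.univ.filter (fun z => ∃ g ∈ G, g b - g a = z) with hS
    have hmemS : ∀ x y : ZMod p, x - y ∈ S ↔ ∃ g ∈ G, g a = y ∧ g b = x := by
      intro x y
      rw [hS, Finset.mem_filter]
      constructor
      · rintro ⟨-, g, hg, hgz⟩
        refine ⟨Equiv.addRight (y - g a) * g, G.mul_mem (hTall _) hg, ?_, ?_⟩
        · simp [Equiv.Perm.mul_apply]
        · simp only [Equiv.Perm.mul_apply, Equiv.coe_addRight]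
          linear_combination hgz
      · rintro ⟨g, hg, h1, h2⟩
        exact ⟨Finset.mem_univ _, g, hg, by rw [h1, h2]⟩
    have hS0 : (0 : ZMod p) ∉ S := by
      intro h
      rw [hS, Finset.mem_filter] at h
      obtain ⟨-, g, -, hg⟩ := h
      exact hab (g.injective (sub_eq_zero.mp hg)).symm
    have hSne : S.Nonempty := ⟨b - a, (hmemS b a).mpr ⟨1, G.one_mem, rfl, rfl⟩⟩
    have hSinv : ∀ g ∈ G, ∀ x y, x - y ∈ S → g x - g y ∈ S := by
      intro g hg x y hxy
      obtain ⟨k, hk, h1, h2⟩ := (hmemS x y).mp hxy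
      exact (hmemS _ _).mpr ⟨g * k, G.mul_mem hg hk, by rw [Equiv.Perm.mul_apply, h1],
        by rw [Equiv.Perm.mul_apply, h2]⟩
    set S' : Finset (ZMod p) := Finset.univ.filter (fun z => z ≠ 0 ∧ z ∉ S) with hS'
    have hS'0 : (0 : ZMod p) ∉ S' := by
      rw [hS', Finset.mem_filter]
      rintro ⟨-, h, -⟩
      exact h rfl
    have hS'ne : S'.Nonempty := by
      refine ⟨b' - a', ?_⟩
      rw [hS', Finset.mem_filter]
      refine ⟨Finset.mem_univ _, sub_ne_zero.mpr (Ne.symm hab'), fun h => ?_⟩
      obtain ⟨g, hg, h1, h2⟩ := (hmemS _ _).mp h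
      exact hno g hg h1 h2
    have hS'inv : ∀ g ∈ G, ∀ x y, x - y ∈ S' → g x - g y ∈ S' := by
      intro g hg x y hxy
      rw [hS', Finset.mem_filter] at hxy ⊢
      refine ⟨Finset.mem_univ _, ?_, ?_⟩
      · intro h
        exact hxy.2.1 (sub_eq_zero.mpr (g.injective (sub_eq_zero.mp h)))
      · intro h
        have := hSinv g⁻¹ (G.inv_mem hg) _ _ h
        have e1 : ∀ z, g⁻¹ (g z) = z := fun z => g.symm_apply_apply z
        rw [e1, e1] at this
        exact hxy.2.2 this
    have hdisj : Disjoint S S' := by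
      rw [Finset.disjoint_left]
      intro z hz hz'
      rw [hS', Finset.mem_filter] at hz'
      exact hz'.2.2 hz
    have hcard : S.card + S'.card ≤ p - 1 := by
      rw [← Finset.card_union_of_disjoint hdisj]
      have hsub : S ∪ S' ⊆ Finset.univ.erase (0 : ZMod p) := by
        intro z hz
        rw [Finset.mem_erase]
        refine ⟨?_, Finset.mem_univ _⟩
        rintro rfl
        rcases Finset.mem_union.mp hz with h | h
        · exact hS0 h
        · exact hS'0 h
      have := Finset.card_le_card hsub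
      rwa [Finset.card_erase_of_mem (Finset.mem_univ _), Finset.card_univ, ZMod.card] at this
    intro g hg
    rcases le_total S.card S'.card with hle | hle
    · exact affine_of_diff hS0 hSne (by omega) (π := g) (hSinv g hg)
    · exact affine_of_diff hS'0 hS'ne (by omega) (π := g) (hS'inv g hg)

end WildH
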