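import Pool.Agent.helper21.HD.Grp1
import Pool.Agent.helper21.HD.Mueller

/-! Classes with exactly `l` elements. -/

namespace WildH

open Equiv

variable {Ω : Type} [Fintype Ω] [DecidableEq Ω]

/-- The group of the permutations of the index set `K` induced by `G` through `e`. -/
def Grp3_ind {K : Type} (G : Subgroup (Perm Ω)) (e : K → Ω) : Subgroup (Perm K) where
  carrier := {π | ∃ n ∈ G, ∀ k, n (e k) = e (π k)}
  mul_mem' := by
    rintro a b ⟨n, hn, hn'⟩ ⟨m, hm, hm'⟩
    exact ⟨n * m, mul_mem hn hm, fun k => by rw [Perm.mul_apply, hm' k, hn' (b k), Perm.mul_apply]⟩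
  one_mem' := ⟨1, one_mem _, fun _ => rfl⟩
  inv_mem' := by
    rintro a ⟨n, hn, hn'⟩
    refine ⟨n⁻¹, inv_mem hn, fun k => ?_⟩
    have h := hn' (a⁻¹ k)
    have h2 : a (a⁻¹ k) = k := by simp
    rw [h2] at h
    rw [← h]
    simp

omit [Fintype Ω] [DecidableEq Ω] in
theorem Grp3_mem_ind {K : Type} {G : Subgroup (Perm Ω)} {e : K → Ω} {π : Perm K} :
    π ∈ Grp3_ind G e ↔ ∃ n ∈ G, ∀ k, n (e k) = e (π k) := Iff.rfl

/-- The parametrisation of the support of a cycle of length `l` by `ZMod l`. -/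
theorem Grp3_param {l : ℕ} (hl : l.Prime) {u : Ω} {g : Perm Ω} (hc : g.IsCycle)
    (hs : g.support.card = l) (hgu : g u ≠ u) :
    ∃ e : ZMod l → Ω, Function.Injective e ∧ (∀ k, g (e k) = e (k + 1)) ∧
      ∀ w, g w ≠ w → ∃ k, e k = w := by
  have : Fact l.Prime := ⟨hl⟩
  have hord : orderOf g = l := by rw [hc.orderOf, hs]
  have hmod : ∀ i : ℕ, g ^ (i % l) = g ^ i := fun i => by rw [← hord]; exact pow_mod_orderOf g i
  have hval : ∀ i : ℕ, g ^ ((i : ZMod l).val) = g ^ i := fun i => by rw [ZMod.val_natCast]; exact hmod i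
  refine ⟨fun k => (g ^ k.val) u, ?_, ?_, ?_⟩
  · intro a b hab
    have hab' : (g ^ a.val) u = (g ^ b.val) u := hab
    have h1 : g ^ a.val = g ^ b.val := hc.pow_eq_pow_iff.2 ⟨u, hgu, hab'⟩
    have h2 : a.val = b.val := by
      refine pow_injOn_Iio_orderOf (x := g) ?_ ?_ h1
      · rw [hord]; exact ZMod.val_lt a
      · rw [hord]; exact ZMod.val_lt b
    exact ZMod.val_injective l h2
  · intro k
    show g ((g ^ k.val) u) = (g ^ (k + 1).val) u
    have h1 : (k + 1 : ZMod l) = ((k.val + 1 : ℕ) : ZMod l) := by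
      rw [Nat.cast_add, Nat.cast_one, ZMod.natCast_zmod_val]
    rw [h1, hval, pow_succ', Perm.mul_apply]
  · intro w hw
    obtain ⟨i, hi⟩ := hc.exists_pow_eq hgu hw
    exact ⟨(i : ZMod l), by show (g ^ ((i : ZMod l).val)) u = w; rw [hval, hi]⟩

/-- If the support `D` of a cycle `g ∈ G` of prime length `l` is a class of the relation, then the
stabiliser of `D` is doubly transitive on `D`, or every element of `G` fixing two points of `D` fixes
`D` pointwise.

Proof.  Fix `u ∈ D`.  `k ↦ g ^ k u` induces a bijection `e` from `ZMod l` to `D` (`g` is a cycle of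
length `l`: `Equiv.Perm.IsCycle.zmod..`, or `orderOf`).  Let `G'` be the subgroup of the
`π ∈ Perm (ZMod l)` for which there is `n ∈ G` with `n (e k) = e (π k)` for all `k`; it contains the
translation by one (`n = g`).  Apply `burnside`.  In the first case translate back.  In the second
case let `n ∈ G` fix `a ≠ b` in `D`.  `n` maps `D` to `D` (`Rel.map`: `n w` is related to `n a = a`), so it induces
`π ∈ G'`, an affine map with two fixed points: `α x + β = x` for two values of `x` gives `α = 1`,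
`β = 0`. -/
theorem rel_prime {G : Subgroup (Perm Ω)} {l : ℕ} (hl : l.Prime) {u : Ω} {g : Perm Ω}
    (hg : g ∈ LCs G l) (hgu : g u ≠ u) {D : Finset Ω} (hD : ∀ w, w ∈ D ↔ Rel G l u w)
    (hcard : D.card = l) :
    (∀ a ∈ D, ∀ b ∈ D, ∀ a' ∈ D, ∀ b' ∈ D, a ≠ b → a' ≠ b' → ∃ n ∈ G, n a = a' ∧ n b = b') ∨
      ∀ n ∈ G, ∀ a ∈ D, ∀ b ∈ D, a ≠ b → n a = a → n b = b → ∀ w ∈ D, n w = w := by
  have : Fact l.Prime := ⟨hl⟩
  obtain ⟨e, hinj, hstep, hsurj⟩ := Grp3_param hl hg.2.1 hg.2.2 hgu
  have hsub : g.support ⊆ D := by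
    intro w hw
    rw [hD]
    exact rel_supp hg hgu (Perm.mem_support.1 hw)
  have hsD : g.support = D := Finset.eq_of_subset_of_card_le hsub (by rw [hcard, hg.2.2])
  have hDe : ∀ w ∈ D, ∃ k, e k = w := fun w hw => hsurj w (Perm.mem_support.1 (by rw [hsD]; exact hw))
  have heD : ∀ k, e k ∈ D := by
    intro k
    rw [← hsD, Perm.mem_support, hstep k]
    intro h
    have h1 := hinj h
    exact one_ne_zero (add_eq_left.1 h1)
  rcases burnside (Grp3_ind G e) (⟨g, hg.1, fun k => hstep k⟩) with h | h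
  · left
    intro a ha b hb a' ha' b' hb' hab hab'
    obtain ⟨ka, rfl⟩ := hDe a ha
    obtain ⟨kb, rfl⟩ := hDe b hb
    obtain ⟨ka', rfl⟩ := hDe a' ha'
    obtain ⟨kb', rfl⟩ := hDe b' hb'
    obtain ⟨π, hπ, h1, h2⟩ := h ka kb ka' kb' (fun h => hab (by rw [h])) (fun h => hab' (by rw [h]))
    obtain ⟨n, hn, hn'⟩ := Grp3_mem_ind.1 hπ
    exact ⟨n, hn, by rw [hn', h1], by rw [hn', h2]⟩
  · right
    intro n hn a ha b hb hab hna hnb w hw
    have hmap : ∀ w ∈ D, n w ∈ D := by
      intro w hw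
      have h1 : Rel G l a w := ((hD a).1 ha).symm.trans ((hD w).1 hw)
      have h2 := h1.map hn
      rw [hna] at h2
      exact (hD _).2 (((hD a).1 ha).trans h2)
    have hex : ∀ k, ∃ j, e j = n (e k) := fun k => hDe _ (hmap _ (heD k))
    choose f hf using hex
    have hfinj : Function.Injective f := by
      intro x y hxy
      apply hinj
      apply n.injective
      rw [← hf x, ← hf y, hxy]
    have hfbij : Function.Bijective f := Finite.injective_iff_bijective.1 hfinj
    obtain ⟨α, β, haff⟩ := h (Equiv.ofBijective f hfbij)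
      ⟨n, hn, fun k => by rw [Equiv.ofBijective_apply, hf k]⟩
    obtain ⟨ka, rfl⟩ := hDe a ha
    obtain ⟨kb, rfl⟩ := hDe b hb
    have hka : f ka = ka := hinj (by rw [hf ka, hna])
    have hkb : f kb = kb := hinj (by rw [hf kb, hnb])
    have h1 := haff ka
    have h2 := haff kb
    rw [Equiv.ofBijective_apply, hka] at h1
    rw [Equiv.ofBijective_apply, hkb] at h2
    have hne : ka - kb ≠ 0 := sub_ne_zero.2 (fun h => hab (by rw [h]))
    have h3 : (α - 1) * (ka - kb) = 0 := by linear_combination h2 - h1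
    have hα : α = 1 := by
      rcases mul_eq_zero.1 h3 with h4 | h4
      · exact sub_eq_zero.1 h4
      · exact absurd h4 hne
    have hβ : β = 0 := by
      rw [hα, one_mul] at h1
      exact (left_eq_add.1 h1)
    obtain ⟨k, rfl⟩ := hDe w hw
    rw [← hf k]
    have h5 := haff k
    rw [Equiv.ofBijective_apply, hα, hβ, one_mul, add_zero] at h5
    rw [h5]

end WildH
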