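import Pool.Agent.helper21.HD.Cyc
import Pool.Agent.helper21.HD.Grp2
import Pool.Agent.helper21.HD.Grp3

/-! The permutation group on the solutions, and the translation of the group theory. -/

namespace WildH

open Polynomial WildRat WildS WildV

variable {L : Type} [Field L] [Algebra ℂ L]

/-- The class relation on the solutions of `A(z) = t`: it is generated by the cycles of length `l`
in the group of the permutations induced by automorphisms of `L` fixing `t`. -/
structure Cls (A : RF) (l : ℕ) (t : L) (R : L → L → Prop) : Prop where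
  refl : ∀ z, Sol A t z → R z z
  symm : ∀ z w, Sol A t z → Sol A t w → R z w → R w z
  trans : ∀ z w v, Sol A t z → Sol A t w → Sol A t v → R z w → R w v → R z v
  map : ∀ (τ : L ≃ₐ[ℂ] L) (z w), τ t = t → Sol A t z → Sol A t w → R z w → R (τ z) (τ w)
  /-- local transitivity -/
  loc : ∀ z w, Sol A t z → Sol A t w → R z w → ∃ τ : L ≃ₐ[ℂ] L, τ t = t ∧ τ z = w ∧
    ∀ v, Sol A t v → ¬ R z v → τ v = v
  /-- the points moved by a cycle of length `l` are related -/
  cyc : ∀ (g : L ≃ₐ[ℂ] L) (s : Finset L), g t = t → s.card = l → (∀ z ∈ s, Sol A t z) →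
    (∀ z ∈ s, g z ∈ s) → (∀ z, Sol A t z → z ∉ s → g z = z) →
    (∀ z ∈ s, ∀ w ∈ s, ∃ k : ℕ, (g ^ k) z = w) → ∀ z ∈ s, ∀ w ∈ s, R z w
  /-- a class with more than `l` elements is doubly transitive, a class with `l` elements is doubly
  transitive or an element fixing two of its points fixes all of them -/
  two : ∀ (s : Finset L) (g : L ≃ₐ[ℂ] L) (r : Finset L), r ⊆ s → g t = t → r.card = l →
    (∀ z ∈ r, g z ∈ r) → (∀ z, Sol A t z → z ∉ r → g z = z) →
    (∀ z ∈ r, ∀ w ∈ r, ∃ k : ℕ, (g ^ k) z = w) →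
    ∀ u, Sol A t u → (∀ z, z ∈ s ↔ Sol A t z ∧ R u z) →
    (∀ a ∈ s, ∀ b ∈ s, ∀ a' ∈ s, ∀ b' ∈ s, a ≠ b → a' ≠ b' →
      ∃ τ : L ≃ₐ[ℂ] L, τ t = t ∧ τ a = a' ∧ τ b = b') ∨
    (s.card = l ∧ ∀ τ : L ≃ₐ[ℂ] L, τ t = t → ∀ a ∈ s, ∀ b ∈ s, a ≠ b → τ a = a → τ b = b →
      ∀ w ∈ s, τ w = w)

open Equiv in
/-- The permutations of the finite set `s` induced by automorphisms fixing `t`. -/
def Act_G (s : Finset L) (t : L) : Subgroup (Perm s) where
  carrier := {π | ∃ τ : L ≃ₐ[ℂ] L, τ t = t ∧ ∀ z : s, τ z = π z}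
  mul_mem' := by
    rintro a b ⟨τ, hτ, ha⟩ ⟨ρ, hρ, hb⟩
    refine ⟨τ * ρ, ?_, fun z => ?_⟩
    · rw [AlgEquiv.mul_apply, hρ, hτ]
    · rw [AlgEquiv.mul_apply, hb, ha, Perm.mul_apply]
  one_mem' := ⟨1, rfl, fun _ => rfl⟩
  inv_mem' := by
    rintro a ⟨τ, hτ, ha⟩
    refine ⟨τ⁻¹, ?_, fun z => ?_⟩
    · have h : τ⁻¹ (τ t) = t := by
        rw [← AlgEquiv.mul_apply, inv_mul_cancel, AlgEquiv.one_apply]
      rw [hτ] at h
      exact h
    · have h := ha (a⁻¹ z)
      rw [show a (a⁻¹ z) = z from a.apply_symm_apply z] at h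
      rw [← h, ← AlgEquiv.mul_apply, inv_mul_cancel, AlgEquiv.one_apply]

open Equiv in
/-- An automorphism fixing `t` induces a permutation. -/
theorem Act_ind {s : Finset L} {t : L} (τ : L ≃ₐ[ℂ] L) (ht : τ t = t)
    (hs : ∀ z ∈ s, τ z ∈ s) : ∃ π ∈ Act_G s t, ∀ z : s, τ z = π z := by
  have hf : Function.Injective (fun z : s => (⟨τ z, hs z z.2⟩ : s)) := by
    intro a b h
    have h' : τ a = τ b := congrArg Subtype.val h
    exact Subtype.ext (τ.injective h')
  refine ⟨Equiv.ofBijective _ (Finite.injective_iff_bijective.1 hf), ⟨τ, ht, fun z => rfl⟩,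
    fun z => rfl⟩

open Equiv in
theorem Act_pow {s : Finset L} {τ : L ≃ₐ[ℂ] L} {π : Perm s} (h : ∀ z : s, τ z = π z) (k : ℕ)
    (z : s) : (τ ^ k) z = (π ^ k) z := by
  induction k with
  | zero => rfl
  | succ k ih => rw [pow_succ', pow_succ', AlgEquiv.mul_apply, ih, h, Perm.mul_apply]

open Equiv Classical in
/-- A cycle of length `l` on a subset. -/
theorem Act_lcs {s : Finset L} {t : L} {l : ℕ} (hl : l.Prime) {g : L ≃ₐ[ℂ] L} (ht : g t = t)
    (hs : ∀ z ∈ s, g z ∈ s) {r : Finset L} (hr : r ⊆ s) (hcard : r.card = l)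
    (hfix : ∀ z ∈ s, z ∉ r → g z = z)
    (htr : ∀ z ∈ r, ∀ w ∈ r, ∃ k : ℕ, (g ^ k) z = w) :
    ∃ π ∈ LCs (Act_G s t) l, ∀ z : s, π z ≠ z ↔ (z : L) ∈ r := by
  obtain ⟨π, hπ, hgπ⟩ := Act_ind g ht hs
  have hmove : ∀ z : s, π z ≠ z ↔ (z : L) ∈ r := by
    intro z
    constructor
    · intro h
      by_contra hz
      refine h (Subtype.ext ?_)
      rw [← hgπ, hfix z z.2 hz]
    · intro hz h
      have h1 : 1 < r.card := by
        rw [hcard]
        exact hl.one_lt
      obtain ⟨w, hw, hwz⟩ := Finset.exists_mem_ne h1 (z : L)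
      obtain ⟨k, hk⟩ := htr z hz w hw
      rw [Act_pow hgπ] at hk
      have h2 : (π ^ k) z = z := by
        have := Perm.pow_apply_eq_self_of_apply_eq_self h k
        exact this
      rw [h2] at hk
      exact hwz hk.symm
  refine ⟨π, ⟨hπ, ?_, ?_⟩, hmove⟩
  · have hne : r.Nonempty := by
      rw [← Finset.card_pos, hcard]
      exact hl.pos
    obtain ⟨x, hx⟩ := hne
    refine ⟨⟨x, hr hx⟩, (hmove _).2 hx, ?_⟩
    intro y hy
    obtain ⟨k, hk⟩ := htr x hx y ((hmove y).1 hy)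
    refine ⟨(k : ℤ), Subtype.ext ?_⟩
    rw [zpow_natCast, ← Act_pow hgπ]
    exact hk
  · have h : π.support.map (Function.Embedding.subtype _) = r := by
      ext x
      rw [Finset.mem_map]
      constructor
      · rintro ⟨y, hy, rfl⟩
        exact (hmove y).1 (Perm.mem_support.1 hy)
      · intro hx
        exact ⟨⟨x, hr hx⟩, Perm.mem_support.2 ((hmove _).2 hx), rfl⟩
    rw [← hcard, ← h, Finset.card_map]

/-- **The class relation exists** (for `l` prime).

Proof.  Let `Ω` be the finite type of the solutions (`{z // z ∈ s}` for the finite set of `Amb.roots`), `G` the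
subgroup of the permutations `π` of `Ω` for which there is `τ : L ≃ₐ[ℂ] L` with `τ t = t` and
`τ z = π z` for all `z ∈ Ω`; every such `τ` induces an element of `G` (`Sol.map`, finite and injective).
Let `R z w` say that `z`, `w` are solutions and `Rel G l z w`.  A `g` as in `cyc` induces an element of
`LCs G l` (if `l ≥ 2`; transitive on `s`, trivial outside, so it is a cycle with support `s`).  The fields
are `Rel.refl` .. `Rel.map`, `rel_loc`, `rel_supp`, `rel_two` (if `l < card s`) and `rel_prime` (if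
`card s = l`; `card s ≥ l` because `r ⊆ s`). -/
theorem exists_Cls {A : RF} (hn : 1 ≤ A.n) (hm : A.P.Monic) (hlt : A.Q.natDegree < A.P.natDegree)
    {l : ℕ} (hl : l.Prime) {δ : E →ₐ[ℂ] L} (hL : Amb δ) :
    ∃ R : L → L → Prop, Cls A l (δ RatFunc.X) R := by
  classical
  obtain ⟨s, hs, -, -⟩ := Amb.roots hn hm hlt hL
  set t := δ RatFunc.X with ht0
  have hst : ∀ τ : L ≃ₐ[ℂ] L, τ t = t → ∀ z ∈ s, τ z ∈ s := fun τ hτ z hz =>
    (hs _).2 (Sol.map ((hs z).1 hz) τ hτ)
  refine ⟨fun z w => ∃ (hz : z ∈ s) (hw : w ∈ s), Rel (Act_G s t) l ⟨z, hz⟩ ⟨w, hw⟩, ?_, ?_, ?_, ?_,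
    ?_, ?_, ?_⟩
  · intro z hz
    exact ⟨(hs z).2 hz, (hs z).2 hz, Rel.refl _ _ _⟩
  · rintro z w - - ⟨hz, hw, h⟩
    exact ⟨hw, hz, h.symm⟩
  · rintro z w v - - - ⟨hz, hw, h⟩ ⟨hw', hv, h'⟩
    exact ⟨hz, hv, h.trans h'⟩
  · rintro τ z w hτ - - ⟨hz, hw, h⟩
    obtain ⟨π, hπ, hτπ⟩ := Act_ind (s := s) τ hτ (hst τ hτ)
    refine ⟨hst τ hτ z hz, hst τ hτ w hw, ?_⟩
    have h1 := h.map hπ
    have e1 : π ⟨z, hz⟩ = ⟨τ z, hst τ hτ z hz⟩ := Subtype.ext (hτπ ⟨z, hz⟩).symm
    have e2 : π ⟨w, hw⟩ = ⟨τ w, hst τ hτ w hw⟩ := Subtype.ext (hτπ ⟨w, hw⟩).symm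
    rwa [e1, e2] at h1
  · rintro z w - - ⟨hz, hw, h⟩
    obtain ⟨n, ⟨τ, hτ, hτn⟩, hn1, hn2⟩ := rel_loc h
    refine ⟨τ, hτ, ?_, ?_⟩
    · have := hτn ⟨z, hz⟩
      rw [hn1] at this
      exact this
    · intro v hv hR
      have hv' : v ∈ s := (hs v).2 hv
      have h1 : n ⟨v, hv'⟩ = ⟨v, hv'⟩ := hn2 _ fun h' => hR ⟨hz, hv', h'⟩
      have := hτn ⟨v, hv'⟩
      rw [h1] at this
      exact this
  · intro g r hg hcard hsol hmap hfix htr z hz w hw
    have hr : r ⊆ s := fun x hx => (hs x).2 (hsol x hx)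
    obtain ⟨π, hπ, hmv⟩ := Act_lcs (s := s) (t := t) hl hg (hst g hg) hr hcard
      (fun x hx hxr => hfix x ((hs x).1 hx) hxr) htr
    exact ⟨hr hz, hr hw, rel_supp hπ ((hmv ⟨z, hr hz⟩).2 hz) ((hmv ⟨w, hr hw⟩).2 hw)⟩
  · intro s' g r hrs hg hcard hmap hfix htr u hu hs'
    have hs's : s' ⊆ s := fun x hx => (hs x).2 ((hs' x).1 hx).1
    have hr : r ⊆ s := fun x hx => hs's (hrs hx)
    obtain ⟨π, hπ, hmv⟩ := Act_lcs (s := s) (t := t) hl hg (hst g hg) hr hcard
      (fun x hx hxr => hfix x ((hs x).1 hx) hxr) htr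
    have hne : r.Nonempty := by
      rw [← Finset.card_pos, hcard]
      exact hl.pos
    obtain ⟨x, hx⟩ := hne
    obtain ⟨-, hus, hxs, hux⟩ := (hs' x).1 (hrs hx)
    have hpx : π ⟨x, hxs⟩ ≠ ⟨x, hxs⟩ := (hmv ⟨x, hxs⟩).2 hx
    have hD : ∀ w : s, w ∈ (Finset.univ.filter fun w : s => (w : L) ∈ s') ↔
        Rel (Act_G s t) l ⟨x, hxs⟩ w := by
      intro w
      rw [Finset.mem_filter]
      constructor
      · rintro ⟨-, hw⟩
        obtain ⟨-, _, hws, huw⟩ := (hs' w).1 hw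
        exact hux.symm.trans huw
      · intro h
        exact ⟨Finset.mem_univ _, (hs' w).2 ⟨(hs w).1 w.2, hus, w.2, hux.trans h⟩⟩
    have hDc : (Finset.univ.filter fun w : s => (w : L) ∈ s').card = s'.card := by
      rw [← Finset.card_map (Function.Embedding.subtype _)]
      congr 1
      ext y
      rw [Finset.mem_map]
      constructor
      · rintro ⟨w, hw, rfl⟩
        exact (Finset.mem_filter.1 hw).2
      · intro hy
        exact ⟨⟨y, hs's hy⟩, Finset.mem_filter.2 ⟨Finset.mem_univ _, hy⟩, rfl⟩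
    have hle : l ≤ s'.card := by
      rw [← hcard]
      exact Finset.card_le_card hrs
    have hmem : ∀ a (ha : a ∈ s'), (⟨a, hs's ha⟩ : s) ∈
        (Finset.univ.filter fun w : s => (w : L) ∈ s') := fun a ha =>
      Finset.mem_filter.2 ⟨Finset.mem_univ _, ha⟩
    rcases hle.lt_or_eq with hlt' | heq
    · left
      intro a ha b hb a' ha' b' hb' hab hab'
      obtain ⟨n, ⟨τ, hτ, hτn⟩, h1, h2, -⟩ := rel_two hl hπ hpx hD (by rw [hDc]; exact hlt')
        (hmem a ha) (hmem b hb) (hmem a' ha') (hmem b' hb')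
        (fun h => hab (congrArg Subtype.val h)) (fun h => hab' (congrArg Subtype.val h))
      refine ⟨τ, hτ, ?_, ?_⟩
      · have := hτn ⟨a, hs's ha⟩
        rw [h1] at this
        exact this
      · have := hτn ⟨b, hs's hb⟩
        rw [h2] at this
        exact this
    · rcases rel_prime hl hπ hpx hD (by rw [hDc]; exact heq.symm) with h | h
      · left
        intro a ha b hb a' ha' b' hb' hab hab'
        obtain ⟨n, ⟨τ, hτ, hτn⟩, h1, h2⟩ := h _ (hmem a ha) _ (hmem b hb) _ (hmem a' ha') _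
          (hmem b' hb') (fun h => hab (congrArg Subtype.val h))
          (fun h => hab' (congrArg Subtype.val h))
        refine ⟨τ, hτ, ?_, ?_⟩
        · have := hτn ⟨a, hs's ha⟩
          rw [h1] at this
          exact this
        · have := hτn ⟨b, hs's hb⟩
          rw [h2] at this
          exact this
      · right
        refine ⟨heq.symm, ?_⟩
        intro τ hτ a ha b hb hab hτa hτb w hw
        obtain ⟨n, hn', hτn⟩ := Act_ind (s := s) τ hτ (hst τ hτ)
        have h1 := h n hn' _ (hmem a ha) _ (hmem b hb) (fun h => hab (congrArg Subtype.val h))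
          (Subtype.ext (by rw [← hτn]; exact hτa)) (Subtype.ext (by rw [← hτn]; exact hτb))
          _ (hmem w hw)
        have := hτn ⟨w, hs's hw⟩
        rw [h1] at this
        exact this

end WildH
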