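import Pool.Agent.helper21.HD.Gal

/-! The right factor attached to an invariant equivalence relation. -/

namespace WildH

open Polynomial WildRat WildS WildV

variable {L : Type} [Field L] [Algebra ℂ L]

theorem ClassF_gen (F : IntermediateField ℂ E) (hF : F ≠ ⊥) : ∃ u : E, NonConst u ∧
    F = IntermediateField.adjoin ℂ {u} ∧
    Module.finrank F E = max u.num.natDegree u.denom.natDegree := by
  have hgen := RatFunc.Luroth.eq_adjoin_generator (E := F)
  have hu : NonConst (RatFunc.Luroth.generator F) := fun c hc =>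
    RatFunc.Luroth.generator_ne_C hF ⟨c, by rw [hc]; rfl⟩
  have hfin := Luroth_finrank_congr hgen
  rw [RatFunc.finrank_eq_max_natDegree] at hfin
  exact ⟨_, hu, hgen, hfin⟩

/-- The field of the elements at which all coordinates of a set agree with `δ0`. -/
noncomputable def ClassF_F (S : Set (E →ₐ[ℂ] L)) (δ0 : E →ₐ[ℂ] L) : IntermediateField ℂ E where
  carrier := {v | ∀ δw ∈ S, δw v = δ0 v}
  mul_mem' := fun {a b} ha hb δw hw => by rw [map_mul, map_mul, ha δw hw, hb δw hw]
  one_mem' := fun δw _ => by rw [map_one, map_one]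
  add_mem' := fun {a b} ha hb δw hw => by rw [map_add, map_add, ha δw hw, hb δw hw]
  zero_mem' := fun δw _ => by rw [map_zero, map_zero]
  algebraMap_mem' := fun c δw _ => by rw [coord_C, coord_C]
  inv_mem' := fun a ha δw hw => by rw [map_inv₀, map_inv₀, ha δw hw]

theorem ClassF_mem {S : Set (E →ₐ[ℂ] L)} {δ0 : E →ₐ[ℂ] L} {v : E} :
    v ∈ ClassF_F S δ0 ↔ ∀ δw ∈ S, δw v = δ0 v := Iff.rfl

theorem ClassF_bot {F : IntermediateField ℂ E} {C : RF} (hn : 1 ≤ C.n) (h : elt C ∈ F) :
    F ≠ ⊥ := by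
  intro hb
  rw [hb, IntermediateField.mem_bot] at h
  obtain ⟨c, hc⟩ := h
  exact elt_nonConst C hn c hc.symm

theorem ClassF_sm {C : RF} (hn : 1 ≤ C.n) (δz δw : E →ₐ[ℂ] L) :
    Sm C (δz RatFunc.X) (δw RatFunc.X) ↔ δw (elt C) = δz (elt C) := by
  have hz : aeval (δz RatFunc.X) C.Q ≠ 0 := (coord_nonConst δz).aeval_ne_zero (C.Q_ne_zero hn)
  have hw : aeval (δw RatFunc.X) C.Q ≠ 0 := (coord_nonConst δw).aeval_ne_zero (C.Q_ne_zero hn)
  rw [coord_elt, coord_elt]
  unfold RF.app Sm
  rw [div_eq_div_iff hw hz]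
  exact ⟨fun h => h.symm, fun h => h.symm⟩

/-- Rational functions agreeing on a class of `C` are rational functions of `C`.

Proof.  Let `δz` be the coordinate with `δz X = z`.  For `w` with `Sm C z w` let `δw` be the coordinate
`X ↦ w`; the hypothesis says `δw u = δz u` for all these `w`.  Let `F ⊆ E` be the field of the `v` with
`δw v = δz v` for all `w` in the class; `elt C ∈ F`, `u ∈ F`.  By Lueroth `F = ℂ(v)`, `v = elt V`
(`RatFunc.Luroth.eq_adjoin_generator`, `exists_RF`), `[E : F] = V.n`; all `w` of the class are roots of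
`P_V(w) = δz (v) Q_V(w)`, so `C.n ≤ V.n = [E : F]`, while `ℂ(elt C) ⊆ F` and `[E : ℂ(elt C)] = C.n`; so
`F = ℂ(elt C)` (compare `StB_field` in WV/StB.lean, which does this for one pair). -/
theorem mem_of_agree {C : RF} (hn : 1 ≤ C.n) (hm : C.P.Monic)
    (hlt : C.Q.natDegree < C.P.natDegree) {δz : E →ₐ[ℂ] L} (hL : Amb δz) {u : E}
    (hu : ∀ δw : E →ₐ[ℂ] L, Sm C (δz RatFunc.X) (δw RatFunc.X) → δw u = δz u) :
    u ∈ IntermediateField.adjoin ℂ {elt C} := by
  classical
  obtain ⟨F, hFdef⟩ : ∃ F : IntermediateField ℂ E,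
      F = ClassF_F {δw : E →ₐ[ℂ] L | Sm C (δz RatFunc.X) (δw RatFunc.X)} δz := ⟨_, rfl⟩
  have hCF : elt C ∈ F := by
    rw [hFdef, ClassF_mem]
    intro δw hw
    exact (ClassF_sm hn δz δw).1 hw
  have huF : u ∈ F := by
    rw [hFdef, ClassF_mem]
    exact hu
  obtain ⟨v, hv, hgen, hfin⟩ := ClassF_gen F (ClassF_bot hn hCF)
  obtain ⟨V, hV1, hV2, hV3⟩ := exists_RF v hv
  have hvF : v ∈ F := by
    rw [hgen]
    exact IntermediateField.mem_adjoin_simple_self ℂ v
  -- the coordinate with value `C(z)`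
  obtain ⟨α, hα⟩ := exists_subst (elt_nonConst C hn)
  have hαf : FinC α := finC_all (AlgHom.id ℂ E) RatK_finC_id α
  have hamb : Amb (δz.comp α) := by
    refine ⟨hL.closed, ?_⟩
    have h1 : α.toRingHom.IsIntegral := hαf.to_isIntegral
    exact RingHom.IsIntegral.trans _ _ h1 hL.alg
  obtain ⟨s, hs1, hs2, -⟩ := hamb.roots hn hm hlt
  have hle : C.n ≤ V.n := by
    have hne : (GG V).map δz.toRingHom ≠ 0 := by
      rw [Ne, Polynomial.map_eq_zero]
      exact Gauss_GG_ne V hV2
    have hsub : s ⊆ ((GG V).map δz.toRingHom).roots.toFinset := by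
      intro w hw
      have h1 : aeval w C.P = δz (elt C) * aeval w C.Q := by
        have h2 := (hs1 w).1 hw
        unfold Sol at h2
        rwa [AlgHom.comp_apply, hα] at h2
      have h3 := StB_self hn δz
      have hsm : Sm C (δz RatFunc.X) w := by
        unfold Sm
        rw [h1, h3]
        ring
      have hwn : NonConst w := RF.Eqn.nonConst hn (coord_nonConst δz) hsm
      obtain ⟨δw, hδw⟩ := exists_subst hwn
      have h4 : δw v = δz v := by
        rw [hFdef, ClassF_mem] at hvF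
        apply hvF
        change Sm C (δz RatFunc.X) (δw RatFunc.X)
        rw [hδw]
        exact hsm
      rw [Multiset.mem_toFinset, mem_roots hne, StB_root, hV1, ← h4, ← hV1, ← hδw]
      exact StB_self hV2 δw
    have h5 := Finset.card_le_card hsub
    have h6 := Multiset.toFinset_card_le ((GG V).map δz.toRingHom).roots
    have h7 := Polynomial.card_roots' ((GG V).map δz.toRingHom)
    rw [natDegree_map, GG_natDegree V hV2] at h7
    omega
  have hF0 := StB_finrank hn
  have hsub : IntermediateField.adjoin ℂ {elt C} ≤ F :=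
    IntermediateField.adjoin_simple_le_iff.2 hCF
  have : FiniteDimensional (IntermediateField.adjoin ℂ {elt C}) E :=
    Module.finite_of_finrank_pos (by rw [hF0]; exact hn)
  have heq := IntermediateField.eq_of_le_of_finrank_le' hsub (by rw [hF0, hfin, ← hV3]; exact hle)
  rw [heq]
  exact huF

/-- **The class function.**

Proof.  Fix a solution `x` (`Amb.roots`, `A.n ≥ 1`), `δx` its coordinate (`Amb.sol`), and let `D` be the
finite set of the solutions related to `x`.  Let `F` be the field of the `v ∈ E` with `δw v = δx v` for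
all `w ∈ D` (`δw X = w`).  `elt A ∈ F`.  The polynomial `∏ w ∈ D, (T - w)` over `L` has coefficients fixed by
all automorphisms fixing `x` (such an automorphism fixes `t = A(x)` and maps `D` to `D`), so it is the
image under `δx` of a monic polynomial `N ∈ E[T]` of degree `card D` (`Amb.fixed`), `N(X) = 0`.  The
coefficients of `N` lie in `F`: for `w ∈ D` let `τ` be an automorphism with `τ t = t`, `τ x = w`
(`Amb.trans`); `τ D = D` because `w` is related to `x`, so `δw (N.coeff i) = τ (δx (N.coeff i))` is the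
coefficient of the same product.  By `Luroth_finrank_le`, `[E : F] ≤ card D`.  By Lueroth
(`Luroth_moebius`, `Luroth_exists_B`, see `luroth_step` in WS/Luroth.lean) `F = ℂ(elt C)` with
`Q_C` of smaller degree than `P_C`, made monic (see `Clique_scale`), `C.n = [E : F] ≤ card D` and
`A = B ∘ C`.  All `w ∈ D` satisfy `Sm C x w`, and there are exactly `C.n` elements `w` with `Sm C x w`
(`Amb.cls`), so `D` is the set of these elements.  For arbitrary solutions `z`, `z'` choose `τ` with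
`τ x = z` (`Amb.trans`) and apply `τ⁻¹`. -/
theorem exists_class {A : RF} (hn : 1 ≤ A.n) (hm : A.P.Monic)
    (hlt : A.Q.natDegree < A.P.natDegree) {δ : E →ₐ[ℂ] L} (hL : Amb δ) {R : L → L → Prop}
    (hr : ∀ z, Sol A (δ RatFunc.X) z → R z z)
    (hs : ∀ z w, Sol A (δ RatFunc.X) z → Sol A (δ RatFunc.X) w → R z w → R w z)
    (ht : ∀ z w v, Sol A (δ RatFunc.X) z → Sol A (δ RatFunc.X) w → Sol A (δ RatFunc.X) v →
      R z w → R w v → R z v)
    (hmap : ∀ (τ : L ≃ₐ[ℂ] L) (z w), τ (δ RatFunc.X) = δ RatFunc.X → Sol A (δ RatFunc.X) z →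
      Sol A (δ RatFunc.X) w → R z w → R (τ z) (τ w)) :
    ∃ B C : RF, A.IsComp B C ∧ C.P.Monic ∧ C.Q.natDegree < C.P.natDegree ∧
      ∀ z z', Sol A (δ RatFunc.X) z → Sol A (δ RatFunc.X) z' → (R z z' ↔ Sm C z z') := by
  classical
  obtain ⟨s, hs1, hs2, -⟩ := hL.roots hn hm hlt
  obtain ⟨x, hx⟩ : s.Nonempty := by
    rw [← Finset.card_pos, hs2]
    exact hn
  have hxs : Sol A (δ RatFunc.X) x := (hs1 x).1 hx
  obtain ⟨δx, hδx, hδxA, hLx⟩ := hL.sol hn hxs
  obtain ⟨D, hD⟩ : ∃ D : Finset L, D = s.filter (fun w => R x w) := ⟨_, rfl⟩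
  have hDmem : ∀ w, w ∈ D ↔ Sol A (δ RatFunc.X) w ∧ R x w := by
    intro w
    rw [hD, Finset.mem_filter, hs1]
  have hxD : x ∈ D := (hDmem x).2 ⟨hxs, hr x hxs⟩
  -- automorphisms permuting `D`
  have hperm : ∀ τ : L ≃ₐ[ℂ] L, τ (δ RatFunc.X) = δ RatFunc.X → τ x ∈ D →
      (∏ w ∈ D, (X - Polynomial.C w)).map (τ : L →+* L) = ∏ w ∈ D, (X - Polynomial.C w) := by
    intro τ hτ hτx
    have himg : D.image (fun w => τ w) = D := by
      apply Finset.eq_of_subset_of_card_le
      · intro w hw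
        obtain ⟨v, hv, rfl⟩ := Finset.mem_image.1 hw
        obtain ⟨hv1, hv2⟩ := (hDmem v).1 hv
        obtain ⟨hx1, hx2⟩ := (hDmem _).1 hτx
        have h1 : Sol A (δ RatFunc.X) (τ v) := hv1.map τ hτ
        exact (hDmem _).2 ⟨h1, ht x (τ x) (τ v) hxs hx1 h1 hx2 (hmap τ x v hτ hxs hv1 hv2)⟩
      · rw [Finset.card_image_of_injective _ τ.injective]
    rw [Polynomial.map_prod]
    conv_rhs => rw [← himg]
    rw [Finset.prod_image (fun a _ b _ h => τ.injective h)]
    apply Finset.prod_congr rfl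
    intro w _
    rw [Polynomial.map_sub, map_X, map_C]
    rfl
  have hcompx : ∀ τ : L ≃ₐ[ℂ] L, τ x = x → τ (δ RatFunc.X) = δ RatFunc.X := by
    intro τ hτ
    have h1 : (τ : L →ₐ[ℂ] L).comp δx = δx := by
      apply coord_ext
      rw [AlgHom.comp_apply, hδx]
      exact hτ
    have h2 : (τ : L →ₐ[ℂ] L).comp δx (elt A) = δx (elt A) := by rw [h1]
    rw [AlgHom.comp_apply, hδxA] at h2
    exact h2
  obtain ⟨N0, hN0⟩ : ∃ N0 : L[X], N0 = ∏ w ∈ D, (X - Polynomial.C w) := ⟨_, rfl⟩
  rw [← hN0] at hperm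
  have hlift : ∀ i, ∃ v : E, δx v = N0.coeff i := by
    intro i
    apply hLx.fixed
    intro τ hτ
    rw [hδx] at hτ
    have h1 := hperm τ (hcompx τ hτ) (by rw [hτ]; exact hxD)
    have h2 := congrArg (fun p => p.coeff i) h1
    simp only [coeff_map] at h2
    exact h2
  obtain ⟨N, hN⟩ : ∃ N : E[X], N.map δx.toRingHom = N0 := by
    have h2 : N0 ∈ Polynomial.lifts δx.toRingHom := by
      rw [Polynomial.lifts_iff_coeff_lifts]
      intro i
      obtain ⟨v, hv⟩ := hlift i
      exact ⟨v, hv⟩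
    exact (Polynomial.mem_lifts N0).1 h2
  have hinj : Function.Injective δx.toRingHom := coord_inj δx
  have hN0m : N0.Monic := by
    rw [hN0]
    exact monic_prod_of_monic _ _ fun w _ => monic_X_sub_C w
  have hNm : N.Monic := by
    rw [← hN] at hN0m
    exact Polynomial.monic_of_injective hinj hN0m
  have hNd : N.natDegree = D.card := by
    rw [← natDegree_map_eq_of_injective hinj N, hN, hN0,
      natDegree_finsetProd_X_sub_C_eq_card D]
  have hNr : N.eval (RatFunc.X : E) = 0 := by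
    apply hinj
    rw [map_zero, ← eval_map_apply, hN, hN0, eval_prod]
    apply Finset.prod_eq_zero hxD
    rw [eval_sub, eval_X, eval_C]
    exact sub_eq_zero.2 hδx
  obtain ⟨F, hFdef⟩ : ∃ F : IntermediateField ℂ E,
      F = ClassF_F {δw : E →ₐ[ℂ] L | δw RatFunc.X ∈ D} δx := ⟨_, rfl⟩
  have hAF : elt A ∈ F := by
    rw [hFdef, ClassF_mem]
    intro δw hw
    obtain ⟨δ', h1, h2, -⟩ := hL.sol hn ((hDmem _).1 hw).1
    rw [coord_ext (φ := δw) (ψ := δ') h1.symm, h2, hδxA]
  have hNc : ∀ i, N.coeff i ∈ F := by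
    intro i
    rw [hFdef, ClassF_mem]
    intro δw hw
    obtain ⟨τ, hτ1, hτ2⟩ := hL.trans hn hxs ((hDmem _).1 hw).1
    have h1 : (τ : L →ₐ[ℂ] L).comp δx = δw := by
      apply coord_ext
      rw [AlgHom.comp_apply, hδx]
      exact hτ2
    have h2 := hperm τ hτ1 (by rw [hτ2]; exact hw)
    have h3 := congrArg (fun p => p.coeff i) h2
    simp only [coeff_map] at h3
    have h4 : δx (N.coeff i) = N0.coeff i := by
      rw [← hN, coeff_map]
      rfl
    rw [← h1, AlgHom.comp_apply, h4]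
    exact h3
  have hle := Luroth_finrank_le (ClassF_bot hn hAF) hNm hNr hNc
  obtain ⟨u, hu, hgen, hfin⟩ := ClassF_gen F (ClassF_bot hn hAF)
  obtain ⟨C', hC1, hC2, hC3, hC4⟩ := Luroth_moebius u hu
  obtain ⟨C, hCe, hCm, hClt, hCn⟩ := Clique_scale C' hC1
  have hCn1 : 1 ≤ C.n := by
    have h1 : C.P.natDegree ≤ C.n := le_max_left _ _
    omega
  have hCF : elt C ∈ F := by
    rw [hCe, hgen]
    exact hC3
  have hAu : elt A ∈ IntermediateField.adjoin ℂ {elt C} := by
    have h1 : elt A ∈ IntermediateField.adjoin ℂ {u} := by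
      rw [← hgen]
      exact hAF
    rw [hCe]
    exact (IntermediateField.adjoin_simple_le_iff.2 hC4) h1
  obtain ⟨B, hB⟩ := Luroth_exists_B (elt_nonConst C hCn1) hAu
  have hcomp : A.IsComp B C := by
    show elt A = B.app (elt C)
    exact hB.symm
  have hCD : C.n ≤ D.card := by
    rw [hCn, hC2, ← hfin]
    rw [hNd] at hle
    exact hle
  obtain ⟨s', hs'1, hs'2, hs'3⟩ := hL.cls hn hcomp hCm hClt hxs
  have hDs : D = s' := by
    apply Finset.eq_of_subset_of_card_le
    · intro w hw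
      rw [hs'1]
      obtain ⟨δw, h1, h2, -⟩ := hL.sol hn ((hDmem _).1 hw).1
      have h3 : δw (elt C) = δx (elt C) := by
        rw [hFdef, ClassF_mem] at hCF
        apply hCF
        change δw RatFunc.X ∈ D
        rw [h1]
        exact hw
      have h4 := (ClassF_sm hCn1 δx δw).2 h3
      rwa [hδx, h1] at h4
    · rw [hs'2]
      exact hCD
  have hbase : ∀ w, Sol A (δ RatFunc.X) w → (R x w ↔ Sm C x w) := by
    intro w hw
    rw [← hs'1, ← hDs, hDmem]
    exact ⟨fun h => ⟨hw, h⟩, fun h => h.2⟩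
  refine ⟨B, C, hcomp, hCm, hClt, ?_⟩
  intro z z' hz hz'
  obtain ⟨τ, hτ1, hτ2⟩ := hL.trans hn hxs hz
  have hσ1 : τ.symm (δ RatFunc.X) = δ RatFunc.X := by
    rw [AlgEquiv.symm_apply_eq]
    exact hτ1.symm
  have hσ2 : τ.symm z = x := by
    rw [AlgEquiv.symm_apply_eq]
    exact hτ2.symm
  have hσz' : Sol A (δ RatFunc.X) (τ.symm z') := hz'.map τ.symm hσ1
  have hb := hbase _ hσz'
  constructor
  · intro h
    have h1 := hmap τ.symm z z' hσ1 hz hz' h
    rw [hσ2] at h1
    have h2 := (hb.1 h1).map τ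
    rwa [hτ2, AlgEquiv.apply_symm_apply] at h2
  · intro h
    have h1 := h.map τ.symm
    rw [hσ2] at h1
    have h2 := hmap τ x (τ.symm z') hτ1 hxs hσz' (hb.2 h1)
    rwa [hτ2, AlgEquiv.apply_symm_apply] at h2

end WildH
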