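import Pool.Agent.helper21.HD.Cyc

/-! Functions of prime degree with a monodromy group in which only the identity has two fixed
points. -/

namespace WildH

open Polynomial WildRat WildS WildV

variable {L : Type} [Field L] [Algebra ℂ L]

/-- The minimal period of a cycle. -/
theorem Frob_period {α : Type} [DecidableEq α] (f : α → α) (S : Finset α) {z : α}
    (hmap : ∀ w ∈ S, f w ∈ S) (htr : ∀ w ∈ S, ∀ w' ∈ S, ∃ k : ℕ, f^[k] w = w') (hz : z ∈ S) :
    Function.minimalPeriod f z = S.card := by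
  have hper : z ∈ Function.periodicPts f := by
    obtain ⟨k, hk⟩ := htr (f z) (hmap z hz) z hz
    exact Function.mk_mem_periodicPts (n := k + 1) (Nat.succ_pos k) hk
  have hiter : ∀ k, f^[k] z ∈ S := by
    intro k
    induction k with
    | zero => exact hz
    | succ k ih =>
      rw [Function.iterate_succ_apply']
      exact hmap _ ih
  have hS : S = (Finset.range (Function.minimalPeriod f z)).image (fun k => f^[k] z) := by
    ext w
    rw [Finset.mem_image]
    constructor
    · intro hw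
      obtain ⟨k, hk⟩ := htr z hz w hw
      refine ⟨k % Function.minimalPeriod f z, Finset.mem_range.2
        (Nat.mod_lt _ (Function.minimalPeriod_pos_of_mem_periodicPts hper)), ?_⟩
      rw [Function.iterate_mod_minimalPeriod_eq, hk]
    · rintro ⟨k, _, rfl⟩
      exact hiter k
  conv_rhs => rw [hS]
  rw [Finset.card_image_of_injOn, Finset.card_range]
  intro i hi j hj hij
  rw [Finset.coe_range, Set.mem_Iio] at hi hj
  exact (Function.iterate_injOn_Iio_minimalPeriod (f := f) (x := z)) hi hj hij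

theorem Frob_pow_iter {L : Type} [Field L] [Algebra ℂ L] (σ : L ≃ₐ[ℂ] L) (k : ℕ) (z : L) :
    (σ ^ k) z = (fun w => σ w)^[k] z := by
  induction k with
  | zero => rfl
  | succ k ih =>
    rw [Function.iterate_succ_apply', ← ih, pow_succ', AlgEquiv.mul_apply]

theorem Frob_fix {L : Type} [Field L] [Algebra ℂ L] (σ : L ≃ₐ[ℂ] L) (k : ℕ) {z : L}
    (h : σ z = z) : (σ ^ k) z = z := by
  induction k with
  | zero => rfl
  | succ k ih => rw [pow_succ', AlgEquiv.mul_apply, ih, h]

theorem Frob_wt (C : RF) (p : ℂ) : wt (pasF C p) = ∑ a ∈ fC C p, ∑ b ∈ fC C p,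
    (C.e (some a) - Nat.gcd (C.e (some a)) (C.e (some b))) := by
  unfold wt pasF
  simp only [Multiset.map_map]
  rfl

theorem Frob_pos {C : RF} (hn : 1 ≤ C.n) {p a : ℂ} (ha : a ∈ fC C p) : 1 ≤ C.e (some a) := by
  have hF : C.F (some p) ≠ 0 := C.F_ne_zero hn _
  rw [e_fC hn ha]
  unfold fC at ha
  rw [Multiset.mem_toFinset] at ha
  exact (rootMultiplicity_pos hF).2 ((mem_roots hF).1 ha)

/-- The weight of one fibre.

Proof.  Take `O` from `exists_O` and `σ` from `exists_sigma` for `C` and the coordinate `δ`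
(`δ X = ω`).  On the `C.e a` solutions near `a` (`near_count`) `σ` is a cycle of length `C.e a`.  If
`C.e a ≥ 2`, then `σ ^ (C.e a)` fixes at least two solutions, so it fixes all, and `C.e b ∣ C.e a` for all
`b` over `p`.  So all indices `≥ 2` over `p` are equal to one number `m`.  If at least two indices are equal
to one, then `σ` fixes two solutions, hence all, and all indices are one.  So the partition of `C.n`
over `p` is `[1, .., 1]` (weight `0`), or `[1, m, .., m]` with `k` parts `m` (weight `k (m - 1) =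
C.n - (k + 1)`), or `[m, .., m]` with `k` parts, `k m = C.n` prime, `m ≥ 2`, so `k = 1` and the weight is
zero.  In all cases `wt ≤ C.n - card (fC C p)`. -/
theorem frob_fibre {C : RF} (hp : C.n.Prime) (hm : C.P.Monic)
    (hlt : C.Q.natDegree < C.P.natDegree) {δ : E →ₐ[ℂ] L} (hL : Amb δ)
    (hF : ∀ τ : L ≃ₐ[ℂ] L, τ (δ RatFunc.X) = δ RatFunc.X → ∀ a b, Sol C (δ RatFunc.X) a →
      Sol C (δ RatFunc.X) b → a ≠ b → τ a = a → τ b = b → ∀ w, Sol C (δ RatFunc.X) w → τ w = w)
    (p : ℂ) : (wt (pasF C p) : ℤ) ≤ C.n - (fC C p).card := by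
  classical
  have hn : 1 ≤ C.n := hp.one_lt.le
  obtain ⟨O, hO, ht⟩ := exists_O (δ := δ) p
  obtain ⟨σ, hσt, hσn, hσtr⟩ := exists_sigma hn hm hlt hL O hO ht
  obtain ⟨hnear, hcnt⟩ := near_count hn hm hlt hL O hO ht
  have hfix : ∀ k : ℕ, (σ ^ k) (δ RatFunc.X) = δ RatFunc.X := fun k => Frob_fix σ k hσt
  -- the minimal period of a solution near `a`
  have hper : ∀ a ∈ fC C p, ∀ z, Sol C (δ RatFunc.X) z → Near O z a →
      Function.minimalPeriod (fun w => σ w) z = C.e (some a) := by
    intro a ha z hz hza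
    obtain ⟨s, hs, hc⟩ := hcnt a ha
    rw [← hc]
    apply Frob_period (fun w => σ w) s
    · intro w hw
      have hw' := (hs w).1 hw
      exact (hs _).2 ⟨hw'.1.map σ hσt, hσn w hw'.1 a hw'.2⟩
    · intro w hw w' hw'
      have h1 := (hs w).1 hw
      have h2 := (hs w').1 hw'
      obtain ⟨k, hk⟩ := hσtr w w' h1.1 h2.1 a h1.2 h2.2
      exact ⟨k, by rw [← Frob_pow_iter]; exact hk⟩
    · exact (hs z).2 ⟨hz, hza⟩
  have hex : ∀ a ∈ fC C p, ∃ z, Sol C (δ RatFunc.X) z ∧ Near O z a := by
    intro a ha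
    obtain ⟨s, hs, hc⟩ := hcnt a ha
    have h1 := Frob_pos hn ha
    rw [← hc] at h1
    obtain ⟨z, hz⟩ := Finset.card_pos.1 h1
    exact ⟨z, (hs z).1 hz⟩
  -- divisibility
  have hdiv : ∀ a ∈ fC C p, 2 ≤ C.e (some a) → ∀ b ∈ fC C p, C.e (some b) ∣ C.e (some a) := by
    intro a ha h2 b hb
    obtain ⟨s, hs, hc⟩ := hcnt a ha
    rw [← hc] at h2
    obtain ⟨z, hz, z', hz', hne⟩ := Finset.one_lt_card.1 h2
    have h3 := (hs z).1 hz
    have h4 := (hs z').1 hz'
    have h5 : ∀ w, Sol C (δ RatFunc.X) w → Near O w a → (σ ^ C.e (some a)) w = w := by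
      intro w hw hwa
      rw [Frob_pow_iter, ← hper a ha w hw hwa]
      exact Function.iterate_minimalPeriod
    obtain ⟨w, hw, hwb⟩ := hex b hb
    have h6 := hF (σ ^ C.e (some a)) (hfix _) z z' h3.1 h4.1 hne (h5 z h3.1 h3.2)
      (h5 z' h4.1 h4.2) w hw
    rw [Frob_pow_iter] at h6
    rw [← hper b hb w hw hwb]
    exact Function.IsPeriodicPt.minimalPeriod_dvd h6
  -- two points of index one
  have hone : ∀ a ∈ fC C p, ∀ b ∈ fC C p, a ≠ b → C.e (some a) = 1 → C.e (some b) = 1 →
      ∀ c ∈ fC C p, C.e (some c) = 1 := by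
    intro a ha b hb hab h1 h2 c hc
    obtain ⟨z, hz, hza⟩ := hex a ha
    obtain ⟨w, hw, hwb⟩ := hex b hb
    have hzw : z ≠ w := by
      rintro rfl
      obtain ⟨a0, _, _, h3⟩ := hnear z hz
      exact hab ((h3 a hza).trans (h3 b hwb).symm)
    have h3 : σ z = z := by
      have h4 := Function.iterate_minimalPeriod (f := fun w => σ w) (x := z)
      rw [hper a ha z hz hza, h1] at h4
      exact h4
    have h4 : σ w = w := by
      have h5 := Function.iterate_minimalPeriod (f := fun w => σ w) (x := w)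
      rw [hper b hb w hw hwb, h2] at h5
      exact h5
    obtain ⟨y, hy, hyc⟩ := hex c hc
    have h5 := hF σ hσt z w hz hw hzw h3 h4 y hy
    have h6 : Function.minimalPeriod (fun w => σ w) y ∣ 1 :=
      Function.IsPeriodicPt.minimalPeriod_dvd (n := 1) h5
    rw [hper c hc y hy hyc] at h6
    exact Nat.dvd_one.1 h6
  -- the sum for one point
  have hrow : ∀ a ∈ fC C p, ∑ b ∈ fC C p,
      (C.e (some a) - Nat.gcd (C.e (some a)) (C.e (some b))) ≤ C.e (some a) - 1 := by
    intro a ha
    by_cases h2 : 2 ≤ C.e (some a)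
    · have h3 : ∑ b ∈ fC C p, (C.e (some a) - Nat.gcd (C.e (some a)) (C.e (some b))) =
          ∑ b ∈ (fC C p).filter (fun b => C.e (some b) = 1),
            (C.e (some a) - Nat.gcd (C.e (some a)) (C.e (some b))) := by
        symm
        apply Finset.sum_filter_of_ne
        intro b hb hne
        by_contra hb1
        have hb2 := Frob_pos hn hb
        have h4 := hdiv b hb (by omega) a ha
        apply hne
        rw [Nat.gcd_eq_left h4, Nat.sub_self]
      have h4 : ((fC C p).filter (fun b => C.e (some b) = 1)).card ≤ 1 := by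
        rw [Finset.card_le_one]
        intro b hb b' hb'
        rw [Finset.mem_filter] at hb hb'
        by_contra hne
        have h5 := hone b hb.1 b' hb'.1 hne hb.2 hb'.2 a ha
        omega
      rw [h3]
      calc ∑ b ∈ (fC C p).filter (fun b => C.e (some b) = 1),
            (C.e (some a) - Nat.gcd (C.e (some a)) (C.e (some b)))
          ≤ ∑ b ∈ (fC C p).filter (fun b => C.e (some b) = 1), (C.e (some a) - 1) := by
            apply Finset.sum_le_sum
            intro b hb
            rw [Finset.mem_filter] at hb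
            rw [hb.2, Nat.gcd_one_right]
        _ = ((fC C p).filter (fun b => C.e (some b) = 1)).card * (C.e (some a) - 1) := by
            rw [Finset.sum_const, smul_eq_mul]
        _ ≤ 1 * (C.e (some a) - 1) := Nat.mul_le_mul_right _ h4
        _ = C.e (some a) - 1 := one_mul _
    · have h3 : C.e (some a) = 1 := by
        have := Frob_pos hn ha
        omega
      rw [h3]
      simp
  rw [Frob_wt, ← sum_fC hn hlt p]
  have h7 : ((∑ a ∈ fC C p, ∑ b ∈ fC C p,
      (C.e (some a) - Nat.gcd (C.e (some a)) (C.e (some b))) : ℕ) : ℤ) ≤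
      ((∑ a ∈ fC C p, (C.e (some a) - 1) : ℕ) : ℤ) := by
    exact_mod_cast Finset.sum_le_sum hrow
  have h8 : ((∑ a ∈ fC C p, (C.e (some a) - 1) : ℕ) : ℤ) =
      ((∑ a ∈ fC C p, C.e (some a) : ℕ) : ℤ) - (fC C p).card := by
    rw [Nat.cast_sum, Nat.cast_sum, Finset.card_eq_sum_ones, Nat.cast_sum,
      ← Finset.sum_sub_distrib]
    apply Finset.sum_congr rfl
    intro a ha
    rw [Nat.cast_sub (Frob_pos hn ha)]
  rw [← h8]
  exact h7

/-- Proof.  `frob_fibre`, and `rh_fin` (WV/CDefs.lean) for a finite set `R ⊇ T` containing all finite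
critical values: `∑ p ∈ T, wt ≤ ∑ p ∈ T, (C.n - card) ≤ ∑ p ∈ R, (C.n - card) = 2 C.n - 2` (the terms are
nonnegative, `card (fC C p) ≤ C.n`). -/
theorem frob_TWf {C : RF} (hp : C.n.Prime) (hm : C.P.Monic)
    (hlt : C.Q.natDegree < C.P.natDegree) (hun : ∀ z, C.val z = none → C.e z = 1)
    {δ : E →ₐ[ℂ] L} (hL : Amb δ)
    (hF : ∀ τ : L ≃ₐ[ℂ] L, τ (δ RatFunc.X) = δ RatFunc.X → ∀ a b, Sol C (δ RatFunc.X) a →
      Sol C (δ RatFunc.X) b → a ≠ b → τ a = a → τ b = b → ∀ w, Sol C (δ RatFunc.X) w → τ w = w) :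
    TWf C := by
  classical
  have hn : 1 ≤ C.n := hp.one_lt.le
  intro T
  set R : Finset ℂ := T ∪ ((C.ramified_finite hn).toFinset.image C.val).eraseNone with hR
  have h1 := rh_fin hn hlt hun R (by
    intro a p hv he
    rw [hR, Finset.mem_union, Finset.mem_eraseNone, Finset.mem_image]
    right
    exact ⟨some a, by simpa using he, hv⟩)
  rw [← h1]
  calc ∑ p ∈ T, (wt (pasF C p) : ℤ) ≤ ∑ p ∈ T, ((C.n : ℤ) - (fC C p).card) :=
        Finset.sum_le_sum fun p _ => frob_fibre hp hm hlt hL hF p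
    _ ≤ ∑ p ∈ R, ((C.n : ℤ) - (fC C p).card) := by
        apply Finset.sum_le_sum_of_subset_of_nonneg Finset.subset_union_left
        intro p _ _
        have h2 : (fC C p).card ≤ C.n := by
          rw [← sum_fC hn hlt p, Finset.card_eq_sum_ones]
          exact Finset.sum_le_sum fun a ha => Frob_pos hn ha
        have h3 : ((fC C p).card : ℤ) ≤ C.n := by exact_mod_cast h2
        linarith

end WildH
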