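import Pool.Agent.helper21.HD.Gal

/-! Irreducibility from double transitivity. author: helper11 -/

namespace WildH

open Polynomial WildRat WildS WildV

variable {L : Type} [Field L] [Algebra ℂ L]

/-- Proof.  `GG C = (X - C RatFunc.X) * mu0` with `mu0` monic of degree `C.n - 1 ≥ 1` (`GG_root`, `StB_GG_monic`
in WV/StB.lean, `GG_natDegree`).  The image of `GG C` under `δz` is separable and splits in `L`; its roots
are the `w` with `Sm C z w` (`z = δz X`; `StB_root`), so the roots of the image of `mu0` are the `w ≠ z`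
with `Sm C z w`.  Let `F` be a monic irreducible factor of `mu0` and `v` a root of its image (`L` is
algebraically closed).  For any other root `v'` of the image of `mu0` there is `g` fixing `z`, hence
`g ∘ δz = δz` (`coord_ext`), with `g v = v'`, so `v'` is a root of the image of `F`.  So the image of
`mu0`, being separable, divides the image of `F`, the degrees are equal and `mu0 = F`. -/
theorem irr_of_two {C : RF} (hn : 2 ≤ C.n) (hm : C.P.Monic) (hlt : C.Q.natDegree < C.P.natDegree)
    {δz : E →ₐ[ℂ] L} (hL : Amb δz)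
    (h : ∀ v v', Sm C (δz RatFunc.X) v → v ≠ δz RatFunc.X → Sm C (δz RatFunc.X) v' →
      v' ≠ δz RatFunc.X → ∃ g : L ≃ₐ[ℂ] L, g (δz RatFunc.X) = δz RatFunc.X ∧ g v = v') :
    DTm C := by
  have := hL.closed
  have hn1 : 1 ≤ C.n := by omega
  have hmon : (GG C).Monic := StB_GG_monic hm hlt
  have hroot : (GG C).IsRoot (RatFunc.X : E) := GG_root C hn1
  obtain ⟨mu0, hmu⟩ := dvd_iff_isRoot.2 hroot
  have hm0 : mu0.Monic := by
    have h1 := hmon
    rw [hmu] at h1
    exact (monic_X_sub_C _).of_mul_monic_left h1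
  have hdeg : 1 ≤ mu0.natDegree := by
    have h1 := GG_natDegree C hn1
    rw [hmu, (monic_X_sub_C _).natDegree_mul hm0, natDegree_X_sub_C] at h1
    omega
  have hnu : ¬ IsUnit mu0 := fun hu => by
    have h1 := natDegree_eq_zero_of_isUnit hu
    omega
  have hmap : (GG C).map δz.toRingHom = (X - Polynomial.C (δz RatFunc.X)) * mu0.map δz.toRingHom := by
    rw [hmu, Polynomial.map_mul, Polynomial.map_sub, map_X, map_C]
    rfl
  have hsep : ((X - Polynomial.C (δz RatFunc.X)) * mu0.map δz.toRingHom).Separable := by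
    rw [← hmap]
    exact (GG_separable C hn1).map
  have hsep0 : (mu0.map δz.toRingHom).Separable := hsep.of_mul_right
  -- the roots of the image of `mu0`
  have hroots : ∀ w, (mu0.map δz.toRingHom).IsRoot w → w ≠ δz RatFunc.X ∧
      Sm C (δz RatFunc.X) w := by
    intro w hw
    constructor
    · rintro rfl
      obtain ⟨a, b, hab⟩ := hsep.isCoprime
      have h1 := congrArg (eval (δz RatFunc.X)) hab
      rw [eval_add, eval_mul, eval_mul, hw.eq_zero] at h1
      simp at h1
    · have h1 : ((GG C).map δz.toRingHom).IsRoot w := by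
        rw [hmap, IsRoot.def, eval_mul, hw.eq_zero, mul_zero]
      rw [StB_root] at h1
      have h2 := StB_self hn1 δz
      unfold Sm
      rw [h1, h2]
      ring
  obtain ⟨F, hF, hFirr, hFdvd⟩ := exists_monic_irreducible_factor mu0 hnu
  have hFdeg : (F.map δz.toRingHom).degree ≠ 0 := by
    rw [degree_map]
    exact (degree_pos_of_irreducible hFirr).ne'
  obtain ⟨v, hv⟩ := IsAlgClosed.exists_root _ hFdeg
  have hvm : (mu0.map δz.toRingHom).IsRoot v := hv.dvd (Polynomial.map_dvd _ hFdvd)
  have key : ∀ w, (mu0.map δz.toRingHom).IsRoot w → (F.map δz.toRingHom).IsRoot w := by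
    intro w hw
    obtain ⟨g, hgz, hgv⟩ := h v w (hroots v hvm).2 (hroots v hvm).1 (hroots w hw).2 (hroots w hw).1
    have h1 : (g : L →ₐ[ℂ] L).comp δz = δz := coord_ext hgz
    have h2 : ((F.map δz.toRingHom).map (g : L →ₐ[ℂ] L).toRingHom).IsRoot
        ((g : L →ₐ[ℂ] L).toRingHom v) := hv.map
    rw [Polynomial.map_map] at h2
    have h3 : (g : L →ₐ[ℂ] L).toRingHom.comp δz.toRingHom = δz.toRingHom := by
      ext u
      exact congrArg (fun θ : E →ₐ[ℂ] L => θ u) h1
    rw [h3] at h2
    have h4 : (g : L →ₐ[ℂ] L).toRingHom v = w := hgv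
    rwa [h4] at h2
  have hdvd : mu0 ∣ F := by
    rw [← Polynomial.map_dvd_map' δz.toRingHom]
    have hs : (mu0.map δz.toRingHom).Splits := IsAlgClosed.splits _
    have h1 := hs.eq_prod_roots_of_monic (hm0.map _)
    have hF0 : F.map δz.toRingHom ≠ 0 := (hF.map _).ne_zero
    rw [h1, Multiset.prod_X_sub_C_dvd_iff_le_roots hF0, Multiset.le_iff_subset (nodup_roots hsep0)]
    intro w hw
    rw [mem_roots hF0]
    exact key w (mem_roots'.1 hw).2
  have he : mu0 = F := eq_of_monic_of_associated hm0 hF (associated_of_dvd_dvd hdvd hFdvd)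
  exact ⟨mu0, he ▸ hFirr, hm0, hmu⟩

end WildH
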