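import Pool.Agent.helper21.HD.Act
import Pool.Agent.helper21.HD.ClassF
import Pool.Agent.helper21.HD.Irr
import Pool.Agent.helper21.HD.Frob

/-! Existence of the class data (author: helper59). -/

namespace WildH

open Polynomial WildRat WildS WildV

variable {K : Type} [Field K] [Algebra ℂ K]

/-- Facts about a composition of normalised functions.

Proof.  Like `Cl.facts` in WV/CDefs.lean, without the point `q`: `comp_facts`; `C(∞) = ∞`, `A(∞) = ∞`, so
`B(∞) = ∞`; `A.e = B.e * C.e = 1` over infinity. -/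
theorem comp_norm {A B C : RF} (hn : 1 ≤ A.n) (hltA : A.Q.natDegree < A.P.natDegree)
    (hun : ∀ z : P1, A.val z = none → A.e z = 1) (hc : A.IsComp B C)
    (hlt : C.Q.natDegree < C.P.natDegree) :
    1 ≤ C.n ∧ 1 ≤ B.n ∧ A.n = B.n * C.n ∧ (∀ z, A.val z = B.val (C.val z)) ∧
      (∀ z, A.e z = B.e (C.val z) * C.e z) ∧ B.Q.natDegree < B.P.natDegree ∧
      (∀ z, B.val z = none → B.e z = 1) ∧ (∀ z, C.val z = none → C.e z = 1) := by
  have hC : 1 ≤ C.n := by
    have h2 : C.P.natDegree ≤ C.n := le_max_left _ _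
    omega
  obtain ⟨hB, hmul, hval, he⟩ := comp_facts hc hn hC
  have hA0 : A.val none = none := Quad_val_none A hltA
  have hC0 : C.val none = none := Quad_val_none C hlt
  have hB0 : B.val none = none := by
    have h1 := hval none
    rw [hA0, hC0] at h1
    exact h1.symm
  have hBlt : B.Q.natDegree < B.P.natDegree := by
    by_contra hge
    push Not at hge
    have hBn : B.n = B.Q.natDegree := max_eq_right hge
    have h1 : B.Q.coeff B.n ≠ 0 := by
      rw [hBn]
      exact leadingCoeff_ne_zero.2 (B.Q_ne_zero hB)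
    have h2 : B.val none = some (B.P.coeff B.n / B.Q.coeff B.n) := if_neg h1
    rw [hB0] at h2
    exact absurd h2 (by simp)
  refine ⟨hC, hB, hmul, hval, he, hBlt, ?_, ?_⟩
  · intro z hz
    obtain ⟨w, hw⟩ := CDefs_surj C hC z
    have h1 : A.val w = none := by rw [hval w, hw, hz]
    have h2 := he w
    rw [hun w h1, hw] at h2
    exact Nat.eq_one_of_mul_eq_one_right h2.symm
  · intro z hz
    have h1 : A.val z = none := by rw [hval z, hz, hB0]
    have h2 := he z
    rw [hun z h1] at h2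
    exact Nat.eq_one_of_mul_eq_one_left h2.symm

/-- A valuation ring of the algebraic closure over a place: if `P ∈ fib φ q`, `P ∈ fib ψ q`, then there is
`O` with `φ X`, `ψ X` near `q` and `t = φ (elt A)` near `c`.

Proof.  `Transp_extend` (WS/Transp.lean) for `P`; the elements `φ X - q`, `ψ X - q` have positive order at
`P`, and so has `φ (elt A) - c` (`ord_coord`, `Pair_ord`; or `Cnt_ord` in WV/Cnt.lean). -/
theorem exists_O_place {A : RF} {c q : ℂ} {l : ℕ} (hA : NormL A c q l) {φ ψ : E →ₐ[ℂ] K} {P : Pl K}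
    (hP : P ∈ fib φ q) (hP' : P ∈ fib ψ q) : ∃ O : ValuationSubring (AlgebraicClosure K),
      (∀ c : ℂ, algebraMap ℂ _ c ∈ O) ∧ Near O (algebraMap K _ (φ (elt A))) c ∧
      Near O (algebraMap K _ (φ RatFunc.X)) q ∧ Near O (algebraMap K _ (ψ RatFunc.X)) q := by
  have hn : 1 ≤ A.n := by
    have h1 := hA.lt
    have h2 : A.P.natDegree ≤ A.n := le_max_left _ _
    omega
  obtain ⟨O, h1, h2⟩ := Transp_extend P
  have hsc : ∀ x : ℂ, algebraMap ℂ (AlgebraicClosure K) x =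
      algebraMap K (AlgebraicClosure K) (algebraMap ℂ K x) :=
    fun x => IsScalarTower.algebraMap_apply ℂ K (AlgebraicClosure K) x
  have hnear : ∀ (z : K) (a : ℂ), 0 < P.ord (z - algebraMap ℂ K a) →
      Near O (algebraMap K (AlgebraicClosure K) z) a := by
    intro z a h
    unfold Near
    rw [hsc, ← map_sub]
    exact h2 _ h
  refine ⟨O, fun x => ?_, ?_, hnear _ _ hP, hnear _ _ hP'⟩
  · rw [hsc]
    exact h1 _ (by rw [P.ord_C])
  · apply hnear
    have hq : q ∈ fC A c := (mem_fC' hn).2 ⟨hA.Qne, hA.val⟩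
    rw [← Cnt_ord hn hA.lt hq hP]
    have h3 : 0 < (A.e (some q) : ℤ) := by exact_mod_cast A.one_le_e hn (some q)
    exact mul_pos h3 hP

/-- The `l` solutions near `q` form one cycle and are related. -/
theorem Build_rel {L : Type} [Field L] [Algebra ℂ L] {A : RF} {c q : ℂ} {l : ℕ}
    (hA : NormL A c q l) {δ : E →ₐ[ℂ] L} (hL : Amb δ) {R : L → L → Prop}
    (hR : Cls A l (δ RatFunc.X) R) (O : ValuationSubring L)
    (hO : ∀ c : ℂ, algebraMap ℂ L c ∈ O) (ht : Near O (δ RatFunc.X) c) :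
    ∃ (g : L ≃ₐ[ℂ] L) (r : Finset L), g (δ RatFunc.X) = δ RatFunc.X ∧ r.card = l ∧
      (∀ z, z ∈ r ↔ Sol A (δ RatFunc.X) z ∧ Near O z q) ∧ (∀ z ∈ r, g z ∈ r) ∧
      (∀ z, Sol A (δ RatFunc.X) z → z ∉ r → g z = z) ∧
      (∀ z ∈ r, ∀ w ∈ r, ∃ k : ℕ, (g ^ k) z = w) ∧ ∀ z ∈ r, ∀ w ∈ r, R z w := by
  have hn : 1 ≤ A.n := by
    have h1 := hA.lt
    have h2 : A.P.natDegree ≤ A.n := le_max_left _ _
    omega
  have hq : q ∈ fC A c := (mem_fC' hn).2 ⟨hA.Qne, hA.val⟩
  obtain ⟨r, hr, hrc⟩ := (near_count hn hA.monic hA.lt hL O hO ht).2 q hq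
  rw [e_fC hn hq, hA.mult] at hrc
  obtain ⟨g, hg, h1, h2, h3⟩ := exists_lcyc hA hL O hO ht
  have h4 : ∀ z ∈ r, g z ∈ r := by
    intro z hz
    obtain ⟨h5, h6⟩ := (hr z).1 hz
    exact (hr _).2 ⟨h5.map g hg, h1 z h5 h6⟩
  have h5 : ∀ z, Sol A (δ RatFunc.X) z → z ∉ r → g z = z := by
    intro z hz hzr
    exact h2 z hz fun h6 => hzr ((hr z).2 ⟨hz, h6⟩)
  have h6 : ∀ z ∈ r, ∀ w ∈ r, ∃ k : ℕ, (g ^ k) z = w := by
    intro z hz w hw
    obtain ⟨hz1, hz2⟩ := (hr z).1 hz
    obtain ⟨hw1, hw2⟩ := (hr w).1 hw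
    exact h3 z w hz1 hw1 hz2 hw2
  exact ⟨g, r, hg, hrc, hr, h4, h5, h6,
    hR.cyc g r hg hrc (fun z hz => ((hr z).1 hz).1) h4 h5 h6⟩

/-- `C(u)` is near `C(q)`. -/
theorem Build_near {L : Type} [Field L] [Algebra ℂ L] {C : RF} (O : ValuationSubring L)
    (hO : ∀ c : ℂ, algebraMap ℂ L c ∈ O) {u : L} {q c' : ℂ} (hu : Near O u q)
    (hQ : C.Q.eval q ≠ 0) (hc' : C.P.eval q = c' * C.Q.eval q) :
    Near O (C.app u) c' := by
  have h1 := Transp_eval O hO hu C.Q
  have h2 := Transp_eval O hO hu (C.P - Polynomial.C c' * C.Q)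
  have h3 : (C.P - Polynomial.C c' * C.Q).eval q = 0 := by
    rw [eval_sub, eval_mul, eval_C, hc', sub_self]
  rw [h3, map_zero, sub_zero, map_sub, map_mul, aeval_C] at h2
  have h4 : aeval u C.Q ∉ O.nonunits := by
    intro h
    have h5 := O.nonunits.sub_mem h h1.2
    rw [sub_sub_cancel] at h5
    exact hQ (Transp_const O hO h5)
  have h5 : aeval u C.Q ≠ 0 := by
    intro h
    apply h4
    rw [h]
    exact O.nonunits.zero_mem
  have h6 : (aeval u C.Q)⁻¹ ∈ O := by
    by_contra h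
    apply h4
    rw [O.mem_nonunits_iff]
    rw [← O.valuation_le_one_iff, not_le, map_inv₀] at h
    have h7 : O.valuation (aeval u C.Q) ≠ 0 := (Valuation.ne_zero_iff _).2 h5
    exact (one_lt_inv₀ (zero_lt_iff.2 h7)).1 h
  unfold Near RF.app
  have h7 : aeval u C.P / aeval u C.Q - algebraMap ℂ L c' =
      (aeval u C.P - algebraMap ℂ L c' * aeval u C.Q) * (aeval u C.Q)⁻¹ := by
    field_simp
  rw [h7, O.mem_nonunits_iff, map_mul]
  have h8 := h2.2
  rw [O.mem_nonunits_iff] at h8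
  have h9 := (O.valuation_le_one_iff _).2 h6
  calc O.valuation (aeval u C.P - algebraMap ℂ L c' * aeval u C.Q) *
      O.valuation (aeval u C.Q)⁻¹ ≤
      O.valuation (aeval u C.P - algebraMap ℂ L c' * aeval u C.Q) * 1 :=
        mul_le_mul_right h9 _
    _ < 1 := by rw [mul_one]; exact h8

/-- A coordinate of `L` composed with `X ↦ C(X)` is again ambient. -/
theorem Build_amb {L : Type} [Field L] [Algebra ℂ L] {C : RF} (hC : 1 ≤ C.n)
    {δu : E →ₐ[ℂ] L} (hL : Amb δu) : ∃ δ' : E →ₐ[ℂ] L, δ' RatFunc.X = δu (elt C) ∧ Amb δ' := by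
  obtain ⟨α, hα⟩ := exists_subst (elt_nonConst C hC)
  refine ⟨δu.comp α, ?_, ?_⟩
  · rw [AlgHom.comp_apply, hα]
  · refine ⟨hL.closed, ?_⟩
    have h1 : FinC α := finC_all (AlgHom.id ℂ E) RatK_finC_id α
    have h2 : α.toRingHom.IsIntegral := h1.to_isIntegral
    exact RingHom.IsIntegral.trans _ _ h2 hL.alg

/-- `Sol C (C(u)) w ↔ Sm C u w`. -/
theorem Build_sol {L : Type} [Field L] [Algebra ℂ L] {C : RF} (hC : 1 ≤ C.n)
    (δu : E →ₐ[ℂ] L) (w : L) : Sol C (δu (elt C)) w ↔ Sm C (δu RatFunc.X) w := by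
  have hne : aeval (δu RatFunc.X) C.Q ≠ 0 :=
    (coord_nonConst δu).aeval_ne_zero (C.Q_ne_zero hC)
  unfold Sol Sm
  rw [coord_elt]
  unfold RF.app
  rw [div_mul_eq_mul_div, eq_div_iff hne]
  exact eq_comm

/-- The value of a coordinate of `K` is a solution in the algebraic closure. -/
theorem Build_coord {A : RF} (hn : 1 ≤ A.n) (φ : E →ₐ[ℂ] K) :
    Sol A (algebraMap K (AlgebraicClosure K) (φ (elt A)))
      (algebraMap K (AlgebraicClosure K) (φ RatFunc.X)) := by
  have hne : aeval (φ RatFunc.X) A.Q ≠ 0 :=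
    (coord_nonConst φ).aeval_ne_zero (A.Q_ne_zero hn)
  unfold Sol
  rw [aeval_algebraMap_apply, aeval_algebraMap_apply, ← map_mul, coord_elt]
  unfold RF.app
  rw [div_mul_cancel₀ _ hne]

/-- Related values of coordinates of `K` give equal values of `C`. -/
theorem Build_elt {C : RF} (hC : 1 ≤ C.n) (φ ψ : E →ₐ[ℂ] K)
    (h : Sm C (algebraMap K (AlgebraicClosure K) (φ RatFunc.X))
      (algebraMap K (AlgebraicClosure K) (ψ RatFunc.X))) : φ (elt C) = ψ (elt C) := by
  have hne : aeval (φ RatFunc.X) C.Q ≠ 0 :=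
    (coord_nonConst φ).aeval_ne_zero (C.Q_ne_zero hC)
  have hne' : aeval (ψ RatFunc.X) C.Q ≠ 0 :=
    (coord_nonConst ψ).aeval_ne_zero (C.Q_ne_zero hC)
  unfold Sm at h
  rw [aeval_algebraMap_apply, aeval_algebraMap_apply, aeval_algebraMap_apply,
    aeval_algebraMap_apply, ← map_mul, ← map_mul] at h
  have h1 := (algebraMap K (AlgebraicClosure K)).injective h
  rw [coord_elt, coord_elt]
  unfold RF.app
  rw [div_eq_div_iff hne hne']
  exact h1

/-- **Existence of the class data.**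

Proof.  `L = AlgebraicClosure K`, `t = φ (elt A)`, `δ` from `amb_closure`, `R` from `exists_Cls`, `B`, `C` from
`exists_class`.  `loc`: `Cls.loc` (if `Sm C z z'` and `z` is a solution, so is `z'`, `Amb.cls`).
Take a valuation ring `O` over `c` (`exists_O`) and `g` from `exists_lcyc`; the set `r` of the `l`
solutions near `q` (`near_count`, `A.e q = l`) satisfies the hypotheses of `Cls.cyc`, so it is contained
in one class `s` = the set of the `w` with `Sm C u w` (`u ∈ r`), `card s = C.n` (`Amb.cls`); so `C.n ≥ l ≥ 2`.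
`eq`: let `ω = C(u)`; it is near the number `C(q)` (`u` is near `q`, `C.Q(q) ≠ 0` because
`B(C(q)) = A(q)` is finite, `Transp_eval`); `near_count` for `C` and the coordinate
`δu ∘ (X ↦ elt C)`: the number `C.e q` is the number of the `w` with `Sm C u w` near `q`, these are the
solutions near `q` in the class `s ⊇ r`, so it is `l`.
`uniq`: `exists_O_place`, `exists_lcyc` and `Cls.cyc` for this `O`: `φ X` and `ψ X` are related, so
`Sm C (φ X) (ψ X)` in `L`, hence in `K`, which says `φ (elt C) = ψ (elt C)` (`coord_elt`).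
`alt`: `Cls.two` for the class `s`: in the first case `irr_of_two` gives `DTm C` (take `z = u` and
`a = a' = u`); in the second case `C.n = l` is prime and `frob_TWf` applies with the coordinate
`δu ∘ (X ↦ elt C)`, whose value at `X` is `ω`: an automorphism fixing `ω` fixes
`t = B(ω)`, and `Sol C ω w ↔ Sm C u w`. -/
theorem exists_ClL {A : RF} {c q : ℂ} {l : ℕ} (hA : NormL A c q l) {φ : E →ₐ[ℂ] K}
    (hφ : FinC φ) : ∃ B C : RF, ClL A B C c q l φ := by
  classical
  have hn : 1 ≤ A.n := by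
    have h1 := hA.lt
    have h2 : A.P.natDegree ≤ A.n := le_max_left _ _
    omega
  obtain ⟨δ, hδ, hL⟩ := amb_closure hn hφ
  obtain ⟨R, hR⟩ := exists_Cls hn hA.monic hA.lt hA.prime hL
  obtain ⟨B, C, hcomp, hCm, hClt, hRC⟩ := exists_class hn hA.monic hA.lt hL hR.refl hR.symm
    hR.trans hR.map
  obtain ⟨hC, hB, hmul, hval, he, hBlt, hBun, hCun⟩ :=
    comp_norm hn hA.lt hA.unram hcomp hClt
  -- solutions of the class
  have hcls : ∀ {z w}, Sol A (δ RatFunc.X) z → Sm C z w → Sol A (δ RatFunc.X) w := by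
    intro z w hz hzw
    obtain ⟨s, hs, -, hs3⟩ := Amb.cls hn hcomp hCm hClt hL hz
    exact hs3 w ((hs w).2 hzw)
  obtain ⟨O, hO, ht⟩ := exists_O (δ := δ) c
  obtain ⟨g, r, hg, hrc, hr, hr1, hr2, hr3, hr4⟩ := Build_rel hA hL hR O hO ht
  have hrne : r.Nonempty := by
    rw [← Finset.card_pos, hrc]
    exact hA.prime.pos
  obtain ⟨u, hu⟩ := hrne
  obtain ⟨hu1, hu2⟩ := (hr u).1 hu
  obtain ⟨δu, hδu, hδu2, hLu⟩ := Amb.sol hn hL hu1
  obtain ⟨δ', hδ', hL'⟩ := Build_amb hC hLu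
  have hsol : ∀ w, Sol C (δ' RatFunc.X) w ↔ Sm C u w := by
    intro w
    rw [hδ', Build_sol hC δu w, hδu]
  -- C.e q = l
  have hAq : A.val (some q) = some c := (Quad_val_some A).2 ⟨hA.Qne, hA.val⟩
  have hB0 : B.val none = none := Quad_val_none B hBlt
  have hCQ : C.Q.eval q ≠ 0 := by
    intro h0
    have h1 : C.val (some q) = none := if_pos h0
    have h2 := hval (some q)
    rw [h1, hB0, hAq] at h2
    exact absurd h2 (by simp)
  obtain ⟨c', hc'⟩ : ∃ c', C.P.eval q = c' * C.Q.eval q :=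
    ⟨C.P.eval q / C.Q.eval q, (div_mul_cancel₀ _ hCQ).symm⟩
  have ht' : Near O (δ' RatFunc.X) c' := by
    rw [hδ', coord_elt, hδu]
    exact Build_near O hO hu2 hCQ hc'
  have hCe : C.e (some q) = l := by
    have hq : q ∈ fC C c' := (mem_fC' hC).2 ⟨hCQ, hc'⟩
    obtain ⟨s', hs', hs'c⟩ := (near_count hC hCm hClt hL' O hO ht').2 q hq
    have h1 : s' = r := by
      ext z
      rw [hs', hr, hsol]
      constructor
      · rintro ⟨h2, h3⟩
        exact ⟨hcls hu1 h2, h3⟩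
      · rintro ⟨h2, h3⟩
        exact ⟨(hRC u z hu1 h2).1 (hr4 u hu z ((hr z).2 ⟨h2, h3⟩)), h3⟩
    rw [← hs'c, h1, hrc]
  have hC2 : 2 ≤ C.n := by
    have h1 := C.e_le hC (some q)
    rw [hCe] at h1
    exact hA.prime.two_le.trans h1
  refine ⟨B, C, hA, hcomp, hCm, hClt, hC2, hCe, ?_, ?_, ?_⟩
  · intro z z' hz hzz'
    rw [← hδ] at hz
    have hz' := hcls hz hzz'
    obtain ⟨τ, -, h2, h3⟩ := hR.loc z z' hz hz' ((hRC z z' hz hz').2 hzz')
    refine ⟨τ, h2, fun w hw hzw => ?_⟩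
    rw [← hδ] at hw
    exact h3 w hw fun h4 => hzw ((hRC z w hz hw).1 h4)
  · intro ψ P _ hA2 hP hP'
    obtain ⟨O', hO', ht1, hφq, hψq⟩ := exists_O_place hA hP hP'
    rw [← hδ] at ht1
    obtain ⟨g', r', -, -, hr', -, -, -, hr4'⟩ := Build_rel hA hL hR O' hO' ht1
    have h1 : Sol A (δ RatFunc.X) (algebraMap K (AlgebraicClosure K) (φ RatFunc.X)) := by
      rw [hδ]
      exact Build_coord hn φ
    have h2 : Sol A (δ RatFunc.X) (algebraMap K (AlgebraicClosure K) (ψ RatFunc.X)) := by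
      rw [hδ, hA2]
      exact Build_coord hn ψ
    have h3 := hr4' _ ((hr' _).2 ⟨h1, hφq⟩) _ ((hr' _).2 ⟨h2, hψq⟩)
    exact Build_elt hC φ ψ ((hRC _ _ h1 h2).1 h3)
  · obtain ⟨s, hs, hsc, hs3⟩ := Amb.cls hn hcomp hCm hClt hL hu1
    have hs' : ∀ z, z ∈ s ↔ Sol A (δ RatFunc.X) z ∧ R u z := by
      intro z
      constructor
      · intro hz
        exact ⟨hs3 z hz, (hRC u z hu1 (hs3 z hz)).2 ((hs z).1 hz)⟩
      · rintro ⟨h1, h2⟩
        exact (hs z).2 ((hRC u z hu1 h1).1 h2)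
    have hrs : r ⊆ s := by
      intro z hz
      exact (hs' z).2 ⟨((hr z).1 hz).1, hr4 u hu z hz⟩
    rcases hR.two s g r hrs hg hrc hr1 hr2 hr3 u hu1 hs' with h | ⟨hsl, h⟩
    · left
      apply irr_of_two hC2 hCm hClt hLu
      intro v v' hv hvu hv' hvu'
      rw [hδu] at hv hvu hv' hvu' ⊢
      have hus : u ∈ s := hrs hu
      obtain ⟨τ, -, h2, h3⟩ := h u hus v ((hs v).2 hv) u hus v' ((hs v').2 hv')
        (Ne.symm hvu) (Ne.symm hvu')
      exact ⟨τ, h2, h3⟩
    · right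
      have hp : C.n.Prime := by
        rw [← hsc, hsl]
        exact hA.prime
      apply frob_TWf hp hCm hClt hCun hL'
      intro τ hτ a b ha hb hab hτa hτb w hw
      rw [hsol] at ha hb hw
      refine h τ ?_ a ((hs a).2 ha) b ((hs b).2 hb) hab hτa hτb w ((hs w).2 hw)
      have h1 : δ RatFunc.X = B.app (δ' RatFunc.X) := by
        have h2 : elt A = B.app (elt C) := hcomp
        rw [← hδu2, hδ', ← app_map, h2]
      have h2 := app_map (τ : AlgebraicClosure K →ₐ[ℂ] AlgebraicClosure K) B (δ' RatFunc.X)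
      rw [← h1] at h2
      have h3 : (τ : AlgebraicClosure K →ₐ[ℂ] AlgebraicClosure K) (δ' RatFunc.X) =
          δ' RatFunc.X := hτ
      rw [h3, ← h1] at h2
      exact h2

end WildH
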