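import Pool.Agent.helper21.HD.Frob
import Pool.Agent.helper21.NI.Aff

/-! The shape of the fibres of functions of prime degree with a Frobenius monodromy group. -/

namespace WildH

open Polynomial WildRat WildS WildV WildN

variable {L : Type} [Field L] [Algebra ℂ L]

theorem FrobS_rep' {s : Finset ℂ} {f : ℂ → ℕ} {k m : ℕ} (h1 : s.card = k)
    (h : ∀ a ∈ s, f a = m) : s.val.map f = Multiset.replicate k m := by
  rw [Multiset.eq_replicate, Multiset.card_map]
  refine ⟨h1, ?_⟩
  intro b hb
  rw [Multiset.mem_map] at hb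
  obtain ⟨a, ha, rfl⟩ := hb
  exact h a ha

theorem FrobS_rep {C : RF} {p : ℂ} (h1 : (fC C p).card = C.n)
    (h : ∀ a ∈ fC C p, C.e (some a) = 1) : pasF C p = Multiset.replicate C.n 1 :=
  FrobS_rep' h1 h

/-- The shape of a finite fibre.  Proof: this is the proof of `frob_fibre` in HD/Frob.lean. -/
theorem frob_shape {C : RF} (hp : C.n.Prime) (hm : C.P.Monic)
    (hlt : C.Q.natDegree < C.P.natDegree) {δ : E →ₐ[ℂ] L} (hL : Amb δ)
    (hF : ∀ τ : L ≃ₐ[ℂ] L, τ (δ RatFunc.X) = δ RatFunc.X → ∀ a b, Sol C (δ RatFunc.X) a →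
      Sol C (δ RatFunc.X) b → a ≠ b → τ a = a → τ b = b → ∀ w, Sol C (δ RatFunc.X) w → τ w = w)
    (p : ℂ) : pasF C p = Multiset.replicate C.n 1 ∨ pasF C p = {C.n} ∨
      ∃ m k, 2 ≤ m ∧ C.n = k * m + 1 ∧ pasF C p = 1 ::ₘ Multiset.replicate k m := by
  classical
  have hn : 1 ≤ C.n := hp.one_lt.le
  obtain ⟨O, hO, ht⟩ := exists_O (δ := δ) p
  obtain ⟨σ, hσt, hσn, hσtr⟩ := exists_sigma hn hm hlt hL O hO ht
  obtain ⟨hnear, hcnt⟩ := near_count hn hm hlt hL O hO ht
  have hfix : ∀ k : ℕ, (σ ^ k) (δ RatFunc.X) = δ RatFunc.X := fun k => Frob_fix σ k hσt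
  -- the minimal period of a solution near `a`
  have hper : ∀ a ∈ fC C p, ∀ z, Sol C (δ RatFunc.X) z → Near O z a →
      Function.minimalPeriod (fun w => σ w) z = C.e (some a) := by
    intro a ha z hz hza
    obtain ⟨s, hs, hc⟩ := hcnt a ha
    rw [← hc]
    apply Frob_period (fun w => σ w) s
    · intro w hw
      have hw' := (hs w).1 hw
      exact (hs _).2 ⟨hw'.1.map σ hσt, hσn w hw'.1 a hw'.2⟩
    · intro w hw w' hw'
      have h1 := (hs w).1 hw
      have h2 := (hs w').1 hw'
      obtain ⟨k, hk⟩ := hσtr w w' h1.1 h2.1 a h1.2 h2.2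
      exact ⟨k, by rw [← Frob_pow_iter]; exact hk⟩
    · exact (hs z).2 ⟨hz, hza⟩
  have hex : ∀ a ∈ fC C p, ∃ z, Sol C (δ RatFunc.X) z ∧ Near O z a := by
    intro a ha
    obtain ⟨s, hs, hc⟩ := hcnt a ha
    have h1 := Frob_pos hn ha
    rw [← hc] at h1
    obtain ⟨z, hz⟩ := Finset.card_pos.1 h1
    exact ⟨z, (hs z).1 hz⟩
  -- divisibility
  have hdiv : ∀ a ∈ fC C p, 2 ≤ C.e (some a) → ∀ b ∈ fC C p, C.e (some b) ∣ C.e (some a) := by
    intro a ha h2 b hb
    obtain ⟨s, hs, hc⟩ := hcnt a ha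
    rw [← hc] at h2
    obtain ⟨z, hz, z', hz', hne⟩ := Finset.one_lt_card.1 h2
    have h3 := (hs z).1 hz
    have h4 := (hs z').1 hz'
    have h5 : ∀ w, Sol C (δ RatFunc.X) w → Near O w a → (σ ^ C.e (some a)) w = w := by
      intro w hw hwa
      rw [Frob_pow_iter, ← hper a ha w hw hwa]
      exact Function.iterate_minimalPeriod
    obtain ⟨w, hw, hwb⟩ := hex b hb
    have h6 := hF (σ ^ C.e (some a)) (hfix _) z z' h3.1 h4.1 hne (h5 z h3.1 h3.2)
      (h5 z' h4.1 h4.2) w hw
    rw [Frob_pow_iter] at h6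
    rw [← hper b hb w hw hwb]
    exact Function.IsPeriodicPt.minimalPeriod_dvd h6
  -- two points of index one
  have hone : ∀ a ∈ fC C p, ∀ b ∈ fC C p, a ≠ b → C.e (some a) = 1 → C.e (some b) = 1 →
      ∀ c ∈ fC C p, C.e (some c) = 1 := by
    intro a ha b hb hab h1 h2 c hc
    obtain ⟨z, hz, hza⟩ := hex a ha
    obtain ⟨w, hw, hwb⟩ := hex b hb
    have hzw : z ≠ w := by
      rintro rfl
      obtain ⟨a0, _, _, h3⟩ := hnear z hz
      exact hab ((h3 a hza).trans (h3 b hwb).symm)
    have h3 : σ z = z := by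
      have h4 := Function.iterate_minimalPeriod (f := fun w => σ w) (x := z)
      rw [hper a ha z hz hza, h1] at h4
      exact h4
    have h4 : σ w = w := by
      have h5 := Function.iterate_minimalPeriod (f := fun w => σ w) (x := w)
      rw [hper b hb w hw hwb, h2] at h5
      exact h5
    obtain ⟨y, hy, hyc⟩ := hex c hc
    have h5 := hF σ hσt z w hz hw hzw h3 h4 y hy
    have h6 : Function.minimalPeriod (fun w => σ w) y ∣ 1 :=
      Function.IsPeriodicPt.minimalPeriod_dvd (n := 1) h5
    rw [hper c hc y hy hyc] at h6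
    exact Nat.dvd_one.1 h6
  have hsum := sum_fC hn hlt p
  by_cases hall : ∀ a ∈ fC C p, C.e (some a) = 1
  · left
    have h1 : (fC C p).card = C.n := by
      rw [← hsum, Finset.card_eq_sum_ones]
      exact Finset.sum_congr rfl fun a ha => (hall a ha).symm
    exact FrobS_rep h1 hall
  · right
    push Not at hall
    obtain ⟨a, ha, hea⟩ := hall
    have hea2 : 2 ≤ C.e (some a) := by
      have := Frob_pos hn ha
      omega
    have hval : ∀ b ∈ fC C p, C.e (some b) ≠ 1 → C.e (some b) = C.e (some a) := by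
      intro b hb hb1
      have hb2 : 2 ≤ C.e (some b) := by
        have := Frob_pos hn hb
        omega
      exact Nat.dvd_antisymm (hdiv a ha hea2 b hb) (hdiv b hb hb2 a ha)
    by_cases hb : ∃ b ∈ fC C p, C.e (some b) = 1
    · right
      obtain ⟨b, hb, hb1⟩ := hb
      have hrest : ∀ c ∈ (fC C p).erase b, C.e (some c) = C.e (some a) := by
        intro c hc
        rw [Finset.mem_erase] at hc
        apply hval c hc.2
        intro hc1
        exact hea (hone c hc.2 b hb hc.1 hc1 hb1 a ha)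
      refine ⟨C.e (some a), ((fC C p).erase b).card, hea2, ?_, ?_⟩
      · rw [← hsum, ← Finset.sum_erase_add _ _ hb, hb1, Finset.sum_congr rfl hrest,
          Finset.sum_const, smul_eq_mul]
      · have h2 : (fC C p).val = b ::ₘ ((fC C p).erase b).val := by
          rw [Finset.erase_val]
          exact (Multiset.cons_erase hb).symm
        show (fC C p).val.map (fun a => C.e (some a)) = _
        rw [h2, Multiset.map_cons, hb1]
        congr 1
        exact FrobS_rep' rfl hrest
    · left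
      push Not at hb
      have hrest : ∀ c ∈ fC C p, C.e (some c) = C.e (some a) := fun c hc => hval c hc (hb c hc)
      have h1 : C.n = (fC C p).card * C.e (some a) := by
        rw [← hsum, Finset.sum_congr rfl hrest, Finset.sum_const, smul_eq_mul]
      have h2 : C.e (some a) ∣ C.n := Dvd.intro_left _ h1.symm
      have h3 : C.e (some a) = C.n := by
        rcases (Nat.dvd_prime hp).1 h2 with h | h
        · exact absurd h hea
        · exact h
      have h4 : (fC C p).card = 1 := by
        rw [h3] at h1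
        exact Nat.eq_of_mul_eq_mul_right (by omega : 0 < C.n) (by rw [one_mul]; exact h1.symm)
      have h5 := FrobS_rep' (f := fun a => C.e (some a)) h4 hrest
      rw [Multiset.replicate_one, h3] at h5
      exact h5

/-- Proof: `frob_shape`, `pasF_eq`; over infinity all indices are one. -/
theorem frob_Aff {C : RF} (hp : C.n.Prime) (hm : C.P.Monic)
    (hlt : C.Q.natDegree < C.P.natDegree) (hun : ∀ z, C.val z = none → C.e z = 1)
    {δ : E →ₐ[ℂ] L} (hL : Amb δ)
    (hF : ∀ τ : L ≃ₐ[ℂ] L, τ (δ RatFunc.X) = δ RatFunc.X → ∀ a b, Sol C (δ RatFunc.X) a →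
      Sol C (δ RatFunc.X) b → a ≠ b → τ a = a → τ b = b → ∀ w, Sol C (δ RatFunc.X) w → τ w = w) :
    Aff C := by
  have hn : 1 ≤ C.n := hp.one_lt.le
  intro c
  cases c with
  | none =>
    left
    unfold pas
    rw [Multiset.eq_replicate, Multiset.card_map]
    constructor
    · show (fibP C none).card = C.n
      rw [← C.sum_e hn none, ← fibP_eq hn, Finset.card_eq_sum_ones]
      exact Finset.sum_congr rfl fun z hz => (hun z ((mem_fibP hn).1 hz)).symm
    · intro b hb
      rw [Multiset.mem_map] at hb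
      obtain ⟨z, hz, rfl⟩ := hb
      exact hun z ((mem_fibP hn).1 hz)
  | some p =>
    rw [pasF_eq hn hlt]
    exact frob_shape hp hm hlt hL hF p

end WildH
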