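import Pool.Agent.helper21.HD.Build
import Pool.Agent.helper21.HD.FrobS

/-! The class data, with the shape of the fibres in the Frobenius case. -/

namespace WildH

open Polynomial WildRat WildS WildV WildN

variable {K : Type} [Field K] [Algebra ℂ K]

/-- As `exists_ClL`, with more information in the case of a Frobenius group. -/
theorem exists_ClLS {A : RF} {c q : ℂ} {l : ℕ} (hA : NormL A c q l) {φ : E →ₐ[ℂ] K}
    (hφ : FinC φ) : ∃ B C : RF, ClL A B C c q l φ ∧ (DTm C ∨ (C.n = l ∧ Aff C)) := by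
  classical
  have hn : 1 ≤ A.n := by
    have h1 := hA.lt
    have h2 : A.P.natDegree ≤ A.n := le_max_left _ _
    omega
  obtain ⟨δ, hδ, hL⟩ := amb_closure hn hφ
  obtain ⟨R, hR⟩ := exists_Cls hn hA.monic hA.lt hA.prime hL
  obtain ⟨B, C, hcomp, hCm, hClt, hRC⟩ := exists_class hn hA.monic hA.lt hL hR.refl hR.symm
    hR.trans hR.map
  obtain ⟨hC, hB, hmul, hval, he, hBlt, hBun, hCun⟩ :=
    comp_norm hn hA.lt hA.unram hcomp hClt
  -- solutions of the class
  have hcls : ∀ {z w}, Sol A (δ RatFunc.X) z → Sm C z w → Sol A (δ RatFunc.X) w := by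
    intro z w hz hzw
    obtain ⟨s, hs, -, hs3⟩ := Amb.cls hn hcomp hCm hClt hL hz
    exact hs3 w ((hs w).2 hzw)
  obtain ⟨O, hO, ht⟩ := exists_O (δ := δ) c
  obtain ⟨g, r, hg, hrc, hr, hr1, hr2, hr3, hr4⟩ := Build_rel hA hL hR O hO ht
  have hrne : r.Nonempty := by
    rw [← Finset.card_pos, hrc]
    exact hA.prime.pos
  obtain ⟨u, hu⟩ := hrne
  obtain ⟨hu1, hu2⟩ := (hr u).1 hu
  obtain ⟨δu, hδu, hδu2, hLu⟩ := Amb.sol hn hL hu1
  obtain ⟨δ', hδ', hL'⟩ := Build_amb hC hLu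
  have hsol : ∀ w, Sol C (δ' RatFunc.X) w ↔ Sm C u w := by
    intro w
    rw [hδ', Build_sol hC δu w, hδu]
  -- C.e q = l
  have hAq : A.val (some q) = some c := (Quad_val_some A).2 ⟨hA.Qne, hA.val⟩
  have hB0 : B.val none = none := Quad_val_none B hBlt
  have hCQ : C.Q.eval q ≠ 0 := by
    intro h0
    have h1 : C.val (some q) = none := if_pos h0
    have h2 := hval (some q)
    rw [h1, hB0, hAq] at h2
    exact absurd h2 (by simp)
  obtain ⟨c', hc'⟩ : ∃ c', C.P.eval q = c' * C.Q.eval q :=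
    ⟨C.P.eval q / C.Q.eval q, (div_mul_cancel₀ _ hCQ).symm⟩
  have ht' : Near O (δ' RatFunc.X) c' := by
    rw [hδ', coord_elt, hδu]
    exact Build_near O hO hu2 hCQ hc'
  have hCe : C.e (some q) = l := by
    have hq : q ∈ fC C c' := (mem_fC' hC).2 ⟨hCQ, hc'⟩
    obtain ⟨s', hs', hs'c⟩ := (near_count hC hCm hClt hL' O hO ht').2 q hq
    have h1 : s' = r := by
      ext z
      rw [hs', hr, hsol]
      constructor
      · rintro ⟨h2, h3⟩
        exact ⟨hcls hu1 h2, h3⟩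
      · rintro ⟨h2, h3⟩
        exact ⟨(hRC u z hu1 h2).1 (hr4 u hu z ((hr z).2 ⟨h2, h3⟩)), h3⟩
    rw [← hs'c, h1, hrc]
  have hC2 : 2 ≤ C.n := by
    have h1 := C.e_le hC (some q)
    rw [hCe] at h1
    exact hA.prime.two_le.trans h1
  have key : DTm C ∨ (C.n = l ∧ Aff C ∧ TWf C) := by
    obtain ⟨s, hs, hsc, hs3⟩ := Amb.cls hn hcomp hCm hClt hL hu1
    have hs' : ∀ z, z ∈ s ↔ Sol A (δ RatFunc.X) z ∧ R u z := by
      intro z
      constructor
      · intro hz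
        exact ⟨hs3 z hz, (hRC u z hu1 (hs3 z hz)).2 ((hs z).1 hz)⟩
      · rintro ⟨h1, h2⟩
        exact (hs z).2 ((hRC u z hu1 h1).1 h2)
    have hrs : r ⊆ s := by
      intro z hz
      exact (hs' z).2 ⟨((hr z).1 hz).1, hr4 u hu z hz⟩
    rcases hR.two s g r hrs hg hrc hr1 hr2 hr3 u hu1 hs' with h | ⟨hsl, h⟩
    · left
      apply irr_of_two hC2 hCm hClt hLu
      intro v v' hv hvu hv' hvu'
      rw [hδu] at hv hvu hv' hvu' ⊢
      have hus : u ∈ s := hrs hu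
      obtain ⟨τ, -, h2, h3⟩ := h u hus v ((hs v).2 hv) u hus v' ((hs v').2 hv')
        (Ne.symm hvu) (Ne.symm hvu')
      exact ⟨τ, h2, h3⟩
    · right
      have hp : C.n.Prime := by
        rw [← hsc, hsl]
        exact hA.prime
      suffices hF : ∀ τ : AlgebraicClosure K ≃ₐ[ℂ] AlgebraicClosure K,
          τ (δ' RatFunc.X) = δ' RatFunc.X → ∀ a b, Sol C (δ' RatFunc.X) a →
          Sol C (δ' RatFunc.X) b → a ≠ b → τ a = a → τ b = b →
          ∀ w, Sol C (δ' RatFunc.X) w → τ w = w from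
        ⟨by rw [← hsc, hsl], frob_Aff hp hCm hClt hCun hL' hF,
          frob_TWf hp hCm hClt hCun hL' hF⟩
      intro τ hτ a b ha hb hab hτa hτb w hw
      rw [hsol] at ha hb hw
      refine h τ ?_ a ((hs a).2 ha) b ((hs b).2 hb) hab hτa hτb w ((hs w).2 hw)
      have h1 : δ RatFunc.X = B.app (δ' RatFunc.X) := by
        have h2 : elt A = B.app (elt C) := hcomp
        rw [← hδu2, hδ', ← app_map, h2]
      have h2 := app_map (τ : AlgebraicClosure K →ₐ[ℂ] AlgebraicClosure K) B (δ' RatFunc.X)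
      rw [← h1] at h2
      have h3 : (τ : AlgebraicClosure K →ₐ[ℂ] AlgebraicClosure K) (δ' RatFunc.X) =
          δ' RatFunc.X := hτ
      rw [h3, ← h1] at h2
      exact h2
  refine ⟨B, C, ⟨hA, hcomp, hCm, hClt, hC2, hCe, ?_, ?_, key.imp id fun h => h.2.2⟩,
    key.imp id fun h => ⟨h.1, h.2.1⟩⟩
  · intro z z' hz hzz'
    rw [← hδ] at hz
    have hz' := hcls hz hzz'
    obtain ⟨τ, -, h2, h3⟩ := hR.loc z z' hz hz' ((hRC z z' hz hz').2 hzz')
    refine ⟨τ, h2, fun w hw hzw => ?_⟩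
    rw [← hδ] at hw
    exact h3 w hw fun h4 => hzw ((hRC z w hz hw).1 h4)
  · intro ψ P _ hA2 hP hP'
    obtain ⟨O', hO', ht1, hφq, hψq⟩ := exists_O_place hA hP hP'
    rw [← hδ] at ht1
    obtain ⟨g', r', -, -, hr', -, -, -, hr4'⟩ := Build_rel hA hL hR O' hO' ht1
    have h1 : Sol A (δ RatFunc.X) (algebraMap K (AlgebraicClosure K) (φ RatFunc.X)) := by
      rw [hδ]
      exact Build_coord hn φ
    have h2 : Sol A (δ RatFunc.X) (algebraMap K (AlgebraicClosure K) (ψ RatFunc.X)) := by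
      rw [hδ, hA2]
      exact Build_coord hn ψ
    have h3 := hr4' _ ((hr' _).2 ⟨h1, hφq⟩) _ ((hr' _).2 ⟨h2, hψq⟩)
    exact Build_elt hC φ ψ ((hRC _ _ h1 h2).1 h3)

end WildH
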