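import Pool.Agent.helper21.HD.Defs

/-! The solutions of `A(z) = c + τ ^ M` in Laurent series (proof: helper51). -/

namespace WildH

open Polynomial WildRat WildS WildV

/-- A simple root of a polynomial over the power series lifts. -/
private theorem Laurent_hensel (f : Polynomial (PowerSeries ℂ)) (w : ℂ)
    (h0 : (f.map PowerSeries.constantCoeff).eval w = 0)
    (h1 : (f.map PowerSeries.constantCoeff).derivative.eval w ≠ 0) :
    ∃ r : PowerSeries ℂ, f.eval r = 0 ∧ PowerSeries.constantCoeff r = w := by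
  classical
  have hder : ∀ r : PowerSeries ℂ, PowerSeries.constantCoeff r = w →
      PowerSeries.constantCoeff (f.derivative.eval r) ≠ 0 := by
    intro r hr
    rw [← Polynomial.eval₂_at_apply, hr, ← Polynomial.eval_map, ← Polynomial.derivative_map]
    exact h1
  have step : ∀ (n : ℕ) (r : PowerSeries ℂ), ((PowerSeries.X ^ (n + 1) ∣ f.eval r) ∧
      PowerSeries.constantCoeff r = w) →
      ∃ r', ((PowerSeries.X ^ (n + 1 + 1) ∣ f.eval r') ∧ PowerSeries.constantCoeff r' = w) ∧
        PowerSeries.X ^ (n + 1) ∣ r' - r := by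
    rintro n r ⟨⟨g, hg⟩, hr⟩
    have hd := hder r hr
    set d := f.derivative.eval r with hdd
    have hinv : d * d⁻¹ = 1 := PowerSeries.mul_inv_cancel d hd
    refine ⟨r + (-(f.eval r * d⁻¹)), ⟨?_, ?_⟩, ?_⟩
    · obtain ⟨k, hk⟩ := Polynomial.binomExpansion f r (-(f.eval r * d⁻¹))
      rw [hk, ← hdd]
      have e2 : f.eval r + d * (-(f.eval r * d⁻¹)) = 0 := by
        linear_combination (-(f.eval r)) * hinv
      rw [e2, zero_add, hg]
      exact ⟨k * g ^ 2 * (d⁻¹) ^ 2 * PowerSeries.X ^ n, by ring⟩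
    · rw [hg, map_add, map_neg, map_mul, map_mul, pow_succ, map_mul, PowerSeries.constantCoeff_X,
        mul_zero, zero_mul, zero_mul, neg_zero, add_zero, hr]
    · rw [add_sub_cancel_left, hg]
      exact ⟨-(g * d⁻¹), by ring⟩
  choose! next hnext using step
  set c : ℕ → PowerSeries ℂ := fun n => Nat.rec (PowerSeries.C w) (fun n r => next n r) n with hc
  have hcs : ∀ n, c (n + 1) = next n (c n) := fun n => rfl
  have hP : ∀ n, (PowerSeries.X ^ (n + 1) ∣ f.eval (c n)) ∧ PowerSeries.constantCoeff (c n) = w := by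
    intro n
    induction n with
    | zero =>
      refine ⟨?_, PowerSeries.constantCoeff_C w⟩
      rw [zero_add, pow_one, PowerSeries.X_dvd_iff]
      have h2 : PowerSeries.constantCoeff (f.eval (PowerSeries.C w)) = 0 := by
        rw [← Polynomial.eval₂_at_apply, PowerSeries.constantCoeff_C, ← Polynomial.eval_map]
        exact h0
      exact h2
    | succ n ih =>
      rw [hcs]
      exact (hnext n (c n) ih).1
  have hd : ∀ n, PowerSeries.X ^ (n + 1) ∣ c (n + 1) - c n := by
    intro n
    rw [hcs]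
    exact (hnext n (c n) (hP n)).2
  have hco : ∀ i n, i ≤ n → PowerSeries.coeff i (c n) = PowerSeries.coeff i (c i) := by
    intro i n hin
    induction n, hin using Nat.le_induction with
    | base => rfl
    | succ n hn ih =>
      rw [← ih, ← sub_eq_zero, ← map_sub]
      exact PowerSeries.X_pow_dvd_iff.1 (hd n) i (by omega)
  set a : PowerSeries ℂ := PowerSeries.mk fun n => PowerSeries.coeff n (c n) with ha
  have hac : ∀ n, PowerSeries.X ^ (n + 1) ∣ a - c n := by
    intro n
    rw [PowerSeries.X_pow_dvd_iff]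
    intro m hm
    rw [map_sub, ha, PowerSeries.coeff_mk, hco m n (by omega), sub_self]
  refine ⟨a, ?_, ?_⟩
  · ext m
    have h2 : PowerSeries.X ^ (m + 1) ∣ f.eval a := by
      have h3 := (hac m).trans (Polynomial.sub_dvd_eval_sub a (c m) f)
      have h4 := dvd_add h3 (hP m).1
      rwa [sub_add_cancel] at h4
    rw [PowerSeries.X_pow_dvd_iff.1 h2 m (by omega), map_zero]
  · rw [← PowerSeries.coeff_zero_eq_constantCoeff_apply, ha, PowerSeries.coeff_mk,
      PowerSeries.coeff_zero_eq_constantCoeff_apply]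
    exact (hP 0).2

/-- The field of fractions of the power series. -/
private abbrev Laurent_F : Type := FractionRing (PowerSeries ℂ)

private theorem Laurent_inj : Function.Injective (algebraMap (PowerSeries ℂ) Laurent_F) :=
  IsFractionRing.injective _ _

private theorem Laurent_alg (a : ℂ) : algebraMap ℂ Laurent_F a =
    algebraMap (PowerSeries ℂ) Laurent_F (PowerSeries.C a) := by
  rw [IsScalarTower.algebraMap_apply ℂ (PowerSeries ℂ) Laurent_F]
  rfl

/-- The valuation ring. -/
private noncomputable def Laurent_O : ValuationSubring Laurent_F where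
  toSubring := (algebraMap (PowerSeries ℂ) Laurent_F).range
  mem_or_inv_mem' := by
    intro x
    rcases ValuationRing.isInteger_or_isInteger (PowerSeries ℂ) x with h | h
    · exact Or.inl h
    · exact Or.inr h

private theorem Laurent_mem_O (r : PowerSeries ℂ) :
    algebraMap (PowerSeries ℂ) Laurent_F r ∈ Laurent_O := ⟨r, rfl⟩

private theorem Laurent_nonunits (r : PowerSeries ℂ) (hr : PowerSeries.constantCoeff r = 0) :
    algebraMap (PowerSeries ℂ) Laurent_F r ∈ Laurent_O.nonunits := by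
  rw [ValuationSubring.mem_nonunits_iff_exists_mem_maximalIdeal]
  refine ⟨Laurent_mem_O r, ?_⟩
  rw [IsLocalRing.mem_maximalIdeal, mem_nonunits_iff]
  intro hu
  obtain ⟨⟨b, hb⟩, hab⟩ := hu.exists_right_inv
  obtain ⟨g, hg⟩ := hb
  have h1 : algebraMap (PowerSeries ℂ) Laurent_F r * b = 1 := congrArg Subtype.val hab
  rw [← hg, ← map_mul, ← map_one (algebraMap (PowerSeries ℂ) Laurent_F)] at h1
  have h2 := congrArg PowerSeries.constantCoeff (Laurent_inj h1)
  rw [map_mul, hr, zero_mul, map_one] at h2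
  exact zero_ne_one h2

private noncomputable def Laurent_rho (z : ℂ) (hz : z ≠ 0) : PowerSeries ℂ ≃+* PowerSeries ℂ where
  toFun := PowerSeries.rescale z
  invFun := PowerSeries.rescale z⁻¹
  left_inv := by
    intro f
    rw [PowerSeries.rescale_rescale, mul_inv_cancel₀ hz, PowerSeries.rescale_one]
    rfl
  right_inv := by
    intro f
    rw [PowerSeries.rescale_rescale, inv_mul_cancel₀ hz, PowerSeries.rescale_one]
    rfl
  map_mul' := map_mul _
  map_add' := map_add _

private noncomputable def Laurent_sigma (z : ℂ) (hz : z ≠ 0) : Laurent_F ≃ₐ[ℂ] Laurent_F :=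
  AlgEquiv.ofRingEquiv (f := IsFractionRing.ringEquivOfRingEquiv (Laurent_rho z hz)) (by
    intro a
    rw [Laurent_alg, IsFractionRing.ringEquivOfRingEquiv_algebraMap]
    congr 1
    change PowerSeries.rescale z (PowerSeries.C a) = PowerSeries.C a
    ext n
    rw [PowerSeries.coeff_rescale, PowerSeries.coeff_C]
    split_ifs with h
    · rw [h, pow_zero, one_mul]
    · rw [mul_zero])

private theorem Laurent_sigma_map (z : ℂ) (hz : z ≠ 0) (r : PowerSeries ℂ) :
    Laurent_sigma z hz (algebraMap (PowerSeries ℂ) Laurent_F r) =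
      algebraMap (PowerSeries ℂ) Laurent_F (PowerSeries.rescale z r) :=
  IsFractionRing.ringEquivOfRingEquiv_algebraMap (Laurent_rho z hz) r

private theorem Laurent_sigma_pow (z : ℂ) (hz : z ≠ 0) (r : PowerSeries ℂ) (k : ℕ) :
    (Laurent_sigma z hz ^ k) (algebraMap (PowerSeries ℂ) Laurent_F r) =
      algebraMap (PowerSeries ℂ) Laurent_F (PowerSeries.rescale (z ^ k) r) := by
  induction k generalizing r with
  | zero =>
    rw [pow_zero, pow_zero, PowerSeries.rescale_one]
    rfl
  | succ k ih =>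
    rw [pow_succ, AlgEquiv.mul_apply, Laurent_sigma_map, ih, PowerSeries.rescale_rescale, pow_succ,
      mul_comm z]


private theorem Laurent_eval (p : ℂ[X]) (z : PowerSeries ℂ) :
    PowerSeries.constantCoeff ((p.map PowerSeries.C).eval z) =
      p.eval (PowerSeries.constantCoeff z) := by
  rw [← Polynomial.eval₂_at_apply, Polynomial.eval₂_map, ← Polynomial.eval₂_id]
  congr 1

/-- The roots near a point. -/
private theorem Laurent_root (V Q : ℂ[X]) (a w : ℂ) (e m : ℕ) (he : 1 ≤ e) (hm : 1 ≤ m)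
    (hV : V.eval a ≠ 0) (hQ : Q.eval a ≠ 0) (hw : w ^ e * V.eval a = Q.eval a) :
    ∃ r : PowerSeries ℂ, PowerSeries.constantCoeff r = w ∧
      r ^ e * (V.map PowerSeries.C).eval (PowerSeries.C a + PowerSeries.X ^ m * r) =
        (Q.map PowerSeries.C).eval (PowerSeries.C a + PowerSeries.X ^ m * r) := by
  have hw0 : w ≠ 0 := by
    rintro rfl
    rw [zero_pow (by omega), zero_mul] at hw
    exact hQ hw.symm
  set q : Polynomial (PowerSeries ℂ) := C (PowerSeries.C a) + C (PowerSeries.X ^ m) * X with hq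
  set G : Polynomial (PowerSeries ℂ) :=
    X ^ e * (V.map PowerSeries.C).comp q - (Q.map PowerSeries.C).comp q with hG
  have hqm : q.map PowerSeries.constantCoeff = C a := by
    rw [hq, Polynomial.map_add, Polynomial.map_mul, Polynomial.map_C, Polynomial.map_C,
      Polynomial.map_X, map_pow, PowerSeries.constantCoeff_X, zero_pow (by omega), C_0, zero_mul,
      add_zero, PowerSeries.constantCoeff_C]
  have hmm : ∀ p : ℂ[X], (p.map (PowerSeries.C (R := ℂ))).map PowerSeries.constantCoeff = p := by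
    intro p
    rw [Polynomial.map_map]
    have h1 : (PowerSeries.constantCoeff (R := ℂ)).comp PowerSeries.C = RingHom.id ℂ := by
      ext x
      simp
    rw [h1, Polynomial.map_id]
  have hGm : G.map PowerSeries.constantCoeff = X ^ e * C (V.eval a) - C (Q.eval a) := by
    rw [hG, Polynomial.map_sub, Polynomial.map_mul, Polynomial.map_pow, Polynomial.map_X,
      Polynomial.map_comp, Polynomial.map_comp, hqm, hmm, hmm, Polynomial.comp_C,
      Polynomial.comp_C]
  obtain ⟨r, hr, hrw⟩ := Laurent_hensel G w (by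
    rw [hGm]
    simp only [eval_sub, eval_mul, eval_pow, eval_X, eval_C]
    linear_combination hw) (by
    rw [hGm]
    simp only [derivative_sub, derivative_mul, derivative_X_pow, derivative_C, mul_zero, add_zero,
      sub_zero, eval_mul, eval_C, eval_pow, eval_X]
    refine mul_ne_zero (mul_ne_zero ?_ (pow_ne_zero _ hw0)) hV
    exact_mod_cast (by omega : e ≠ 0))
  refine ⟨r, hrw, ?_⟩
  have hqr : q.eval r = PowerSeries.C a + PowerSeries.X ^ m * r := by
    rw [hq]
    simp only [eval_add, eval_mul, eval_C, eval_X]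
  rw [hG, eval_sub, eval_mul, eval_pow, eval_X, eval_comp, eval_comp, hqr, sub_eq_zero] at hr
  exact hr

open Classical in
/-- The constant coefficient. -/
private noncomputable def Laurent_pt (z : Laurent_F) : ℂ :=
  if h : ∃ r : PowerSeries ℂ, algebraMap (PowerSeries ℂ) Laurent_F r = z then
    PowerSeries.constantCoeff h.choose else 0

private theorem Laurent_pt_map (r : PowerSeries ℂ) :
    Laurent_pt (algebraMap (PowerSeries ℂ) Laurent_F r) = PowerSeries.constantCoeff r := by
  have h : ∃ r' : PowerSeries ℂ, algebraMap (PowerSeries ℂ) Laurent_F r' =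
      algebraMap (PowerSeries ℂ) Laurent_F r := ⟨r, rfl⟩
  unfold Laurent_pt
  rw [dif_pos h, Laurent_inj h.choose_spec]

private theorem Laurent_aeval (p : ℂ[X]) (z : PowerSeries ℂ) :
    aeval (algebraMap (PowerSeries ℂ) Laurent_F z) p =
      algebraMap (PowerSeries ℂ) Laurent_F ((p.map PowerSeries.C).eval z) := by
  rw [aeval_def, ← Polynomial.eval₂_at_apply, Polynomial.eval₂_map]
  congr 1

/-- The roots of `z ^ e = k`. -/
private theorem Laurent_nth (e : ℕ) (he : 1 ≤ e) (k : ℂ) (hk : k ≠ 0) :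
    ∃ W : Finset ℂ, W.card = e ∧ ∀ w, w ∈ W ↔ w ^ e = k := by
  classical
  have hp : IsPrimitiveRoot (Complex.exp (2 * Real.pi * Complex.I / e)) e :=
    Complex.isPrimitiveRoot_exp e (by omega)
  refine ⟨(nthRoots e k).toFinset, ?_, ?_⟩
  · rw [Multiset.toFinset_card_of_nodup (hp.nthRoots_nodup hk), hp.card_nthRoots, if_pos]
    exact IsAlgClosed.exists_pow_nat_eq k (by omega)
  · intro w
    rw [Multiset.mem_toFinset, mem_nthRoots (by omega)]

/-- **Puiseux.**

Proof.  Let `F = LaurentSeries ℂ`, `OF` = the power series, `M` = the product of the indices over `c`,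
`tF = c + τ ^ M`, `σ` the automorphism `τ ↦ ζ τ` with a primitive `M`-th root of unity `ζ`.  For `a` over `c`
with index `e`, `P - c Q = (X - a) ^ e V`, `V(a) ≠ 0`, `Q(a) ≠ 0`; put `m = M / e`, `z = a + τ ^ m w`:
`P(z) - tF Q(z) = τ ^ M (w ^ e V(a + τ ^ m w) - Q(a + τ ^ m w))`.  Modulo `τ` the polynomial in `w` is
`w ^ e V(a) - Q(a)`, with `e` distinct simple roots `ω`, each of which lifts (Hensel for `ℂ[[τ]]`).  This
gives `e` distinct roots near `a`, altogether `∑ e = A.n`, so all roots.  `σ` maps the root with the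
leading coefficient `ω` to the root with the leading coefficient `ζ ^ m ω`, and `ζ ^ m` is a primitive
`e`-th root of unity, so `σ` is transitive on the roots near `a`. -/
theorem laurent_data (A : RF) (hn : 1 ≤ A.n) (hm : A.P.Monic)
    (hlt : A.Q.natDegree < A.P.natDegree) (c : ℂ) :
    ∃ (F : Type) (_ : Field F) (_ : Algebra ℂ F) (OF : ValuationSubring F) (tF : F)
      (σ : F ≃ₐ[ℂ] F) (s : Finset F) (pt : F → ℂ), (∀ a : ℂ, algebraMap ℂ F a ∈ OF) ∧
      NonConst tF ∧ Near OF tF c ∧ σ tF = tF ∧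
      A.P.map (algebraMap ℂ F) - C tF * A.Q.map (algebraMap ℂ F) = ∏ z ∈ s, (X - C z) ∧
      (∀ z ∈ s, Near OF z (pt z)) ∧ (∀ z ∈ s, pt (σ z) = pt z) ∧
      ∀ z ∈ s, ∀ z' ∈ s, pt z = pt z' → ∃ k : ℕ, (σ ^ k) z = z' := by
  classical
  have hPd : A.P.natDegree = A.n := (max_eq_left hlt.le).symm
  -- the polynomial of the fibre
  set F0 : ℂ[X] := A.P - C c * A.Q with hF0
  have hdeg : (C c * A.Q).degree < A.P.degree := by
    exact degree_lt_degree ((natDegree_C_mul_le c A.Q).trans_lt hlt)
  have hF0m : F0.Monic := hm.sub_of_left hdeg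
  have hF0d : F0.natDegree = A.n := by
    rw [hF0, natDegree_sub_eq_left_of_natDegree_lt, hPd]
    exact (natDegree_C_mul_le c A.Q).trans_lt hlt
  have hF0n : F0 ≠ 0 := hF0m.ne_zero
  set Z : Finset ℂ := F0.roots.toFinset with hZ
  set e : ℂ → ℕ := fun a => F0.rootMultiplicity a with he
  have he1 : ∀ a ∈ Z, 1 ≤ e a := by
    intro a ha
    rw [hZ, Multiset.mem_toFinset, mem_roots hF0n] at ha
    exact (rootMultiplicity_pos hF0n).2 ha
  have hsum : ∑ a ∈ Z, e a = A.n := by
    have h1 : Multiset.card F0.roots = F0.natDegree :=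
      (IsAlgClosed.splits F0).natDegree_eq_card_roots.symm
    rw [← hF0d, ← h1, ← Multiset.toFinset_sum_count_eq]
    refine Finset.sum_congr rfl fun a _ => ?_
    rw [count_roots]
  have hQa : ∀ a ∈ Z, A.Q.eval a ≠ 0 := by
    intro a ha hQ0
    rw [hZ, Multiset.mem_toFinset, mem_roots hF0n, IsRoot.def, hF0, eval_sub, eval_mul, hQ0,
      mul_zero, sub_zero] at ha
    obtain ⟨u, v, huv⟩ := A.cop
    have h1 := congrArg (fun f => f.eval a) huv
    simp [hQ0, ha] at h1
  have hVex : ∀ a, ∃ V : ℂ[X], F0 = (X - C a) ^ e a * V ∧ V.eval a ≠ 0 := by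
    intro a
    obtain ⟨V, h1, h2⟩ := exists_eq_pow_rootMultiplicity_mul_and_not_dvd F0 hF0n a
    exact ⟨V, h1, fun h3 => h2 (dvd_iff_isRoot.2 h3)⟩
  choose V hV hVa using hVex
  -- the exponent
  set M : ℕ := ∏ a ∈ Z, e a with hM
  have hM1 : 1 ≤ M := Nat.succ_le_of_lt (Finset.prod_pos fun a ha => he1 a ha)
  have hMe : ∀ a ∈ Z, e a ∣ M := fun a ha => Finset.dvd_prod_of_mem e ha
  set m : ℂ → ℕ := fun a => M / e a with hmdef
  have hme : ∀ a ∈ Z, m a * e a = M := fun a ha => Nat.div_mul_cancel (hMe a ha)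
  have hm1 : ∀ a ∈ Z, 1 ≤ m a := by
    intro a ha
    have h1 := hme a ha
    rcases Nat.eq_zero_or_pos (m a) with h2 | h2
    · rw [h2, zero_mul] at h1
      omega
    · exact h2
  set κ : ℂ → ℂ := fun a => A.Q.eval a / (V a).eval a with hκ
  have hκ0 : ∀ a ∈ Z, κ a ≠ 0 := fun a ha => div_ne_zero (hQa a ha) (hVa a)
  have hWex : ∀ a, ∃ W : Finset ℂ, a ∈ Z → W.card = e a ∧ ∀ w, w ∈ W ↔ w ^ e a = κ a := by
    intro a
    by_cases ha : a ∈ Z
    · obtain ⟨W, hW⟩ := Laurent_nth (e a) (he1 a ha) (κ a) (hκ0 a ha)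
      exact ⟨W, fun _ => hW⟩
    · exact ⟨∅, fun h => absurd h ha⟩
  choose W hW using hWex
  -- the roots
  set tR : PowerSeries ℂ := PowerSeries.C c + PowerSeries.X ^ M with htR
  have hrex : ∀ a w, ∃ r : PowerSeries ℂ, a ∈ Z → w ∈ W a →
      PowerSeries.constantCoeff r = w ∧
      (A.P.map PowerSeries.C).eval (PowerSeries.C a + PowerSeries.X ^ m a * r) -
        tR * (A.Q.map PowerSeries.C).eval (PowerSeries.C a + PowerSeries.X ^ m a * r) = 0 := by
    intro a w
    by_cases ha : a ∈ Z
    · by_cases hw : w ∈ W a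
      · have hw1 := ((hW a ha).2 w).1 hw
        obtain ⟨r, hr1, hr2⟩ := Laurent_root (V a) A.Q a w (e a) (m a) (he1 a ha) (hm1 a ha)
          (hVa a) (hQa a ha) (by rw [hw1, hκ, div_mul_cancel₀ _ (hVa a)])
        refine ⟨r, fun _ _ => ⟨hr1, ?_⟩⟩
        set z := PowerSeries.C a + PowerSeries.X ^ m a * r with hz
        have h3 : (F0.map PowerSeries.C).eval z =
            PowerSeries.X ^ M * (r ^ e a * ((V a).map PowerSeries.C).eval z) := by
          rw [hV a, Polynomial.map_mul, eval_mul, Polynomial.map_pow, eval_pow,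
            Polynomial.map_sub, Polynomial.map_X, Polynomial.map_C, eval_sub, eval_X, eval_C, hz,
            add_sub_cancel_left, mul_pow, ← pow_mul, hme a ha, mul_assoc]
        rw [hr2, hF0, Polynomial.map_sub, eval_sub, Polynomial.map_mul, eval_mul, Polynomial.map_C,
          eval_C] at h3
        rw [htR]
        linear_combination h3
      · exact ⟨0, fun _ h => absurd h hw⟩
    · exact ⟨0, fun h => absurd h ha⟩
  choose r hr using hrex
  set zz : (_ : ℂ) × ℂ → PowerSeries ℂ := fun x =>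
    PowerSeries.C x.1 + PowerSeries.X ^ m x.1 * r x.1 x.2 with hzz
  set T : Finset ((_ : ℂ) × ℂ) := Z.sigma W with hT
  have hTm : ∀ x, x ∈ T ↔ x.1 ∈ Z ∧ x.2 ∈ W x.1 := fun x => Finset.mem_sigma
  have hTc : T.card = A.n := by
    rw [hT, Finset.card_sigma, ← hsum]
    exact Finset.sum_congr rfl fun a ha => (hW a ha).1
  have hz0 : ∀ x ∈ T, PowerSeries.constantCoeff (zz x) = x.1 := by
    intro x hx
    rw [hTm] at hx
    rw [hzz]
    simp only [map_add, map_mul, map_pow, PowerSeries.constantCoeff_X, PowerSeries.constantCoeff_C]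
    rw [zero_pow (by have := hm1 x.1 hx.1; omega), zero_mul, add_zero]
  have hz1 : ∀ x ∈ T, PowerSeries.coeff (m x.1) (zz x) = x.2 := by
    intro x hx
    rw [hTm] at hx
    have h1 := hm1 x.1 hx.1
    rw [hzz]
    simp only [map_add]
    rw [PowerSeries.coeff_C, if_neg (by omega), zero_add]
    have h2 := PowerSeries.coeff_X_pow_mul (r x.1 x.2) (m x.1) 0
    rw [zero_add] at h2
    rw [h2, PowerSeries.coeff_zero_eq_constantCoeff_apply]
    exact (hr x.1 x.2 hx.1 hx.2).1
  have hzroot : ∀ x ∈ T, (A.P.map PowerSeries.C).eval (zz x) -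
      tR * (A.Q.map PowerSeries.C).eval (zz x) = 0 := by
    intro x hx
    rw [hTm] at hx
    exact (hr x.1 x.2 hx.1 hx.2).2
  have hzinj : ∀ x ∈ T, ∀ y ∈ T, zz x = zz y → x = y := by
    rintro ⟨a, w⟩ hx ⟨b, v⟩ hy hxy
    have h1 := hz0 _ hx
    rw [hxy, hz0 _ hy] at h1
    simp only at h1
    subst h1
    have h2 := hz1 _ hx
    rw [hxy] at h2
    have h3 := hz1 _ hy
    simp only at h2 h3
    rw [h3] at h2
    rw [h2]
  -- the field
  set tF : Laurent_F := algebraMap (PowerSeries ℂ) Laurent_F tR with htF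
  set H : Laurent_F[X] := A.P.map (algebraMap ℂ Laurent_F) -
    C tF * A.Q.map (algebraMap ℂ Laurent_F) with hH
  have hHdlt : (C tF * A.Q.map (algebraMap ℂ Laurent_F)).natDegree <
      (A.P.map (algebraMap ℂ Laurent_F)).natDegree := by
    refine (natDegree_C_mul_le _ _).trans_lt ?_
    rw [natDegree_map, natDegree_map]
    exact hlt
  have hHm : H.Monic := (hm.map _).sub_of_left (degree_lt_degree hHdlt)
  have hHd : H.natDegree = A.n := by
    rw [hH, natDegree_sub_eq_left_of_natDegree_lt hHdlt, natDegree_map, hPd]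
  have hH0 : H ≠ 0 := hHm.ne_zero
  have hHev : ∀ z : Laurent_F, H.eval z = aeval z A.P - tF * aeval z A.Q := by
    intro z
    rw [hH, eval_sub, eval_mul, eval_C, eval_map_algebraMap, eval_map_algebraMap]
  set S : Finset Laurent_F := T.image fun x => algebraMap (PowerSeries ℂ) Laurent_F (zz x) with hS
  have hSc : S.card = A.n := by
    rw [hS, Finset.card_image_of_injOn, hTc]
    intro x hx y hy hxy
    exact hzinj x hx y hy (Laurent_inj hxy)
  have hSm : ∀ z, z ∈ S ↔ ∃ x ∈ T, algebraMap (PowerSeries ℂ) Laurent_F (zz x) = z := by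
    intro z
    rw [hS, Finset.mem_image]
  have hSr : ∀ z ∈ S, z ∈ H.roots := by
    intro z hz
    obtain ⟨x, hx, rfl⟩ := (hSm z).1 hz
    rw [mem_roots hH0, IsRoot.def, hHev, Laurent_aeval, Laurent_aeval, htF, ← map_mul, ← map_sub,
      hzroot x hx, map_zero]
  have hle : S.val ≤ H.roots := (Multiset.le_iff_subset S.nodup).2 fun z hz => hSr z hz
  have hcard : Multiset.card H.roots ≤ Multiset.card S.val := by
    have h1 := card_roots' H
    rw [hHd, ← hSc] at h1
    exact h1
  have hSH : S.val = H.roots := Multiset.eq_of_le_of_card_le hle hcard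
  have hprod : H = ∏ z ∈ S, (X - C z) := by
    have h1 : Multiset.card H.roots = H.natDegree := by
      rw [← hSH, hHd, ← hSc]
      rfl
    have h2 := prod_multiset_X_sub_C_of_monic_of_roots_card_eq hHm h1
    rw [← h2, ← hSH]
    rfl
  have hSroot : ∀ z, H.eval z = 0 → z ∈ S := by
    intro z hz
    have h1 : z ∈ H.roots := (mem_roots hH0).2 hz
    rw [← hSH] at h1
    exact h1
  -- the automorphism
  set ζ : ℂ := Complex.exp (2 * Real.pi * Complex.I / M) with hζd
  have hζ : IsPrimitiveRoot ζ M := Complex.isPrimitiveRoot_exp M (by omega)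
  have hζ0 : ζ ≠ 0 := hζ.ne_zero (by omega)
  set σ := Laurent_sigma ζ hζ0 with hσ
  have hσt : σ tF = tF := by
    rw [hσ, htF, Laurent_sigma_map]
    congr 1
    rw [htR, map_add, map_pow, PowerSeries.rescale_X, mul_pow, ← map_pow, hζ.pow_eq_one, map_one,
      one_mul]
    congr 1
    ext n
    rw [PowerSeries.coeff_rescale, PowerSeries.coeff_C]
    split_ifs with h
    · rw [h, pow_zero, one_mul]
    · rw [mul_zero]
  have hσkt : ∀ k : ℕ, (σ ^ k) tF = tF := by
    intro k
    induction k with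
    | zero => rfl
    | succ k ih => rw [pow_succ, AlgEquiv.mul_apply, hσt, ih]
  have hσS : ∀ (k : ℕ), ∀ z ∈ S, (σ ^ k) z ∈ S := by
    intro k z hz
    apply hSroot
    have h1 : H.eval z = 0 := (mem_roots hH0).1 (hSr z hz)
    rw [hHev] at h1
    rw [hHev]
    have h2 := congrArg (σ ^ k) h1
    rw [map_sub, map_mul, map_zero, hσkt, ← aeval_algHom_apply, ← aeval_algHom_apply] at h2
    exact h2
  refine ⟨Laurent_F, inferInstance, inferInstance, Laurent_O, tF, σ, S, Laurent_pt, ?_, ?_, ?_,
    hσt, hprod, ?_, ?_, ?_⟩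
  · intro a
    rw [Laurent_alg]
    exact Laurent_mem_O _
  · intro a h
    rw [Laurent_alg, htF] at h
    have h1 := congrArg (PowerSeries.coeff M) (Laurent_inj h)
    rw [htR, map_add, PowerSeries.coeff_C, PowerSeries.coeff_C, if_neg (by omega),
      if_neg (by omega), PowerSeries.coeff_X_pow, if_pos rfl, zero_add] at h1
    exact one_ne_zero h1
  · change tF - algebraMap ℂ Laurent_F c ∈ Laurent_O.nonunits
    rw [Laurent_alg, htF, ← map_sub]
    apply Laurent_nonunits
    rw [htR, add_sub_cancel_left, map_pow, PowerSeries.constantCoeff_X, zero_pow (by omega)]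
  · intro z hz
    obtain ⟨x, hx, rfl⟩ := (hSm z).1 hz
    rw [Laurent_pt_map]
    change _ - algebraMap ℂ Laurent_F _ ∈ Laurent_O.nonunits
    rw [Laurent_alg, ← map_sub]
    apply Laurent_nonunits
    rw [map_sub, PowerSeries.constantCoeff_C, sub_self]
  · intro z hz
    obtain ⟨x, hx, rfl⟩ := (hSm z).1 hz
    rw [hσ, Laurent_sigma_map, Laurent_pt_map, Laurent_pt_map,
      ← PowerSeries.coeff_zero_eq_constantCoeff_apply, PowerSeries.coeff_rescale, pow_zero,
      one_mul, PowerSeries.coeff_zero_eq_constantCoeff_apply]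
  · intro z hz z' hz' hpt
    obtain ⟨⟨a, w⟩, hx, rfl⟩ := (hSm z).1 hz
    obtain ⟨⟨a', w'⟩, hx', rfl⟩ := (hSm z').1 hz'
    rw [Laurent_pt_map, Laurent_pt_map, hz0 _ hx, hz0 _ hx'] at hpt
    simp only at hpt
    subst hpt
    have h1 := (hTm _).1 hx
    have h1' := (hTm _).1 hx'
    simp only at h1 h1'
    have hw := ((hW a h1.1).2 w).1 h1.2
    have hw' := ((hW a h1.1).2 w').1 h1'.2
    have hw0 : w ≠ 0 := by
      rintro rfl
      rw [zero_pow (by have := he1 a h1.1; omega)] at hw
      exact hκ0 a h1.1 hw.symm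
    have hprim : IsPrimitiveRoot (ζ ^ m a) (e a) := hζ.pow hM1 (hme a h1.1).symm
    have hpow : (w' / w) ^ e a = 1 := by
      rw [div_pow, hw, hw', div_self (hκ0 a h1.1)]
    have : NeZero (e a) := ⟨by have := he1 a h1.1; omega⟩
    obtain ⟨k, -, hk⟩ := hprim.eq_pow_of_pow_eq_one hpow
    refine ⟨k, ?_⟩
    obtain ⟨⟨b, v⟩, hy, hyz⟩ := (hSm _).1 (hσS k _ hz)
    rw [hσ, Laurent_sigma_pow] at hyz ⊢
    have hyz' := Laurent_inj hyz
    have h3 : b = a := by
      have h4 := hz0 _ hy
      rw [hyz', ← PowerSeries.coeff_zero_eq_constantCoeff_apply, PowerSeries.coeff_rescale,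
        pow_zero, one_mul, PowerSeries.coeff_zero_eq_constantCoeff_apply, hz0 _ hx] at h4
      exact h4.symm
    subst h3
    have h5 : v = w' := by
      have h6 := hz1 _ hy
      rw [hyz', PowerSeries.coeff_rescale, hz1 _ hx] at h6
      simp only at h6
      rw [← h6, ← pow_mul, mul_comm k, pow_mul, hk, div_mul_cancel₀ _ hw0]
    subst h5
    rw [← hyz']

end WildH
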