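import Pool.Agent.helper21.HD.Gal
import Pool.Agent.helper21.HD.Laurent

/-! Conjugate valuation rings, and an automorphism with the cycle structure of the fibre. -/

namespace WildH

open Polynomial WildRat WildS WildV

/-- The prime ideal of the integral closure given by a valuation ring. -/
theorem Conj_ideal {N : Type} [Field N] [Algebra ℂ N] [Algebra E N] [Algebra ℂ[X] N]
    [IsScalarTower ℂ E N] [IsScalarTower ℂ[X] E N]
    (O : ValuationSubring N) (hC : ∀ c : ℂ, algebraMap ℂ N c ∈ O) {c : ℂ}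
    (ht : Near O (algebraMap ℂ[X] N X) c) :
    ∃ 𝔔 : Ideal (integralClosure ℂ[X] N), 𝔔.IsPrime ∧
      𝔔.LiesOver (Ideal.span {(X - C c : ℂ[X])}) ∧
      ∀ s : integralClosure ℂ[X] N, s ∈ 𝔔 ↔ (s : N) ∈ O.nonunits := by
  classical
  have hX : algebraMap ℂ[X] N X ∈ O := by
    have h1 : algebraMap ℂ[X] N X - algebraMap ℂ N c ∈ O := O.nonunits_le ht
    have h3 := O.add_mem _ _ h1 (hC c)
    rwa [sub_add_cancel] at h3
  have hCC : ∀ a : ℂ, algebraMap ℂ[X] N (C a) = algebraMap ℂ N a := fun a => by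
    rw [IsScalarTower.algebraMap_apply ℂ[X] E N, ← algC_E, ← IsScalarTower.algebraMap_apply]
  let S := integralClosure ℂ[X] N
  have hS : ∀ s : S, (s : N) ∈ O := fun s => Transp_integral O hC hX s.2
  let 𝔔 : Ideal S :=
    { carrier := {s | (s : N) ∈ O.nonunits}
      zero_mem' := O.nonunits.zero_mem
      add_mem' := fun {a b} ha hb => O.nonunits.add_mem ha hb
      smul_mem' := by
        intro a b hb
        show ((a * b : S) : N) ∈ O.nonunits
        have h1 := (IsLocalRing.maximalIdeal O).mul_mem_left ⟨a, hS a⟩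
          (O.coe_mem_nonunits_iff.1 (show ((⟨b, hS b⟩ : O) : N) ∈ O.nonunits from hb))
        exact O.coe_mem_nonunits_iff.2 h1 }
  have hmem : ∀ s : S, s ∈ 𝔔 ↔ (s : N) ∈ O.nonunits := fun s => Iff.rfl
  have hprime : 𝔔.IsPrime := by
    refine ⟨?_, ?_⟩
    · intro h
      have h1 : (1 : S) ∈ 𝔔 := by rw [h]; trivial
      rw [hmem] at h1
      rw [O.mem_nonunits_iff] at h1
      simp at h1
    · intro a b hab
      rw [hmem] at hab
      have h1 : (⟨a, hS a⟩ * ⟨b, hS b⟩ : O) ∈ IsLocalRing.maximalIdeal O :=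
        O.coe_mem_nonunits_iff.1 hab
      rcases (IsLocalRing.maximalIdeal.isMaximal O).isPrime.mem_or_mem h1 with h2 | h2
      · exact Or.inl (O.coe_mem_nonunits_iff.2 h2)
      · exact Or.inr (O.coe_mem_nonunits_iff.2 h2)
  have hmax : (Ideal.span {(X - C c : ℂ[X])}).IsMaximal :=
    PrincipalIdealRing.isMaximal_of_irreducible (irreducible_X_sub_C c)
  have hle : Ideal.span {(X - C c : ℂ[X])} ≤ 𝔔.under ℂ[X] := by
    rw [Ideal.span_singleton_le_iff_mem, Ideal.under_def, Ideal.mem_comap, hmem]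
    have h1 : ((algebraMap ℂ[X] S (X - C c) : S) : N) = algebraMap ℂ[X] N X - algebraMap ℂ N c := by
      show algebraMap ℂ[X] N (X - C c) = _
      rw [map_sub, hCC]
    rw [h1]
    exact ht
  have hover : 𝔔.LiesOver (Ideal.span {(X - C c : ℂ[X])}) := by
    refine ⟨hmax.eq_of_le ?_ hle⟩
    exact (Ideal.IsPrime.under ℂ[X] 𝔔).ne_top
  exact ⟨𝔔, hprime, hover, hmem⟩

/-- Valuation rings of a finite Galois extension of `E` over the same point are conjugate (tested on
the elements integral over the polynomials).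

Proof.  Compare `Transp_inertia` in WS/Transp.lean for the setup.  Let `B = integralClosure ℂ[X] N`; the
elements of `B` lie in `O1`, `O2` (`Transp_integral`), `p1 = {b | b ∈ O1.nonunits}` and `p2` are prime
ideals of `B` over `(X - c)` (they contain `X - c`, not `1`; the maximal ideal generated by `X - c`).
The Galois group acts transitively on the primes of `B` over a prime of `ℂ[X]`
(`Ideal.exists_smul_eq_of_comap_eq`, `Ideal.exists_map_eq_of_isGalois`,
`MulSemiringAction ... IsInvariant`, whatever form is in Mathlib), so there is `g` with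
`g p2 = p1`. -/
theorem conj_places {N : Type} [Field N] [Algebra ℂ N] [Algebra E N] [Algebra ℂ[X] N]
    [IsScalarTower ℂ E N] [IsScalarTower ℂ[X] E N] [FiniteDimensional E N] [IsGalois E N]
    (O1 O2 : ValuationSubring N) (h1 : ∀ c : ℂ, algebraMap ℂ N c ∈ O1)
    (h2 : ∀ c : ℂ, algebraMap ℂ N c ∈ O2) {c : ℂ} (ht1 : Near O1 (algebraMap ℂ[X] N X) c)
    (ht2 : Near O2 (algebraMap ℂ[X] N X) c) :
    ∃ g : N ≃ₐ[E] N, ∀ z : N, IsIntegral ℂ[X] z → (g z ∈ O1.nonunits ↔ z ∈ O2.nonunits) := by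
  obtain ⟨P, hP, hPl, hPm⟩ := Conj_ideal O1 h1 ht1
  obtain ⟨Q, hQ, hQl, hQm⟩ := Conj_ideal O2 h2 ht2
  have : IsFractionRing (integralClosure ℂ[X] N) N :=
    integralClosure.isFractionRing_of_finite_extension E N
  have : IsGaloisGroup (N ≃ₐ[E] N) ℂ[X] (integralClosure ℂ[X] N) :=
    IsGaloisGroup.of_isFractionRing _ _ _ E N
  obtain ⟨g, hg⟩ := Ideal.exists_smul_eq_of_isGaloisGroup (Ideal.span {(X - C c : ℂ[X])}) Q P
    (N ≃ₐ[E] N)
  refine ⟨g, fun z hz => ?_⟩
  have h3 : g • (⟨z, hz⟩ : integralClosure ℂ[X] N) ∈ P ↔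
      (⟨z, hz⟩ : integralClosure ℂ[X] N) ∈ Q := by
    rw [← hg]
    exact Ideal.smul_mem_pointwise_smul_iff
  rw [hPm, hQm] at h3
  exact h3

/-- Comap of a valuation subring: nonunits. -/
theorem Conj_comap {N L : Type} [Field N] [Field L] (f : N →+* L) (O : ValuationSubring L) (z : N) :
    z ∈ (O.comap f).nonunits ↔ f z ∈ O.nonunits := by
  rw [(O.comap f).mem_nonunits_iff_or, O.mem_nonunits_iff_or]
  have h3 : z = 0 ↔ f z = 0 := by simp
  have h4 : z⁻¹ ∈ O.comap f ↔ (f z)⁻¹ ∈ O := by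
    rw [ValuationSubring.mem_comap, map_inv₀]
  rw [h3, h4]

/-- The core: embeddings of the splitting field into `L` and into `F`. -/
theorem Conj_core {A : RF} (hn : 1 ≤ A.n) (hm : A.P.Monic)
    (hlt : A.Q.natDegree < A.P.natDegree) {c : ℂ} {L : Type} [Field L] [Algebra ℂ L]
    {δ : E →ₐ[ℂ] L} (hL : Amb δ) (O : ValuationSubring L) (hO : ∀ c : ℂ, algebraMap ℂ L c ∈ O)
    (ht : Near O (δ RatFunc.X) c) (F : Type) [Field F] [Algebra ℂ F] (OF : ValuationSubring F)
    (tF : F) (σ : F ≃ₐ[ℂ] F) (s : Finset F) (pt : F → ℂ)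
    (hOF : ∀ a : ℂ, algebraMap ℂ F a ∈ OF) (hNC : NonConst tF) (htF : Near OF tF c)
    (hσ : σ tF = tF)
    (hs : A.P.map (algebraMap ℂ F) - C tF * A.Q.map (algebraMap ℂ F) = ∏ z ∈ s, (X - C z))
    (hpt : ∀ z ∈ s, Near OF z (pt z)) (hptσ : ∀ z ∈ s, pt (σ z) = pt z)
    (htr : ∀ z ∈ s, ∀ z' ∈ s, pt z = pt z' → ∃ k : ℕ, (σ ^ k) z = z') :
    ∃ σ : L ≃ₐ[ℂ] L, σ (δ RatFunc.X) = δ RatFunc.X ∧
      (∀ z, Sol A (δ RatFunc.X) z → ∀ a, Near O z a → Near O (σ z) a) ∧
      ∀ z z', Sol A (δ RatFunc.X) z → Sol A (δ RatFunc.X) z' → ∀ a, Near O z a → Near O z' a →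
        ∃ k : ℕ, (σ ^ k) z = z' := by
  classical
  have hLc := hL.closed
  -- algebra structures
  let _ : Algebra E L := δ.toRingHom.toAlgebra
  have hEL : ∀ r : E, algebraMap E L r = δ r := fun r => rfl
  have i1 : IsScalarTower ℂ E L := IsScalarTower.of_algebraMap_eq fun a => (δ.commutes a).symm
  have i4 : Algebra.IsIntegral E L := ⟨fun x => hL.alg x⟩
  have i5 : IsAlgClosure E L := ⟨inferInstance, inferInstance⟩
  have i6 : Normal E L := IsAlgClosure.normal E _
  obtain ⟨α, hα⟩ := exists_subst (elt_nonConst A hn)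
  let g0 : E[X] := A.P.map (algebraMap ℂ E) - C RatFunc.X * A.Q.map (algebraMap ℂ E)
  have hg0 : g0.map α.toRingHom = GG A := by
    have h3 : α.toRingHom.comp (algebraMap ℂ E) = algebraMap ℂ E := by
      ext a
      exact α.commutes a
    have h4 : α.toRingHom RatFunc.X = elt A := hα
    simp only [g0, GG, Polynomial.map_sub, Polynomial.map_mul, map_C, Polynomial.map_map, h3, h4]
  have hg0m : g0.Monic := by
    refine (hm.map _).sub_of_left ?_
    rw [degree_eq_natDegree (hm.map _).ne_zero, natDegree_map]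
    refine (degree_mul_le _ _).trans_lt ?_
    rw [degree_C RatFunc.X_ne_zero, zero_add]
    refine (degree_map_le).trans_lt ?_
    exact (degree_le_natDegree).trans_lt (by exact_mod_cast hlt)
  have hg0sep : g0.Separable := by
    have h3 := GG_separable A hn
    rw [← hg0] at h3
    exact separable_map _ |>.1 h3
  let N := IntermediateField.adjoin E (g0.rootSet L)
  have i7 : g0.IsSplittingField E N :=
    IntermediateField.adjoin_rootSet_isSplittingField (IsAlgClosed.splits _)
  have i8 : IsGalois E N := IsGalois.of_separable_splitting_field hg0sep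
  have i9 : FiniteDimensional E N := Polynomial.IsSplittingField.finiteDimensional N g0
  let _ : Algebra ℂ[X] N := ((algebraMap E N).comp (algebraMap ℂ[X] E)).toAlgebra
  have i2 : IsScalarTower ℂ[X] E N := IsScalarTower.of_algebraMap_eq fun _ => rfl
  have htN : algebraMap ℂ[X] N X = algebraMap E N RatFunc.X := by
    rw [IsScalarTower.algebraMap_apply ℂ[X] E N, RatFunc.algebraMap_X]
  have htL : ((algebraMap ℂ[X] N X : N) : L) = δ RatFunc.X := by
    rw [htN]
    rfl
  have hcN : ∀ a : ℂ, ((algebraMap ℂ N a : N) : L) = algebraMap ℂ L a := fun a => by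
    rw [IsScalarTower.algebraMap_apply ℂ E N, IsScalarTower.algebraMap_apply ℂ E L]
    rfl
  have hrootL : ∀ z : L, z ∈ g0.rootSet L ↔ Sol A (δ RatFunc.X) z := by
    intro z
    rw [mem_rootSet_of_ne hg0m.ne_zero]
    have h3 : aeval z g0 = aeval z A.P - δ RatFunc.X * aeval z A.Q := by
      simp only [g0, map_sub, map_mul, aeval_C, aeval_map_algebraMap, hEL]
    rw [h3, sub_eq_zero]
    rfl
  have hrootN : ∀ z : N, aeval z g0 = 0 ↔ Sol A (δ RatFunc.X) (z : L) := by
    intro z
    rw [← hrootL, mem_rootSet_of_ne hg0m.ne_zero]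
    have h3 : aeval (z : L) g0 = algebraMap N L (aeval z g0) := aeval_algebraMap_apply _ z g0
    rw [h3]
    exact (map_eq_zero (algebraMap N L)).symm
  -- the valuation rings
  let ON : ValuationSubring N := O.comap (algebraMap N L)
  have hON : ∀ z : N, z ∈ ON.nonunits ↔ (z : L) ∈ O.nonunits := Conj_comap (algebraMap N L) O
  have hONc : ∀ a : ℂ, algebraMap ℂ N a ∈ ON := fun a => by
    show ((algebraMap ℂ N a : N) : L) ∈ O
    rw [hcN]
    exact hO a
  have hONt : Near ON (algebraMap ℂ[X] N X) c := by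
    show algebraMap ℂ[X] N X - algebraMap ℂ N c ∈ ON.nonunits
    rw [hON]
    have h3 : ((algebraMap ℂ[X] N X - algebraMap ℂ N c : N) : L) =
        δ RatFunc.X - algebraMap ℂ L c := by
      rw [← htL, ← hcN]
      rfl
    rw [h3]
    exact ht
  -- the embedding in `F`
  obtain ⟨ι, hι⟩ := exists_subst hNC
  let _ : Algebra E F := ι.toRingHom.toAlgebra
  have hEF : ∀ r : E, algebraMap E F r = ι r := fun r => rfl
  have i11 : IsScalarTower ℂ E F := IsScalarTower.of_algebraMap_eq fun a => (ι.commutes a).symm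
  have hgF : g0.map (algebraMap E F) = ∏ z ∈ s, (X - C z) := by
    rw [← hs]
    simp only [g0, Polynomial.map_sub, Polynomial.map_mul, map_C, Polynomial.map_map,
      ← IsScalarTower.algebraMap_eq, hEF, hι]
  have hsplF : (g0.map (algebraMap E F)).Splits := by
    rw [hgF]
    exact Splits.prod fun z _ => Splits.X_sub_C z
  let ρ0 : N →ₐ[E] F := IsSplittingField.lift N g0 hsplF
  let OF' : ValuationSubring N := OF.comap ρ0.toRingHom
  have hOF' : ∀ z : N, z ∈ OF'.nonunits ↔ ρ0 z ∈ OF.nonunits := Conj_comap ρ0.toRingHom OF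
  have hρc : ∀ a : ℂ, ρ0 (algebraMap ℂ N a) = algebraMap ℂ F a := fun a => by
    rw [IsScalarTower.algebraMap_apply ℂ E N, ρ0.commutes, ← IsScalarTower.algebraMap_apply]
  have hOFc : ∀ a : ℂ, algebraMap ℂ N a ∈ OF' := fun a => by
    show ρ0 (algebraMap ℂ N a) ∈ OF
    rw [hρc]
    exact hOF a
  have hOFt : Near OF' (algebraMap ℂ[X] N X) c := by
    show algebraMap ℂ[X] N X - algebraMap ℂ N c ∈ OF'.nonunits
    rw [hOF', map_sub, hρc, htN, ρ0.commutes, hEF, hι]
    exact htF
  obtain ⟨g, hg⟩ := conj_places OF' ON hOFc hONc hOFt hONt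
  let ρ : N →ₐ[E] F := ρ0.comp (g : N →ₐ[E] N)
  have hρ : ∀ z : N, IsIntegral ℂ[X] z → (ρ z ∈ OF.nonunits ↔ (z : L) ∈ O.nonunits) := by
    intro z hz
    rw [← hON, ← hg z hz, hOF']
    rfl
  have hρc : ∀ a : ℂ, ρ (algebraMap ℂ N a) = algebraMap ℂ F a := fun a => by
    rw [IsScalarTower.algebraMap_apply ℂ E N, ρ.commutes, ← IsScalarTower.algebraMap_apply]
  -- roots in `F`
  have hmems : ∀ z : F, z ∈ s ↔ aeval z g0 = 0 := by
    intro z
    rw [← eval_map_algebraMap, hgF, eval_prod, Finset.prod_eq_zero_iff]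
    constructor
    · intro hz
      exact ⟨z, hz, by simp⟩
    · rintro ⟨a, ha, ha'⟩
      rw [eval_sub, eval_X, eval_C, sub_eq_zero] at ha'
      rw [ha']
      exact ha
  have hρs : ∀ z : N, ρ z ∈ s ↔ aeval z g0 = 0 := by
    intro z
    rw [hmems, aeval_algHom_apply, map_eq_zero]
  -- integrality
  have hint : ∀ z : N, aeval z g0 = 0 → ∀ a : ℂ, IsIntegral ℂ[X] (z - algebraMap ℂ N a) := by
    intro z hz a
    have hCC : ∀ a : ℂ, algebraMap ℂ[X] N (C a) = algebraMap ℂ N a := fun a => by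
      rw [IsScalarTower.algebraMap_apply ℂ[X] E N, ← algC_E, ← IsScalarTower.algebraMap_apply]
    refine IsIntegral.sub ?_ ?_
    · refine ⟨A.P.map C - C X * A.Q.map C, ?_, ?_⟩
      · refine (hm.map C).sub_of_left ?_
        rw [degree_eq_natDegree (hm.map C).ne_zero, natDegree_map]
        refine (degree_mul_le _ _).trans_lt ?_
        rw [degree_C X_ne_zero, zero_add]
        refine (degree_map_le (f := C) (p := A.Q)).trans_lt ?_
        exact (degree_le_natDegree).trans_lt (by exact_mod_cast hlt)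
      · rw [eval₂_sub, eval₂_mul, eval₂_C, eval₂_map, eval₂_map]
        have h4 : (algebraMap ℂ[X] N).comp C = algebraMap ℂ N := by
          ext a
          exact congrArg Subtype.val (hCC a)
        rw [h4, ← aeval_def, ← aeval_def]
        have h5 : aeval z g0 = aeval z A.P - algebraMap E N RatFunc.X * aeval z A.Q := by
          simp only [g0, map_sub, map_mul, aeval_C, aeval_map_algebraMap]
        rw [htN, ← h5, hz]
    · rw [← hCC]
      exact isIntegral_algebraMap
  have hnear : ∀ z : N, aeval z g0 = 0 → ∀ a : ℂ, Near O (z : L) a ↔ Near OF (ρ z) a := by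
    intro z hz a
    have h3 := hρ _ (hint z hz a)
    rw [map_sub, hρc] at h3
    have h4 : ((z - algebraMap ℂ N a : N) : L) = (z : L) - algebraMap ℂ L a := by
      rw [← hcN]
      rfl
    rw [h4] at h3
    exact h3.symm
  have hpteq : ∀ z ∈ s, ∀ a, Near OF z a → pt z = a := by
    intro z hz a ha
    have h3 := OF.nonunits.sub_mem ha (hpt z hz)
    rw [sub_sub_sub_cancel_left, ← map_sub] at h3
    exact sub_eq_zero.1 (Transp_const OF hOF h3)
  -- the automorphism of `N`
  have hσE : ∀ r : E, σ (algebraMap E F r) = algebraMap E F r := by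
    have h3 : (σ : F →ₐ[ℂ] F).comp ι = ι := by
      apply coord_ext
      show σ (ι RatFunc.X) = ι RatFunc.X
      rw [hι, hσ]
    intro r
    exact DFunLike.congr_fun h3 r
  let σE : F ≃ₐ[E] F := AlgEquiv.ofRingEquiv (f := (σ : F ≃+* F)) hσE
  have hσE' : ∀ z, σE z = σ z := fun z => rfl
  let _ : Algebra N F := ρ.toRingHom.toAlgebra
  have hNF : ∀ r : N, algebraMap N F r = ρ r := fun r => rfl
  have i12 : IsScalarTower E N F := IsScalarTower.of_algebraMap_eq fun a => (ρ.commutes a).symm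
  let σN : N ≃ₐ[E] N := σE.restrictNormal N
  have hσN : ∀ z : N, ρ (σN z) = σ (ρ z) := fun z => σE.restrictNormal_commutes N z
  let σL : L ≃ₐ[E] L := σN.liftNormal L
  have hσL : ∀ z : N, σL (z : L) = (σN z : L) := fun z => σN.liftNormal_commutes L z
  have hσL0 : ∀ z : N, aeval z g0 = 0 → aeval (σN z) g0 = 0 := by
    intro z hz
    rw [aeval_algHom_apply σN z g0, hz, map_zero]
  refine ⟨σL.restrictScalars ℂ, σL.commutes RatFunc.X, ?_, ?_⟩
  · intro z hz a ha
    have hzN : z ∈ N := IntermediateField.subset_adjoin _ _ ((hrootL z).2 hz)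
    have h3 : aeval (⟨z, hzN⟩ : N) g0 = 0 := (hrootN _).2 hz
    have h4 := (hnear ⟨z, hzN⟩ h3 a).1 ha
    have h5 := hpteq _ ((hρs _).2 h3) _ h4
    have h6 := hpt _ ((hρs _).2 (hσL0 _ h3))
    have h7 := hptσ _ ((hρs _).2 h3)
    rw [hσN, h7, h5, ← hσN] at h6
    have h8 := (hnear _ (hσL0 _ h3) a).2 h6
    rw [← hσL] at h8
    exact h8
  · intro z z' hz hz' a ha ha'
    have hzN : z ∈ N := IntermediateField.subset_adjoin _ _ ((hrootL z).2 hz)
    have hzN' : z' ∈ N := IntermediateField.subset_adjoin _ _ ((hrootL z').2 hz')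
    have h3 : aeval (⟨z, hzN⟩ : N) g0 = 0 := (hrootN _).2 hz
    have h3' : aeval (⟨z', hzN'⟩ : N) g0 = 0 := (hrootN _).2 hz'
    have h5 := hpteq _ ((hρs _).2 h3) _ ((hnear ⟨z, hzN⟩ h3 a).1 ha)
    have h5' := hpteq _ ((hρs _).2 h3') _ ((hnear ⟨z', hzN'⟩ h3' a).1 ha')
    obtain ⟨k, hk⟩ := htr _ ((hρs _).2 h3) _ ((hρs _).2 h3') (h5.trans h5'.symm)
    refine ⟨k, ?_⟩
    have h6 : ∀ k : ℕ, ρ ((σN ^ k) ⟨z, hzN⟩) = (σ ^ k) (ρ ⟨z, hzN⟩) := by
      intro k
      induction k with
      | zero => rfl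
      | succ k ih =>
        rw [pow_succ', pow_succ', AlgEquiv.mul_apply, AlgEquiv.mul_apply, ← ih, hσN]
    have h7 : ∀ k : ℕ, ((σL.restrictScalars ℂ) ^ k) z = ((σN ^ k) ⟨z, hzN⟩ : N) := by
      intro k
      induction k with
      | zero => rfl
      | succ k ih =>
        rw [pow_succ', pow_succ', AlgEquiv.mul_apply, AlgEquiv.mul_apply, ih]
        exact hσL _
    rw [h7, ρ.toRingHom.injective ((h6 k).trans hk)]

/-- **The inertia automorphism.**

Proof.  Let `F, OF, tF, σF, s, pt` be the data of `laurent_data`.  `L` is an `E`-algebra through `δ`; let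
`N ⊆ L` be the splitting field of `P - t Q` (`IntermediateField.adjoin E` of the roots,
`Amb.roots`), finite and Galois over `E`.  Since `P - tF Q` splits in `F`, the homomorphism
`E → F`, `X ↦ tF` (`exists_subst`) extends to `ρ : N →ₐ[ℂ] F` (`IsSplittingField.lift` or
`IntermediateField` lifting), and `ρ` maps the solutions in `L` bijectively to `s`.  The valuation rings
`O ∩ N` (`ValuationSubring.comap`) and `ρ⁻¹ (OF)` satisfy the hypotheses of `conj_places`; composing `ρ` with
`g` we may assume that for `z ∈ N` integral over `ℂ[t]`: `z ∈ O.nonunits ↔ ρ z ∈ OF.nonunits`.  The solutions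
are integral over `ℂ[t]` (`P - t Q` is monic in the variable).  So a solution `z` is near `a` iff `ρ z` is
near `a` iff `pt (ρ z) = a` (a solution is near exactly one complex number: constants in the
maximal ideal vanish, `Transp_const`).  `σF` permutes `s` (it fixes `tF`), so it maps `ρ(N)`, generated by
`tF` and `s`, onto itself; `σN = ρ⁻¹ σF ρ` is an automorphism of `N` over `E`; extend it to an automorphism
`σ` of `L` (`L` is an algebraic closure of `N`; `AlgEquiv.liftNormal` or `IsAlgClosure.equiv`), with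
`σ t = t`.  Read off the two properties. -/
theorem exists_sigma {A : RF} (hn : 1 ≤ A.n) (hm : A.P.Monic)
    (hlt : A.Q.natDegree < A.P.natDegree) {c : ℂ} {L : Type} [Field L] [Algebra ℂ L]
    {δ : E →ₐ[ℂ] L} (hL : Amb δ) (O : ValuationSubring L) (hO : ∀ c : ℂ, algebraMap ℂ L c ∈ O)
    (ht : Near O (δ RatFunc.X) c) :
    ∃ σ : L ≃ₐ[ℂ] L, σ (δ RatFunc.X) = δ RatFunc.X ∧
      (∀ z, Sol A (δ RatFunc.X) z → ∀ a, Near O z a → Near O (σ z) a) ∧
      ∀ z z', Sol A (δ RatFunc.X) z → Sol A (δ RatFunc.X) z' → ∀ a, Near O z a → Near O z' a →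
        ∃ k : ℕ, (σ ^ k) z = z' := by
  obtain ⟨F, i1, i2, OF, tF, σ, s, pt, h1, h2, h3, h4, h5, h6, h7, h8⟩ :=
    laurent_data A hn hm hlt c
  exact Conj_core hn hm hlt hL O hO ht F OF tF σ s pt h1 h2 h3 h4 h5 h6 h7 h8

end WildH
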