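import Pool.Agent.helper21.HD.Conj

/-! The cycle of length `l`. -/

namespace WildH

open Polynomial WildRat WildS WildV

variable {L : Type} [Field L] [Algebra ℂ L]

/-- A solution is near exactly one complex number, which lies over `c`, and the number of solutions
near `a` is the index of `a`.  Proof: `Transp_count` (WS/Transp.lean) with the set `Amb.roots`;
uniqueness: `Transp_const`; `e_fC`, `mem_fC'` (the multiplicity of `a` in `P - c Q`). -/
theorem near_count {A : RF} (hn : 1 ≤ A.n) (hm : A.P.Monic) (hlt : A.Q.natDegree < A.P.natDegree)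
    {c : ℂ} {δ : E →ₐ[ℂ] L} (hL : Amb δ) (O : ValuationSubring L)
    (hO : ∀ c : ℂ, algebraMap ℂ L c ∈ O) (ht : Near O (δ RatFunc.X) c) :
    (∀ z, Sol A (δ RatFunc.X) z → ∃ a, Near O z a ∧ a ∈ fC A c ∧ ∀ b, Near O z b → b = a) ∧
      ∀ a ∈ fC A c, ∃ s : Finset L, (∀ z, z ∈ s ↔ Sol A (δ RatFunc.X) z ∧ Near O z a) ∧
        s.card = A.e (some a) := by
  classical
  obtain ⟨s, hs, -, hprod⟩ := Amb.roots hn hm hlt hL
  obtain ⟨-, hcount, hres⟩ := Transp_count s hprod O hO ht
  have hF : A.P - C c * A.Q ≠ 0 := A.F_ne_zero hn (some c)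
  refine ⟨?_, ?_⟩
  · intro z hz
    obtain ⟨a, ha⟩ := hres z ((hs z).2 hz)
    refine ⟨a, ha, ?_, ?_⟩
    · unfold fC
      rw [Multiset.mem_toFinset, mem_roots hF, ← rootMultiplicity_pos hF, hcount a,
        Finset.card_pos]
      exact ⟨z, Finset.mem_filter.2 ⟨(hs z).2 hz, ha⟩⟩
    · intro b hb
      have h1 := O.nonunits.sub_mem ha hb
      have h2 : z - algebraMap ℂ L a - (z - algebraMap ℂ L b) = algebraMap ℂ L (b - a) := by
        rw [map_sub]
        ring
      rw [h2] at h1
      exact sub_eq_zero.1 (Transp_const O hO h1)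
  · intro a ha
    refine ⟨s.filter fun z => z - algebraMap ℂ L a ∈ O.nonunits, ?_, ?_⟩
    · intro z
      rw [Finset.mem_filter, hs]
      exact Iff.rfl
    · rw [e_fC hn ha, hcount a]

theorem Cyc_pow (σ : L ≃ₐ[ℂ] L) (k : ℕ) (z : L) : (σ ^ k) z = (⇑σ)^[k] z := by
  induction k generalizing z with
  | zero => rfl
  | succ k ih =>
    rw [pow_succ, AlgEquiv.mul_apply, ih, Function.iterate_succ_apply]

/-- a permutation acting transitively on a finite set of `e` elements has order dividing `e` there -/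
theorem Cyc_period {X : Type*} (f : X → X) (S : Finset X)
    (hS : ∀ z ∈ S, f z ∈ S) (htr : ∀ z ∈ S, ∀ z' ∈ S, ∃ k : ℕ, f^[k] z = z') {z : X}
    (hz : z ∈ S) : f^[S.card] z = z := by
  classical
  have hit : ∀ k, f^[k] z ∈ S := by
    intro k
    induction k with
    | zero => exact hz
    | succ k ih =>
      rw [Function.iterate_succ_apply']
      exact hS _ ih
  have hper : z ∈ Function.periodicPts f := by
    obtain ⟨k, hk⟩ := htr _ (hS z hz) _ hz
    exact ⟨k + 1, Nat.succ_pos k, hk⟩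
  have hpos := Function.minimalPeriod_pos_of_mem_periodicPts hper
  have hcard : S.card = Function.minimalPeriod f z := by
    have h1 : (Finset.range (Function.minimalPeriod f z)).image (fun i => f^[i] z) = S := by
      ext y
      rw [Finset.mem_image]
      constructor
      · rintro ⟨i, -, rfl⟩
        exact hit i
      · intro hy
        obtain ⟨k, hk⟩ := htr _ hz _ hy
        refine ⟨k % Function.minimalPeriod f z, Finset.mem_range.2 (Nat.mod_lt _ hpos), ?_⟩
        rw [Function.iterate_mod_minimalPeriod_eq]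
        exact hk
    rw [← h1, Finset.card_image_of_injOn, Finset.card_range]
    intro i hi j hj hij
    exact Function.iterate_injOn_Iio_minimalPeriod (Finset.mem_range.1 hi)
      (Finset.mem_range.1 hj) hij
  rw [hcard]
  exact Function.isPeriodicPt_minimalPeriod f z

theorem Cyc_dvd {X : Type*} {f : X → X} {z : X} {e m : ℕ} (h : f^[e] z = z) (hd : e ∣ m) :
    f^[m] z = z := by
  have h1 : Function.IsPeriodicPt f e z := h
  exact h1.trans_dvd hd

theorem Cyc_mod {X : Type*} {f : X → X} {z : X} {l a b : ℕ} (h : f^[l] z = z)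
    (hab : a % l = b % l) : f^[a] z = f^[b] z := by
  have h1 : Function.IsPeriodicPt f l z := h
  rw [← h1.iterate_mod_apply a, ← h1.iterate_mod_apply b, hab]

/-- **The cycle.**

Proof.  `σ` from `exists_sigma`.  On the `e` solutions near `a` (`near_count`) `σ` acts as a cycle of length
`e` (it is transitive), so `σ ^ e` fixes them.  Let `m` be the product of the indices over `c` of the
points other than `q`; `m` is not divisible by `l`.  `g = σ ^ m` fixes all solutions near the other
points, and on the `l` solutions near `q` it is again transitive, because `m` is coprime to `l`. -/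
theorem exists_lcyc {A : RF} {c q : ℂ} {l : ℕ} (hA : NormL A c q l) {δ : E →ₐ[ℂ] L} (hL : Amb δ)
    (O : ValuationSubring L) (hO : ∀ c : ℂ, algebraMap ℂ L c ∈ O) (ht : Near O (δ RatFunc.X) c) :
    ∃ g : L ≃ₐ[ℂ] L, g (δ RatFunc.X) = δ RatFunc.X ∧
      (∀ z, Sol A (δ RatFunc.X) z → Near O z q → Near O (g z) q) ∧
      (∀ z, Sol A (δ RatFunc.X) z → ¬ Near O z q → g z = z) ∧
      ∀ z z', Sol A (δ RatFunc.X) z → Sol A (δ RatFunc.X) z' → Near O z q → Near O z' q →
        ∃ k : ℕ, (g ^ k) z = z' := by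
  classical
  have hn : 1 ≤ A.n := by
    have h3 : A.n = max A.P.natDegree A.Q.natDegree := rfl
    have h4 := hA.lt
    omega
  obtain ⟨σ, hσt, hσn, hσtr⟩ := exists_sigma hn hA.monic hA.lt hL O hO ht
  obtain ⟨hnear, hcnt⟩ := near_count hn hA.monic hA.lt hL O hO ht
  have hsol : ∀ z, Sol A (δ RatFunc.X) z → Sol A (δ RatFunc.X) (σ z) := fun z hz =>
    Sol.map hz σ hσt
  have hk : ∀ (k : ℕ) (z : L), Sol A (δ RatFunc.X) z → Sol A (δ RatFunc.X) ((⇑σ)^[k] z) ∧
      ∀ a, Near O z a → Near O ((⇑σ)^[k] z) a := by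
    intro k
    induction k with
    | zero => exact fun z hz => ⟨hz, fun a ha => ha⟩
    | succ k ih =>
      intro z hz
      rw [Function.iterate_succ_apply']
      obtain ⟨h1, h2⟩ := ih z hz
      exact ⟨hsol _ h1, fun a ha => hσn _ h1 a (h2 a ha)⟩
  have hcyc : ∀ a ∈ fC A c, ∀ z, Sol A (δ RatFunc.X) z → Near O z a →
      (⇑σ)^[A.e (some a)] z = z := by
    intro a ha z hz hza
    obtain ⟨S, hS, hSc⟩ := hcnt a ha
    rw [← hSc]
    refine Cyc_period _ S ?_ ?_ ((hS z).2 ⟨hz, hza⟩)
    · intro w hw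
      rw [hS] at hw ⊢
      exact ⟨hsol w hw.1, hσn w hw.1 a hw.2⟩
    · intro w hw w' hw'
      rw [hS] at hw hw'
      obtain ⟨k, hk⟩ := hσtr w w' hw.1 hw'.1 a hw.2 hw'.2
      rw [Cyc_pow] at hk
      exact ⟨k, hk⟩
  have hqf : q ∈ fC A c := (mem_fC' hn).2 ⟨hA.Qne, hA.val⟩
  have hql : A.e (some q) = l := by rw [e_fC hn hqf, hA.mult]
  set m : ℕ := ∏ a ∈ (fC A c).erase q, A.e (some a) with hm
  have hml : ¬ l ∣ m := by
    rw [hm, hA.prime.prime.dvd_finsetProd_iff]
    rintro ⟨a, ha, hd⟩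
    rw [Finset.mem_erase] at ha
    rw [e_fC hn ha.2] at hd
    exact hA.lone a ha.1 ((mem_fC' hn).1 ha.2).2 hd
  have hcop : m.Coprime l := ((Nat.Prime.coprime_iff_not_dvd hA.prime).2 hml).symm
  refine ⟨σ ^ m, ?_, ?_, ?_, ?_⟩
  · rw [Cyc_pow]
    exact Function.iterate_fixed hσt m
  · intro z hz hzq
    rw [Cyc_pow]
    exact (hk m z hz).2 q hzq
  · intro z hz hzq
    obtain ⟨a, hza, ha, -⟩ := hnear z hz
    have haq : a ≠ q := by
      rintro rfl
      exact hzq hza
    rw [Cyc_pow]
    exact Cyc_dvd (hcyc a ha z hz hza)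
      (Finset.dvd_prod_of_mem (fun a => A.e (some a)) (Finset.mem_erase.2 ⟨haq, ha⟩))
  · intro z z' hz hz' hzq hzq'
    obtain ⟨k, hk'⟩ := hσtr z z' hz hz' q hzq hzq'
    obtain ⟨j, -, hj⟩ := Nat.exists_mul_mod_eq_one_of_coprime hcop hA.prime.one_lt
    refine ⟨j * k, ?_⟩
    rw [← pow_mul, Cyc_pow]
    rw [Cyc_pow] at hk'
    rw [← hk']
    have hl : (⇑σ)^[l] z = z := by
      rw [← hql]
      exact hcyc q hqf z hz hzq
    refine Cyc_mod hl ?_
    rw [← mul_assoc, Nat.mul_mod, hj, one_mul, Nat.mod_mod]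

/-- The valuation ring of a place extends along an embedding of fields. -/
theorem Cyc_extend {L : Type} [Field L] {K : Type} [Field K] [Algebra ℂ K] (f : K →+* L) (P : Pl K) :
    ∃ O : ValuationSubring L,
      (∀ z : K, 0 ≤ P.ord z → f z ∈ O) ∧
      ∀ z : K, 0 < P.ord z → f z ∈ O.nonunits := by
  let V := P.v.valuationSubring
  let j : V →+* L := f.comp V.subtype
  let R : Subring L := j.range
  let j' : V →+* R := j.rangeRestrict
  have hj' : Function.Surjective j' := j.rangeRestrict_surjective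
  have hinj : Function.Injective j' := by
    intro a b hab
    have h1 := congrArg Subtype.val hab
    exact Subtype.ext (f.injective h1)
  let I : Ideal R := (IsLocalRing.maximalIdeal V).map j'
  have hI : I ≠ ⊤ := by
    intro h
    have h1 : (1 : R) ∈ I := by rw [h]; trivial
    obtain ⟨x, hx, hx1⟩ := (Ideal.mem_map_iff_of_surjective j' hj').1 h1
    have h2 : x = 1 := hinj (hx1.trans (map_one j').symm)
    rw [h2] at hx
    exact (Ideal.ne_top_iff_one _).1 (IsLocalRing.maximalIdeal.isMaximal V).ne_top hx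
  obtain ⟨O, hO1, hO2⟩ := Ideal.image_subset_nonunits_valuationSubring I hI
  refine ⟨O, ?_, ?_⟩
  · intro z hz
    have hzV : z ∈ V := (Valuation.mem_valuationSubring_iff _ _).2 ((P.ord_nonneg_iff z).1 hz)
    exact hO1 ⟨⟨z, hzV⟩, rfl⟩
  · intro z hz
    have hz0 : z ≠ 0 := by
      rintro rfl
      rw [P.ord_zero] at hz
      exact lt_irrefl _ hz
    have hv := (P.ord_pos_iff hz0).1 hz
    have hzV : z ∈ V := (Valuation.mem_valuationSubring_iff _ _).2 hv.le
    have hmem : (⟨z, hzV⟩ : V) ∈ IsLocalRing.maximalIdeal V :=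
      (Valuation.mem_maximalIdeal_iff K P.v).2 hv
    exact hO2 ⟨j' ⟨z, hzV⟩, Ideal.mem_map_of_mem j' hmem, rfl⟩

/-- Valuation rings exist over every point.  Proof: the place `plE c` of `E`; its valuation ring,
mapped to `L` by `δ`, is a local subring, dominated by a valuation subring of `L` (compare
`Transp_extend` in WS/Transp.lean, which does this for an algebraic closure). -/
theorem exists_O {δ : E →ₐ[ℂ] L} (c : ℂ) : ∃ O : ValuationSubring L,
    (∀ c : ℂ, algebraMap ℂ L c ∈ O) ∧ Near O (δ RatFunc.X) c := by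
  obtain ⟨O, hO1, hO2⟩ := Cyc_extend (δ : E →+* L) (plE c)
  refine ⟨O, ?_, ?_⟩
  · intro a
    have h1 := hO1 (algebraMap ℂ E a) (by rw [Pl.ord_C])
    have h2 : (δ : E →+* L) (algebraMap ℂ E a) = algebraMap ℂ L a := δ.commutes a
    rw [h2] at h1
    exact h1
  · have h1 : 0 < (plE c).ord (RatFunc.X - algebraMap ℂ E c) := by
      have h3 : (RatFunc.X : E) - algebraMap ℂ E c = algebraMap ℂ[X] E (X - C c) := by
        rw [map_sub, RatFunc.algebraMap_X, algC_E]
      rw [h3, plE_poly c (X_sub_C_ne_zero c), rootMultiplicity_X_sub_C_self]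
      norm_num
    have h2 := hO2 _ h1
    have h4 : (δ : E →+* L) (RatFunc.X - algebraMap ℂ E c) = δ RatFunc.X - algebraMap ℂ L c := by
      have h5 : δ (algebraMap ℂ E c) = algebraMap ℂ L c := δ.commutes c
      rw [← h5, ← map_sub]
      rfl
    rw [h4] at h2
    exact h2

end WildH
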