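import Pool.Agent.helper21.WV.Final

/-!
# Rational functions with a lone index (helper21, MP_11236d_an, stage 3): definitions
-/

namespace WildH

open Polynomial WildRat WildS WildV

/-- The numerical condition. -/
def TW (C : RF) : Prop := ∀ T : Finset P1, ∑ c ∈ T, (wt (pas C c) : ℤ) ≤ 2 * C.n - 2

/-- Over `c` exactly one ramification index is divisible by the prime `l`, and it is equal to `l`. -/
def Lone (A : RF) (c : P1) (l : ℕ) : Prop :=
  l.Prime ∧ ∃ z, A.val z = c ∧ A.e z = l ∧ ∀ w, w ≠ z → A.val w = c → ¬ l ∣ A.e w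

/-- A normalised rational function with a lone index `l` at `q` over `c`: `A(∞) = ∞`, infinity is
not a critical value. -/
structure NormL (A : RF) (c q : ℂ) (l : ℕ) : Prop where
  prime : l.Prime
  monic : A.P.Monic
  lt : A.Q.natDegree < A.P.natDegree
  Qne : A.Q.eval q ≠ 0
  val : A.P.eval q = c * A.Q.eval q
  mult : (A.P - C c * A.Q).rootMultiplicity q = l
  lone : ∀ w, w ≠ q → A.P.eval w = c * A.Q.eval w →
    ¬ l ∣ (A.P - C c * A.Q).rootMultiplicity w
  unram : ∀ z : P1, A.val z = none → A.e z = 1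

/-- `A(w) = t`. -/
def Sol (A : RF) {L : Type} [Field L] [Algebra ℂ L] (t w : L) : Prop :=
  aeval w A.P = t * aeval w A.Q

/-- `C(z) = C(w)`. -/
def Sm (C : RF) {L : Type} [Field L] [Algebra ℂ L] (z w : L) : Prop :=
  aeval z C.P * aeval w C.Q = aeval w C.P * aeval z C.Q

/-- The ambient field: `L` is an algebraic closure of `ℂ(t)`, `t = δ X`. -/
structure Amb {L : Type} [Field L] [Algebra ℂ L] (δ : E →ₐ[ℂ] L) : Prop where
  closed : IsAlgClosed L
  alg : δ.toRingHom.IsIntegral

/-- `z` lies near the complex number `a`, with respect to the valuation ring `O`. -/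
def Near {L : Type} [Field L] [Algebra ℂ L] (O : ValuationSubring L) (z : L) (a : ℂ) : Prop :=
  z - algebraMap ℂ L a ∈ O.nonunits

/-- `C` is doubly transitive, in the monic form used in `W_one`. -/
def DTm (C : RF) : Prop :=
  ∃ mu0 : E[X], Irreducible mu0 ∧ mu0.Monic ∧ GG C = (X - Polynomial.C RatFunc.X) * mu0

/-- The numerical condition for finite values. -/
def TWf (C : RF) : Prop := ∀ T : Finset ℂ, ∑ p ∈ T, (wt (pasF C p) : ℤ) ≤ 2 * C.n - 2

variable {K : Type} [Field K] [Algebra ℂ K]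

/-- The class data for a lone index, in the algebraic closure of a field `K` with the coordinate
`φ`. -/
structure ClL (A B C : RF) (c q : ℂ) (l : ℕ) (φ : E →ₐ[ℂ] K) : Prop where
  norm : NormL A c q l
  comp : A.IsComp B C
  monic : C.P.Monic
  lt : C.Q.natDegree < C.P.natDegree
  two : 2 ≤ C.n
  eq : C.e (some q) = l
  loc : ∀ z z' : AlgebraicClosure K, Sol A (algebraMap K _ (φ (elt A))) z → Sm C z z' →
    ∃ τ : AlgebraicClosure K ≃ₐ[ℂ] AlgebraicClosure K, τ z = z' ∧
      ∀ w, Sol A (algebraMap K _ (φ (elt A))) w → ¬ Sm C z w → τ w = w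
  uniq : ∀ (ψ : E →ₐ[ℂ] K) (P : Pl K), φ ≠ ψ → φ (elt A) = ψ (elt A) → P ∈ fib φ q →
    P ∈ fib ψ q → φ (elt C) = ψ (elt C)
  alt : DTm C ∨ TWf C

end WildH
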