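import Pool.Agent.helper21.HD.Defs

/-! Normalisation of a rational function with a lone index. -/

namespace WildH

open Polynomial WildRat WildS WildV

/-- The numerical condition is invariant under a change of the source coordinate.  Proof: `σ` maps
the fibre of `C` over `c` bijectively to the fibre of `C'` over `c`, so `pas C c = pas C' c`
(`mem_fibP`; `C.n = C'.n ≥ 1`). -/
theorem TW_transport {C C' : RF} (hn1 : 1 ≤ C.n) (hn : C.n = C'.n) {σ : P1 → P1}
    (hσ : Function.Bijective σ) (hv : ∀ z, C.val z = C'.val (σ z))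
    (he : ∀ z, C.e z = C'.e (σ z)) (h : TW C') : TW C := by
  classical
  have hn1' : 1 ≤ C'.n := by omega
  have hpas : ∀ c, pas C c = pas C' c := by
    intro c
    have h1 : fibP C' c = (fibP C c).map ⟨σ, hσ.1⟩ := by
      ext z
      rw [mem_fibP hn1', Finset.mem_map]
      constructor
      · intro hz
        obtain ⟨w, rfl⟩ := hσ.2 z
        exact ⟨w, (mem_fibP hn1).2 (by rw [hv w, hz]), rfl⟩
      · rintro ⟨w, hw, rfl⟩
        have h2 := (mem_fibP hn1).1 hw
        rw [hv w] at h2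
        exact h2
    unfold pas
    rw [h1, Finset.map_val, Multiset.map_map]
    exact Multiset.map_congr rfl fun z _ => he z
  intro T
  rw [hn, Finset.sum_congr rfl fun c _ => by rw [hpas c]]
  exact h T

/-- From finite values to all values.  Proof: the fibre over infinity has only indices one, so its
weight is zero (`wt_replicate`); `pasF_eq`; split `T` into infinity and finite values (see `W_all` in
WV/WAll.lean). -/
theorem TW_of_TWf {C : RF} (hn : 1 ≤ C.n) (hlt : C.Q.natDegree < C.P.natDegree)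
    (hun : ∀ z, C.val z = none → C.e z = 1) (h : TWf C) : TW C := by
  classical
  have h0 : wt (pas C none) = 0 := by
    have h3 : pas C none = Multiset.replicate (Multiset.card (pas C none)) 1 := by
      rw [Multiset.eq_replicate]
      refine ⟨rfl, fun b hb => ?_⟩
      unfold pas at hb
      rw [Multiset.mem_map] at hb
      obtain ⟨z, hz, rfl⟩ := hb
      exact hun z ((mem_fibP hn).1 hz)
    rw [h3]
    exact wt_replicate _ _
  intro T
  have hsub : T ⊆ insert (none : P1) ((Finset.eraseNone T).map ⟨some, Option.some_injective ℂ⟩) := by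
    intro z hz
    cases z with
    | none => exact Finset.mem_insert_self _ _
    | some a =>
      exact Finset.mem_insert_of_mem (Finset.mem_map.2 ⟨a, Finset.mem_eraseNone.2 hz, rfl⟩)
  have h3 : (none : P1) ∉ (Finset.eraseNone T).map ⟨some, Option.some_injective ℂ⟩ := by
    intro h3
    obtain ⟨a, -, ha⟩ := Finset.mem_map.1 h3
    exact Option.some_ne_none a ha
  have h4 : ∑ p ∈ T, wt (pas C p) ≤ ∑ a ∈ Finset.eraseNone T, wt (pasF C a) := by
    refine (Finset.sum_le_sum_of_subset hsub).trans (le_of_eq ?_)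
    rw [Finset.sum_insert h3, h0, zero_add, Finset.sum_map]
    refine Finset.sum_congr rfl fun a _ => ?_
    show wt (pas C (some a)) = _
    rw [pasF_eq hn hlt]
  have h5 := h (Finset.eraseNone T)
  rw [← Nat.cast_sum] at h5 ⊢
  omega

/-- Normalisation.  Proof: as `normalise1` in WV/Normal1.lean (the same proof; the point `p` now has the
index `l ≥ 2` instead of two, and the other points over `c` have indices not divisible by `l`). -/
theorem normaliseL (A : RF) (hn : 1 ≤ A.n) {c : P1} {l : ℕ} (hs : Lone A c l) :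
    ∃ (A' : RF) (c' q' : ℂ), NormL A' c' q' l ∧
      (∀ (K : Type) [Field K] [Algebra ℂ K] (φ ψ : E →ₐ[ℂ] K), φ ≠ ψ → φ (elt A) = ψ (elt A) →
        ∃ φ' ψ' : E →ₐ[ℂ] K, φ' ≠ ψ' ∧ φ' (elt A') = ψ' (elt A')) ∧
      ∀ B' C' : RF, A'.IsComp B' C' → 1 ≤ C'.n → ∃ B C : RF, A.IsComp B C ∧ C.n = C'.n ∧
        ∃ σ : P1 → P1, Function.Bijective σ ∧ (∀ z, C.val z = C'.val (σ z)) ∧
          ∀ z, C.e z = C'.e (σ z) := by
  have hn1 : 1 ≤ A.n := hn
  obtain ⟨z0, c0, hz0, hc0⟩ := Normal_exists_point A hn1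
  obtain ⟨hSe, hSb, S', hS'n, hS'S, hSS', hSapp⟩ := moebius_facts (Normal_S z0) (Normal_S_n z0)
  obtain ⟨hTe, hTb, T', hT'n, hT'T, hTT', hTapp⟩ := moebius_facts (Normal_T c0) (Normal_T_n c0)
  have hSn : 1 ≤ (Normal_S z0).n := by rw [Normal_S_n]
  have hTn : 1 ≤ (Normal_T c0).n := by rw [Normal_T_n]
  have hS'n1 : 1 ≤ S'.n := by rw [hS'n]
  have hT'n1 : 1 ≤ T'.n := by rw [hT'n]
  obtain ⟨A1, hA1, hA1n⟩ := exists_comp A (Normal_S z0) hn1 hSn
  obtain ⟨A2, hA2, hA2n⟩ := exists_comp (Normal_T c0) A1 hTn hA1n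
  obtain ⟨A3, hA3, hmon, hA3n⟩ := Normal_monic A2 hA2n
  obtain ⟨-, hn1', hv1, he1⟩ := comp_facts hA1 hA1n hSn
  obtain ⟨-, hn2', hv2, he2⟩ := comp_facts hA2 hA2n hA1n
  obtain ⟨hn3, hv3, he3⟩ := congr_elt hA3 hA3n hA2n
  have hval : ∀ z, A3.val z = (Normal_T c0).val (A.val ((Normal_S z0).val z)) := by
    intro z; rw [hv3, hv2, hv1]
  have he : ∀ z, A3.e z = A.e ((Normal_S z0).val z) := by
    intro z; rw [he3, he2, he1, hTe, hSe, one_mul, mul_one]
  have hnn : A3.n = A.n := by
    rw [hn3, hn2', hn1', Normal_S_n, Normal_T_n]; ring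
  have hlt : A3.Q.natDegree < A3.P.natDegree := by
    have h1 : A3.val none = none := by
      rw [hval, Normal_S_none, hz0, Normal_T_some]
    have h2 : A3.Q.coeff A3.n = 0 := by
      by_contra h3
      simp only [RF.val] at h1
      rw [if_neg h3] at h1
      exact absurd h1 (by simp)
    have hQ0 := A3.Q_ne_zero hA3n
    by_contra hcon
    push Not at hcon
    have h3 : A3.n = A3.Q.natDegree := max_eq_right hcon
    rw [h3, coeff_natDegree] at h2
    exact hQ0 (leadingCoeff_eq_zero.1 h2)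
  have hPn : A3.P.natDegree = A3.n := (max_eq_left hlt.le).symm
  obtain ⟨hl, p, hpv, hpe, hpu⟩ := hs
  have hl2 := hl.two_le
  have hcne : c ≠ some c0 := by
    intro h
    have := hc0 p (by rw [hpv, h])
    rw [hpe] at this
    omega
  have hTc : ∃ t : ℂ, (Normal_T c0).val c = some t := by
    apply Option.ne_none_iff_exists'.1
    rw [← Normal_T_some c0]
    intro h
    exact hcne (hTb.1 h)
  obtain ⟨c', hc'⟩ := hTc
  have hpne : p ≠ some z0 := by
    intro h
    apply hcne
    rw [← hpv, h, hz0]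
  have hSq : ∃ t : ℂ, S'.val p = some t := by
    apply Option.ne_none_iff_exists'.1
    intro h
    apply hpne
    rw [← hSS' p, h, Normal_S_none]
  obtain ⟨q', hq'⟩ := hSq
  have hSq' : (Normal_S z0).val (some q') = p := by
    rw [← hq', hSS']
  have hqv : A3.val (some q') = some c' := by
    rw [hval, hSq', hpv, hc']
  refine ⟨A3, c', q', ⟨hl, hmon, hlt, ?_, ?_, ?_, ?_, ?_⟩, ?_, ?_⟩
  · exact ((Normal_val_some A3).1 hqv).1
  · exact ((Normal_val_some A3).1 hqv).2
  · have h1 := he (some q')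
    rw [hSq', hpe] at h1
    unfold RF.e at h1
    rw [hqv] at h1
    exact h1
  · intro w hw hPw
    have hQw : A3.Q.eval w ≠ 0 := by
      intro h0
      rw [h0, mul_zero] at hPw
      obtain ⟨u, v, huv⟩ := A3.cop
      have h := congrArg (eval w) huv
      simp [h0, hPw] at h
    have hvw : A3.val (some w) = some c' := (Normal_val_some A3).2 ⟨hQw, hPw⟩
    have h1 := he (some w)
    have h2 : A.val ((Normal_S z0).val (some w)) = c := by
      apply hTb.1
      rw [← hval, hvw, hc']
    have h3 : ¬ l ∣ A.e ((Normal_S z0).val (some w)) := by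
      refine hpu _ ?_ h2
      rw [← hSq']
      intro h
      exact hw (Option.some_injective _ (hSb.1 h))
    rw [← h1] at h3
    unfold RF.e at h3
    rw [hvw] at h3
    exact h3
  · intro z hz
    rw [he]
    apply hc0
    apply hTb.1
    rw [← hval, hz, Normal_T_some]
  · intro K _ _ φ ψ hne h
    have hφ := coord_nonConst φ
    have hψ := coord_nonConst ψ
    obtain ⟨φ', hφ'⟩ := exists_subst (S'.app_nonConst hS'n1 hφ)
    obtain ⟨ψ', hψ'⟩ := exists_subst (S'.app_nonConst hS'n1 hψ)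
    have hkey : ∀ (χ χ' : E →ₐ[ℂ] K), NonConst (χ RatFunc.X) →
        χ' RatFunc.X = S'.app (χ RatFunc.X) → χ' (elt A3) = (Normal_T c0).app (χ (elt A)) := by
      intro χ χ' hχ hχ'
      have hU : NonConst (S'.app (χ RatFunc.X)) := S'.app_nonConst hS'n1 hχ
      rw [hA3, coord_elt, coord_elt, hχ', hA2.app_eq hU, hA1.app_eq hU, (hSapp K _ hχ).1]
    refine ⟨φ', ψ', ?_, ?_⟩
    · intro heq
      apply coord_ne hne
      rw [← (hSapp K _ hφ).1, ← (hSapp K _ hψ).1, ← hφ', ← hψ', heq]
    · rw [hkey φ φ' hφ hφ', hkey ψ ψ' hψ hψ', h]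
  · intro B' C' hcomp hC'n
    obtain ⟨hB'n, -, -, -⟩ := comp_facts hcomp hA3n hC'n
    obtain ⟨C1, hC1, hC1n⟩ := exists_comp C' S' hC'n hS'n1
    obtain ⟨B1, hB1, hB1n⟩ := exists_comp T' B' hT'n1 hB'n
    obtain ⟨-, hC1n', hC1v, hC1e⟩ := comp_facts hC1 hC1n hS'n1
    obtain ⟨hS'e, hS'b, -⟩ := moebius_facts S' hS'n
    refine ⟨B1, C1, ?_, ?_, S'.val, hS'b, hC1v, ?_⟩
    · show A.app (RatFunc.X : RatFunc ℂ) = B1.app (C1.app (RatFunc.X : RatFunc ℂ))
      have hX := ratFuncX_nonConst
      have hSX := S'.app_nonConst hS'n1 hX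
      have hC1X := C1.app_nonConst hC1n hX
      have h1 : A3.app (S'.app (RatFunc.X : RatFunc ℂ)) =
          (Normal_T c0).app (A.app (RatFunc.X : RatFunc ℂ)) := by
        obtain ⟨σ, hσ⟩ := exists_subst hSX
        have h2 := congrArg σ hA3
        rw [coord_elt, coord_elt, hσ, hA2.app_eq hSX, hA1.app_eq hSX, (hSapp _ _ hX).1] at h2
        exact h2
      have h3 : A.app (RatFunc.X : RatFunc ℂ) =
          T'.app (A3.app (S'.app (RatFunc.X : RatFunc ℂ))) := by
        rw [h1, (hTapp _ _ (A.app_nonConst hn1 hX)).2]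
      rw [h3, hcomp.app_eq hSX, hB1.app_eq hC1X, hC1.app_eq hX]
    · rw [hC1n', hS'n, mul_one]
    · intro z
      rw [hC1e, hS'e, mul_one]

end WildH
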