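import Pool.Agent.helper21.HD.WTwoL
import Pool.Agent.helper21.HD.NormalL

/-! The hard direction for rational functions with a lone index. -/

namespace WildH

open Polynomial WildRat WildS WildV

variable {K : Type} [Field K] [Algebra ℂ K]

theorem hard_normL (hK : Good K) {A : RF} {c q : ℂ} {l : ℕ} (hA : NormL A c q l)
    {φ ψ : E →ₐ[ℂ] K} (hne : φ ≠ ψ) (h : φ (elt A) = ψ (elt A)) :
    ∃ B C : RF, A.IsComp B C ∧ 2 ≤ C.n ∧ TW C := by
  obtain ⟨B, C, hCl⟩ := exists_ClL hA (hK.fin φ)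
  obtain ⟨hAn, -, -, -, -, -, -, -, -⟩ := hCl.facts
  obtain ⟨-, -, -, -, -, -, -, hun⟩ := comp_norm hAn hA.lt hA.unram hCl.comp hCl.lt
  refine ⟨B, C, hCl.comp, hCl.two, TW_of_TWf (le_trans (by norm_num) hCl.two) hCl.lt hun ?_⟩
  by_cases h1 : φ (elt C) = ψ (elt C)
  · rcases hCl.alt with ⟨mu0, hirr, hmon, hgg⟩ | h2
    · exact fun T => W_one hK hCl.two hCl.lt hun hirr hmon hgg hne h1 T
    · exact h2
  · exact W_twoL hK hCl h h1

theorem hard_good (hK : Good K) (A : RF) (hn : 1 ≤ A.n) {c : P1} {l : ℕ} (hs : Lone A c l)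
    (hsol : A.SolIn K) : ∃ B C : RF, A.IsComp B C ∧ 2 ≤ C.n ∧ TW C := by
  obtain ⟨U, V, hU, hUV, hE⟩ := hsol
  have hV : NonConst V := RF.Eqn.nonConst hn hU hE
  obtain ⟨φ, hφ⟩ := exists_subst hU
  obtain ⟨ψ, hψ⟩ := exists_subst hV
  have hne : φ ≠ ψ := by
    rintro rfl
    exact hUV (hφ.symm.trans hψ)
  have h : φ (elt A) = ψ (elt A) := by
    rw [coord_elt, coord_elt, hφ, hψ]
    exact RF.Eqn.app_eq hn hU hE
  obtain ⟨A', c', q', hA', htr, hback⟩ := normaliseL A hn hs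
  obtain ⟨φ', ψ', hne', h'⟩ := htr K φ ψ hne h
  obtain ⟨B', C', hcomp', h2', htw⟩ := hard_normL hK hA' hne' h'
  obtain ⟨B, C, hcomp, hCn, σ, hσ, hv, he⟩ := hback B' C' hcomp' (by omega)
  exact ⟨B, C, hcomp, by omega, TW_transport (by omega) hCn hσ hv he htw⟩

/-- **The hard direction.** -/
theorem hard_lone (A : RF) (hn : 1 ≤ A.n) {c : P1} {l : ℕ} (hs : Lone A c l) (hw : A.Wild) :
    ∃ B C : RF, A.IsComp B C ∧ 2 ≤ C.n ∧ TW C := by
  rcases hw with hr | ⟨f, hf3, hsq, hsol⟩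
  · exact hard_good good_E A hn hs hr
  · have := kf_fact f (by rw [hf3]; decide)
    exact hard_good (good_KF f hf3 hsq) A hn hs hsol

end WildH
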