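import Pool.Agent.helper21.HD.Defs

/-! Automorphisms of the ambient field. -/

namespace WildH

open Polynomial WildRat WildS WildV

variable {K : Type} [Field K] [Algebra ℂ K] {L : Type} [Field L] [Algebra ℂ L]

private theorem Gal_Qne {A : RF} {w t : L} (h : Sol A t w) : aeval w A.Q ≠ 0 := by
  intro h0
  have h' : aeval w A.P = t * aeval w A.Q := h
  obtain ⟨a, b, hab⟩ := A.cop
  have h1 := congrArg (aeval w) hab
  rw [map_add, map_mul, map_mul, h', h0, map_one, mul_zero, mul_zero, mul_zero, add_zero] at h1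
  exact zero_ne_one h1

private theorem Gal_aeval (τ : L ≃ₐ[ℂ] L) (z : L) (p : ℂ[X]) :
    aeval (τ z) p = τ (aeval z p) := aeval_algHom_apply τ.toAlgHom z p

private theorem Gal_tne (δ : E →ₐ[ℂ] L) : δ RatFunc.X ≠ 0 := by
  intro h
  apply coord_nonConst δ 0
  rw [h, map_zero]

private theorem Gal_ext {L₁ L₂ : Type} [Field L₁] [Field L₂] {d₁ : E →+* L₁} {d₂ : E →+* L₂}
    (c₁ : IsAlgClosed L₁) (i₁ : d₁.IsIntegral) (c₂ : IsAlgClosed L₂) (i₂ : d₂.IsIntegral) :
    ∃ τ : L₁ ≃+* L₂, ∀ x, τ (d₁ x) = d₂ x := by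
  let := d₁.toAlgebra
  let := d₂.toAlgebra
  have h1 : Algebra.IsIntegral E L₁ := ⟨i₁⟩
  have h2 : Algebra.IsIntegral E L₂ := ⟨i₂⟩
  have h3 : IsAlgClosure E L₁ := ⟨c₁, inferInstance⟩
  have h4 : IsAlgClosure E L₂ := ⟨c₂, inferInstance⟩
  refine ⟨(IsAlgClosure.equiv E L₁ L₂).toRingEquiv, fun x => ?_⟩
  exact (IsAlgClosure.equiv E L₁ L₂).commutes x

/-- The algebraic closure of `K` is an ambient field for `t = φ (elt A)`.  Proof: `δ` is the
composition of `α : E → E`, `X ↦ elt A` (`exists_subst`, `elt_nonConst`), `φ` and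
`K → AlgebraicClosure K`; `E` is finite over itself through `α` (`deg_elt`, or `RatFunc`: the extension
`E / ℂ(u)` is finite for nonconstant `u`; see `finC_all` with `RatK_finC_id`), `K` is finite over `E`, and
`AlgebraicClosure K` is algebraic over `K`; compositions of integral homomorphisms are
integral (`RingHom.IsIntegral.trans`). -/
theorem amb_closure {A : RF} (hn : 1 ≤ A.n) {φ : E →ₐ[ℂ] K} (hφ : FinC φ) :
    ∃ δ : E →ₐ[ℂ] AlgebraicClosure K, δ RatFunc.X = algebraMap K _ (φ (elt A)) ∧ Amb δ := by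
  obtain ⟨α, hα⟩ := exists_subst (elt_nonConst A hn)
  have hfα : FinC α := finC_all _ RatK_finC_id α
  have hf : FinC (φ.comp α) := finC_comp hφ hfα
  refine ⟨(IsScalarTower.toAlgHom ℂ K (AlgebraicClosure K)).comp (φ.comp α), ?_, ?_, ?_⟩
  · show algebraMap K _ (φ (α RatFunc.X)) = _
    rw [hα]
  · infer_instance
  · have h1 : (φ.comp α).toRingHom.IsIntegral := RingHom.Finite.to_isIntegral hf
    have h2 : (algebraMap K (AlgebraicClosure K)).IsIntegral := by
      rw [algebraMap_isIntegral_iff]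
      infer_instance
    exact RingHom.IsIntegral.trans (φ.comp α).toRingHom (algebraMap K (AlgebraicClosure K)) h1 h2

/-- A solution of `A(z) = t` is the value of a coordinate, and the ambient field is also one for this
coordinate.  Proof: `t` is not constant (`coord_nonConst`), so `z` is not constant (otherwise
`P(z) = t Q(z)` with constants, and `P(z)`, `Q(z)` are not both zero); `exists_subst` gives `δz`;
`δz (elt A) = A(z) = t` (`coord_elt`), so `δz ∘ α = δ` with `α : X ↦ elt A` (`coord_ext`), and every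
element integral over `δ` is integral over `δz`. -/
theorem Amb.sol {A : RF} (hn : 1 ≤ A.n) {δ : E →ₐ[ℂ] L} (h : Amb δ) {z : L}
    (hz : Sol A (δ RatFunc.X) z) :
    ∃ δz : E →ₐ[ℂ] L, δz RatFunc.X = z ∧ δz (elt A) = δ RatFunc.X ∧ Amb δz := by
  have hQ := Gal_Qne hz
  have hnc : NonConst z := by
    intro c hc
    have hev : ∀ p : ℂ[X], aeval z p = algebraMap ℂ L (p.eval c) := by
      intro p
      rw [hc, aeval_algebraMap_apply]
      simp
    have hz' : aeval z A.P = δ RatFunc.X * aeval z A.Q := hz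
    apply coord_nonConst δ (A.P.eval c / A.Q.eval c)
    rw [map_div₀, ← hev, ← hev, hz', mul_div_cancel_right₀ _ hQ]
  obtain ⟨δz, hδz⟩ := exists_subst hnc
  have h1 : δz (elt A) = δ RatFunc.X := by
    rw [coord_elt, hδz]
    unfold RF.app
    have hz' : aeval z A.P = δ RatFunc.X * aeval z A.Q := hz
    rw [hz', mul_div_cancel_right₀ _ hQ]
  refine ⟨δz, hδz, h1, h.closed, ?_⟩
  obtain ⟨α, hα⟩ := exists_subst (elt_nonConst A hn)
  have h2 : δz.comp α = δ := by
    apply coord_ext
    rw [AlgHom.comp_apply, hα, h1]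
  have h3 : (δz.toRingHom.comp α.toRingHom).IsIntegral := by
    have h4 : δz.toRingHom.comp α.toRingHom = δ.toRingHom := by
      rw [← h2]
      rfl
    rw [h4]
    exact h.alg
  exact RingHom.IsIntegral.tower_top _ _ h3

/-- The extension of isomorphisms.  Proof: `L` is an algebraic closure of `E` through `δ` and through
`δ'` (`IsAlgClosure`), so `IsAlgClosure.equiv` gives a ring isomorphism `τ` with `τ ∘ δ = δ'`; it is
`ℂ`-linear because `δ`, `δ'` are. -/
theorem Amb.ext {δ δ' : E →ₐ[ℂ] L} (h : Amb δ) (h' : Amb δ') :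
    ∃ τ : L ≃ₐ[ℂ] L, τ (δ RatFunc.X) = δ' RatFunc.X := by
  obtain ⟨τ, hτ⟩ := Gal_ext h.closed h.alg h'.closed h'.alg
  refine ⟨AlgEquiv.ofRingEquiv (f := τ) ?_, ?_⟩
  · intro c
    rw [← δ.commutes c]
    have h1 := hτ (algebraMap ℂ E c)
    refine h1.trans ?_
    exact δ'.commutes c |>.trans (by rw [δ.commutes c])
  · exact hτ RatFunc.X

/-- Transitivity on the solutions of `A(z) = t`: `Amb.sol` and `Amb.ext`. -/
theorem Amb.trans {A : RF} (hn : 1 ≤ A.n) {δ : E →ₐ[ℂ] L} (h : Amb δ) {z z' : L}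
    (hz : Sol A (δ RatFunc.X) z) (hz' : Sol A (δ RatFunc.X) z') :
    ∃ τ : L ≃ₐ[ℂ] L, τ (δ RatFunc.X) = δ RatFunc.X ∧ τ z = z' := by
  obtain ⟨δz, h1, h2, h3⟩ := h.sol hn hz
  obtain ⟨δz', h1', h2', h3'⟩ := h.sol hn hz'
  obtain ⟨τ, hτ⟩ := h3.ext h3'
  rw [h1, h1'] at hτ
  refine ⟨τ, ?_, hτ⟩
  have h4 := app_map τ.toAlgHom A z
  have h5 : A.app z = δ RatFunc.X := by
    rw [← h2, coord_elt, h1]
  have h6 : A.app z' = δ RatFunc.X := by
    rw [← h2', coord_elt, h1']
  rw [h5] at h4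
  refine h4.trans ?_
  show A.app (τ z) = _
  rw [hτ, h6]

/-- The fixed elements.  Proof: let `u` be fixed by all `τ` fixing `δ X` (hence the range of `δ`).  With
`L` as an `E`-algebra through `δ`, algebraic and algebraically closed, in characteristic zero: the
minimal polynomial `f` of `u` over `E` is separable and splits in `L`; if its degree is greater than
one there is a root `u' ≠ u`, and an automorphism over `E` with `u ↦ u'`
(`IsAlgClosed`, `Normal`, `minpoly` conjugates: `IsConjRoot`, `Normal.exists_..`, or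
`InfiniteGalois.fixedField_bot`), a contradiction. -/
theorem Amb.fixed {δ : E →ₐ[ℂ] L} (h : Amb δ) {u : L}
    (hu : ∀ τ : L ≃ₐ[ℂ] L, τ (δ RatFunc.X) = δ RatFunc.X → τ u = u) : ∃ v : E, δ v = u := by
  let := δ.toRingHom.toAlgebra
  have hst : IsScalarTower ℂ E L := IsScalarTower.of_algebraMap_eq fun c => (δ.commutes c).symm
  have h1 : IsAlgClosed L := h.closed
  have h2 : Algebra.IsIntegral E L := ⟨h.alg⟩
  have h3 : IsAlgClosure E L := ⟨h1, inferInstance⟩
  have h4 : Normal E L := IsAlgClosure.normal E L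
  have h5 : IsGalois E L := ⟨⟩
  have h6 := (InfiniteGalois.mem_bot_iff_fixed (k := E) u).2 ?_
  · obtain ⟨v, hv⟩ := IntermediateField.mem_bot.1 h6
    exact ⟨v, hv⟩
  · intro f
    exact hu (f.restrictScalars ℂ) (f.commutes RatFunc.X)

/-- Automorphisms fixing `t` permute the solutions.  Proof: apply `τ`. -/
theorem Sol.map {A : RF} {t z : L} (hz : Sol A t z) (τ : L ≃ₐ[ℂ] L) (ht : τ t = t) :
    Sol A t (τ z) := by
  have h : aeval z A.P = t * aeval z A.Q := hz
  have h1 := congrArg τ h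
  rw [map_mul, ht] at h1
  show aeval (τ z) A.P = t * aeval (τ z) A.Q
  rw [Gal_aeval, Gal_aeval, h1]

theorem Sm.map {C : RF} {z w : L} (h : Sm C z w) (τ : L ≃ₐ[ℂ] L) : Sm C (τ z) (τ w) := by
  have h0 : aeval z C.P * aeval w C.Q = aeval w C.P * aeval z C.Q := h
  have h1 := congrArg τ h0
  rw [map_mul, map_mul] at h1
  show aeval (τ z) C.P * aeval (τ w) C.Q = aeval (τ w) C.P * aeval (τ z) C.Q
  rw [Gal_aeval, Gal_aeval, Gal_aeval, Gal_aeval, h1]

/-- The solutions as the roots of a monic separable polynomial: there are exactly `A.n` of them.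

Proof.  `P - t Q` (mapped to `L`) is monic of degree `A.n`, it splits, and it is separable: it is the
image of `GG A` under `δz` for a root `z` (`Amb.sol`; compare `StA_prod` in WV/StA.lean,
`GG_separable`, `Block_GG`). -/
theorem Amb.roots {A : RF} (hn : 1 ≤ A.n) (hm : A.P.Monic) (hlt : A.Q.natDegree < A.P.natDegree)
    {δ : E →ₐ[ℂ] L} (h : Amb δ) :
    ∃ s : Finset L, (∀ z, z ∈ s ↔ Sol A (δ RatFunc.X) z) ∧ s.card = A.n ∧
      A.P.map (algebraMap ℂ L) - C (δ RatFunc.X) * A.Q.map (algebraMap ℂ L) =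
        ∏ z ∈ s, (X - C z) := by
  classical
  set t := δ RatFunc.X with ht
  have hcl : IsAlgClosed L := h.closed
  set p : L[X] := A.P.map (algebraMap ℂ L) - C t * A.Q.map (algebraMap ℂ L) with hp
  have hdegQ : (C t * A.Q.map (algebraMap ℂ L)).degree < (A.P.map (algebraMap ℂ L)).degree := by
    rw [degree_C_mul (Gal_tne δ), degree_map, degree_map]
    exact degree_lt_degree hlt
  have hpm : p.Monic := (hm.map (algebraMap ℂ L)).sub_of_left hdegQ
  have hpn : p.natDegree = A.n := by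
    have h1 : p.degree = (A.P.map (algebraMap ℂ L)).degree := degree_sub_eq_left_of_degree_lt hdegQ
    rw [natDegree_eq_of_degree_eq h1, natDegree_map]
    unfold RF.n
    rw [max_eq_left hlt.le]
  have hev : ∀ z, p.eval z = aeval z A.P - t * aeval z A.Q := by
    intro z
    rw [hp, eval_sub, eval_mul, eval_C, eval_map_algebraMap, eval_map_algebraMap]
  have hroot : ∀ z, p.IsRoot z ↔ Sol A t z := by
    intro z
    rw [IsRoot.def, hev, sub_eq_zero]
    rfl
  obtain ⟨z, hz⟩ := IsAlgClosed.exists_root p (by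
    rw [degree_eq_natDegree hpm.ne_zero, hpn]
    exact_mod_cast (by omega : A.n ≠ 0))
  obtain ⟨δz, h1, h2, h3⟩ := h.sol hn ((hroot z).1 hz)
  have hsep : p.Separable := by
    have h4 := Block_GG A δz
    rw [h2] at h4
    rw [hp, ht, ← h4]
    exact (GG_separable A hn).map
  have hnd : p.roots.Nodup := nodup_roots hsep
  have hval : p.roots.toFinset.val = p.roots := by
    rw [Multiset.toFinset_val, Multiset.dedup_eq_self.2 hnd]
  refine ⟨p.roots.toFinset, ?_, ?_, ?_⟩
  · intro w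
    rw [Multiset.mem_toFinset, mem_roots hpm.ne_zero]
    exact hroot w
  · rw [Finset.card_def, hval, ← hpn]
    exact (IsAlgClosed.splits p).natDegree_eq_card_roots.symm
  · rw [Finset.prod_eq_multiset_prod, hval]
    have h5 := (IsAlgClosed.splits p).eq_prod_roots
    rw [hpm.leadingCoeff, C_1, one_mul] at h5
    exact h5

/-- The class of a solution `z` under a right factor `C`: the elements `w` with `C(w) = C(z)` are
`C.n` many, they are solutions of `A(w) = t`.

Proof.  `A = B ∘ C`: `C(w) = C(z)` implies `A(w) = A(z)` (`RF.IsComp.app_eq`; `w` is not constant,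
because `C(w) = C(z)` is not constant, and `aeval w C.Q ≠ 0` by coprimality).  The number: `C(z) = δz (elt C)`
for the coordinate `δz`, `X ↦ z`; apply `Amb.roots` to `C` and the coordinate `δz ∘ (X ↦ elt C)`, whose
value at `X` is `C(z)`, and `Sol C (C(z)) w ↔ Sm C z w`. -/
theorem Amb.cls {A B C : RF} (hn : 1 ≤ A.n) (hc : A.IsComp B C) (hm : C.P.Monic)
    (hlt : C.Q.natDegree < C.P.natDegree) {δ : E →ₐ[ℂ] L} (h : Amb δ) {z : L}
    (hz : Sol A (δ RatFunc.X) z) :
    ∃ s : Finset L, (∀ w, w ∈ s ↔ Sm C z w) ∧ s.card = C.n ∧ ∀ w ∈ s, Sol A (δ RatFunc.X) w := by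
  have hCn : 1 ≤ C.n := by
    unfold RF.n
    have := le_max_left C.P.natDegree C.Q.natDegree
    omega
  obtain ⟨δz, h1, h2, h3⟩ := h.sol hn hz
  obtain ⟨γ, hγ⟩ := exists_subst (elt_nonConst C hCn)
  have hfγ : FinC γ := finC_all _ RatK_finC_id γ
  have h4 : Amb (δz.comp γ) := by
    refine ⟨h.closed, ?_⟩
    have h5 : γ.toRingHom.IsIntegral := RingHom.Finite.to_isIntegral hfγ
    exact RingHom.IsIntegral.trans γ.toRingHom δz.toRingHom h5 h3.alg
  have h5 : (δz.comp γ) RatFunc.X = C.app z := by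
    rw [AlgHom.comp_apply, hγ, coord_elt, h1]
  have hzn : NonConst z := by
    rw [← h1]
    exact coord_nonConst δz
  have hzQ : aeval z C.Q ≠ 0 := hzn.aeval_ne_zero (C.Q_ne_zero hCn)
  obtain ⟨s, hs1, hs2, -⟩ := h4.roots hCn hm hlt
  rw [h5] at hs1
  have hiff : ∀ w, Sol C (C.app z) w ↔ Sm C z w := by
    intro w
    show aeval w C.P = aeval z C.P / aeval z C.Q * aeval w C.Q ↔
      aeval z C.P * aeval w C.Q = aeval w C.P * aeval z C.Q
    rw [div_mul_eq_mul_div, eq_div_iff hzQ]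
    exact eq_comm
  refine ⟨s, fun w => (hs1 w).trans (hiff w), hs2, ?_⟩
  intro w hw
  have hw1 := (hs1 w).1 hw
  have hw2 : Sol C ((δz.comp γ) RatFunc.X) w := by rw [h5]; exact hw1
  obtain ⟨δw, k1, k2, k3⟩ := h4.sol hCn hw2
  have hwn : NonConst w := by
    rw [← k1]
    exact coord_nonConst δw
  have k4 : C.app w = C.app z := by
    rw [← h5, ← k2, coord_elt, k1]
  have k5 : A.app w = δ RatFunc.X := by
    rw [hc.app_eq hwn, k4, ← hc.app_eq hzn, ← h2, coord_elt, h1]
  have hwQ : aeval w A.Q ≠ 0 := hwn.aeval_ne_zero (A.Q_ne_zero hn)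
  show aeval w A.P = δ RatFunc.X * aeval w A.Q
  rw [← k5]
  unfold RF.app
  rw [div_mul_cancel₀ _ hwQ]

end WildH
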