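import Pool.Agent.helper21.WV.GcdK

/-! The combinatorial count over the value with the lone index `l`. -/

namespace WildH

open WildV

/-- The gain in `gcd_psd` if exactly one `e * x a` and no `e' * y b` is divisible by `l`.

Proof.  As `gcd_psd` (WV/GcdK.lean; use `gcdK_double`): with `F r` the number of `a` with
`r ∣ e * x a`, `G r` the number of `b` with `r ∣ e' * y b`,
`e ^ 2 G ^ 2 + e' ^ 2 F ^ 2 - 2 e e' F G ≥ 0` for all `r`, and for `r = l` it equals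
`e' ^ 2` (`F l = 1`, `G l = 0`); `φ(l) = l - 1`.  Multiply the claim by `e e'`. -/
theorem gcd_psd_gain {α β : Type} (X : Finset α) (Y : Finset β) (x : α → ℕ) (y : β → ℕ)
    {e e' l : ℕ} (hl : l.Prime) (he : 1 ≤ e) (he' : 1 ≤ e') (hx : ∀ a ∈ X, 1 ≤ x a)
    (hy : ∀ b ∈ Y, 1 ≤ y b) {a1 : α} (ha1 : a1 ∈ X) (hl1 : l ∣ e * x a1)
    (hl2 : ∀ a ∈ X, a ≠ a1 → ¬ l ∣ e * x a) (hl3 : ∀ b ∈ Y, ¬ l ∣ e' * y b) :
    e * (2 * ∑ a ∈ X, ∑ b ∈ Y, Nat.gcd (e * x a) (e' * y b)) + (l - 1) * e' ≤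
      e * (e' * ∑ a ∈ X, ∑ a' ∈ X, Nat.gcd (x a) (x a') +
        e * ∑ b ∈ Y, ∑ b' ∈ Y, Nat.gcd (y b) (y b')) := by
  obtain ⟨B, hB⟩ : ∃ B, B = ∑ a ∈ X, e * x a + ∑ b ∈ Y, e' * y b := ⟨_, rfl⟩
  have hxB : ∀ a ∈ X, e * x a ≤ B := by
    intro a ha
    have := Finset.single_le_sum (f := fun a => e * x a) (fun _ _ => Nat.zero_le _) ha
    omega
  have hyB : ∀ b ∈ Y, e' * y b ≤ B := by
    intro b hb
    have := Finset.single_le_sum (f := fun b => e' * y b) (fun _ _ => Nat.zero_le _) hb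
    omega
  have hx1 : ∀ a ∈ X, 1 ≤ e * x a := fun a ha => Nat.mul_pos he (hx a ha)
  have hy1 : ∀ b ∈ Y, 1 ≤ e' * y b := fun b hb => Nat.mul_pos he' (hy b hb)
  have hxy := gcdK_double X Y (fun a => e * x a) (fun b => e' * y b) hx1 hxB
  have hxx := gcdK_double X X (fun a => e * x a) (fun a => e * x a) hx1 hxB
  have hyy := gcdK_double Y Y (fun b => e' * y b) (fun b => e' * y b) hy1 hyB
  have hxx' : e * ∑ a ∈ X, ∑ a' ∈ X, Nat.gcd (x a) (x a') =
      ∑ a ∈ X, ∑ a' ∈ X, Nat.gcd (e * x a) (e * x a') := by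
    simp only [Finset.mul_sum, Nat.gcd_mul_left]
  have hyy' : e' * ∑ b ∈ Y, ∑ b' ∈ Y, Nat.gcd (y b) (y b') =
      ∑ b ∈ Y, ∑ b' ∈ Y, Nat.gcd (e' * y b) (e' * y b') := by
    simp only [Finset.mul_sum, Nat.gcd_mul_left]
  simp only at hxy hxx hyy
  have hlB : l ∈ Finset.Icc 1 B := by
    rw [Finset.mem_Icc]
    exact ⟨hl.one_lt.le, (Nat.le_of_dvd (hx1 a1 ha1) hl1).trans (hxB a1 ha1)⟩
  have hF : (∑ a ∈ X, if l ∣ e * x a then 1 else 0) = 1 := by
    rw [Finset.sum_eq_single a1]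
    · rw [if_pos hl1]
    · intro a ha hne
      rw [if_neg (hl2 a ha hne)]
    · intro h
      exact absurd ha1 h
  have hG : (∑ b ∈ Y, if l ∣ e' * y b then 1 else 0) = 0 := by
    refine Finset.sum_eq_zero fun b hb => ?_
    rw [if_neg (hl3 b hb)]
  have key : 2 * (e * e') * (∑ a ∈ X, ∑ b ∈ Y, Nat.gcd (e * x a) (e' * y b)) +
      (l - 1) * e' ^ 2 ≤
      e' ^ 2 * (∑ a ∈ X, ∑ a' ∈ X, Nat.gcd (e * x a) (e * x a')) +
      e ^ 2 * (∑ b ∈ Y, ∑ b' ∈ Y, Nat.gcd (e' * y b) (e' * y b')) := by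
    have e0 : (l - 1) * e' ^ 2 = ∑ r ∈ Finset.Icc 1 B, if r = l then (l - 1) * e' ^ 2 else 0 := by
      rw [Finset.sum_ite_eq' (Finset.Icc 1 B) l, if_pos hlB]
    rw [hxy, hxx, hyy, Finset.mul_sum, Finset.mul_sum, Finset.mul_sum, e0,
      ← Finset.sum_add_distrib, ← Finset.sum_add_distrib]
    refine Finset.sum_le_sum fun r _ => ?_
    by_cases hr : r = l
    · subst hr
      rw [hF, hG, if_pos rfl, Nat.totient_prime hl]
      simp only [mul_zero, mul_one, zero_add, add_zero]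
      exact le_of_eq (mul_comm _ _)
    · rw [if_neg hr, add_zero]
      generalize (∑ a ∈ X, if r ∣ e * x a then 1 else 0) = F
      generalize (∑ b ∈ Y, if r ∣ e' * y b then 1 else 0) = G
      generalize Nat.totient r = t
      have h : 2 * (e' * F) * (e * G) ≤ (e' * F) ^ 2 + (e * G) ^ 2 := two_mul_le_add_sq _ _
      calc 2 * (e * e') * (t * (F * G)) = t * (2 * (e' * F) * (e * G)) := by ring
        _ ≤ t * ((e' * F) ^ 2 + (e * G) ^ 2) := Nat.mul_le_mul_left _ h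
        _ = _ := by ring
  refine Nat.le_of_mul_le_mul_left ?_ he'
  calc e' * (e * (2 * ∑ a ∈ X, ∑ b ∈ Y, Nat.gcd (e * x a) (e' * y b)) + (l - 1) * e')
      = 2 * (e * e') * (∑ a ∈ X, ∑ b ∈ Y, Nat.gcd (e * x a) (e' * y b)) + (l - 1) * e' ^ 2 := by
        ring
    _ ≤ _ := key
    _ = _ := by rw [← hxx', ← hyy']; ring

/-- The count over the value with the lone index.

Data as in `gcd_count` (WV/GcdK.lean); `l` divides `eB p * x a` only for `p = p1`, `a = a1`, where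
`eB p1 = 1`; `M p1 p1 = 0`.

Proof.  As `gcd_count`: `2 eB p ∑ N ≤ m M p p' (2 ∑∑ gcd (eB p x_a, eB p' x_b))`, where for
`p = p1`, `p' ≠ p1` we use `gcd_psd_gain` (`e = eB p1 = 1`): the gain is `(l - 1) eB p'`; for
`p ≠ p1`, `p' = p1` the same with the two sides exchanged (`gcd` is symmetric): the gain is
`(l - 1) eB p` after division.  For `p = p' = p1` everything vanishes because `M = 0`.  Divide by `eB p`
and sum: the total gain in `2 ∑ N` is
`(l - 1) m (∑ p', M p1 p' eB p' + ∑ p, M p p1) = (l - 1) m (eB p1 d' + d') = 2 (l - 1) m d'`. -/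
theorem gcd_count_lone {ι α : Type} [DecidableEq ι] [DecidableEq α] (I : Finset ι) (eB : ι → ℕ)
    (X : ι → Finset α) (x : α → ℕ) (M : ι → ι → ℕ) (N : α → α → ℕ) {m d' l : ℕ} (hl : l.Prime)
    (hB : ∀ p ∈ I, 1 ≤ eB p) (hx : ∀ p ∈ I, ∀ a ∈ X p, 1 ≤ x a) {p1 : ι} (hp1 : p1 ∈ I)
    (hB1 : eB p1 = 1) {a1 : α} (ha1 : a1 ∈ X p1) (hx1 : x a1 = l)
    (hlone : ∀ p ∈ I, ∀ a ∈ X p, ¬ (p = p1 ∧ a = a1) → ¬ l ∣ eB p * x a)
    (hN : ∀ p ∈ I, ∀ p' ∈ I, ∀ a ∈ X p, ∀ b ∈ X p',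
      N a b * Nat.lcm (eB p * x a) (eB p' * x b) ≤ eB p' * x b * (m * (x a * M p p')))
    (hrow : ∀ p ∈ I, ∑ p' ∈ I, eB p' * M p p' = eB p * d')
    (hcol : ∀ p' ∈ I, ∑ p ∈ I, M p p' = d') (hM : M p1 p1 = 0) :
    ∑ p ∈ I, ∑ p' ∈ I, ∑ a ∈ X p, ∑ b ∈ X p', N a b + (l - 1) * (m * d') ≤
      m * d' * ∑ p ∈ I, ∑ a ∈ X p, ∑ a' ∈ X p, Nat.gcd (x a) (x a') := by
  obtain ⟨g, hg⟩ : ∃ g : ι → ℕ, ∀ p, g p = ∑ a ∈ X p, ∑ a' ∈ X p, Nat.gcd (x a) (x a') :=
    ⟨_, fun _ => rfl⟩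
  obtain ⟨S, hS⟩ : ∃ S : ι → ι → ℕ, ∀ p p', S p p' = ∑ a ∈ X p, ∑ b ∈ X p', N a b :=
    ⟨_, fun _ _ => rfl⟩
  obtain ⟨L, hL⟩ : ∃ L, L = l - 1 := ⟨_, rfl⟩
  -- the bound for one pair
  have h3 : ∀ p ∈ I, ∀ p' ∈ I, 2 * (eB p * S p p') ≤
      m * M p p' * (2 * ∑ a ∈ X p, ∑ b ∈ X p', Nat.gcd (eB p * x a) (eB p' * x b)) := by
    intro p hp p' hp'
    have h2 : ∀ a ∈ X p, ∀ b ∈ X p', eB p * N a b ≤
        m * M p p' * Nat.gcd (eB p * x a) (eB p' * x b) := by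
      intro a ha b hb
      have hxa := hx p hp a ha
      have hxb := hx p' hp' b hb
      have hpp := hB p hp
      have hpp' := hB p' hp'
      have h := hN p hp p' hp' a ha b hb
      have hgl : Nat.gcd (eB p * x a) (eB p' * x b) * Nat.lcm (eB p * x a) (eB p' * x b) =
          (eB p * x a) * (eB p' * x b) := Nat.gcd_mul_lcm _ _
      refine Nat.le_of_mul_le_mul_left ?_ (Nat.mul_pos hxa (Nat.mul_pos hpp' hxb))
      calc x a * (eB p' * x b) * (eB p * N a b) = N a b * ((eB p * x a) * (eB p' * x b)) := by ring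
        _ = (N a b * Nat.lcm (eB p * x a) (eB p' * x b)) *
            Nat.gcd (eB p * x a) (eB p' * x b) := by rw [← hgl]; ring
        _ ≤ (eB p' * x b * (m * (x a * M p p'))) * Nat.gcd (eB p * x a) (eB p' * x b) :=
            Nat.mul_le_mul_right _ h
        _ = _ := by ring
    have h4 : eB p * S p p' ≤ m * M p p' * ∑ a ∈ X p, ∑ b ∈ X p',
        Nat.gcd (eB p * x a) (eB p' * x b) := by
      rw [hS]
      simp only [Finset.mul_sum]
      exact Finset.sum_le_sum fun a ha => Finset.sum_le_sum fun b hb => h2 a ha b hb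
    calc 2 * (eB p * S p p') ≤ 2 * (m * M p p' * ∑ a ∈ X p, ∑ b ∈ X p',
          Nat.gcd (eB p * x a) (eB p' * x b)) := Nat.mul_le_mul_left _ h4
      _ = _ := by ring
  have h1 : ∀ p ∈ I, ∀ p' ∈ I, 2 * (eB p * S p p') ≤
      m * M p p' * (eB p' * g p + eB p * g p') := by
    intro p hp p' hp'
    have h4 := WildV.gcd_psd (X p) (X p') x x (hB p hp) (hB p' hp') (hx p hp) (hx p' hp')
    rw [← hg, ← hg] at h4
    exact (h3 p hp p' hp').trans (Nat.mul_le_mul_left _ h4)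
  have h1a : ∀ p' ∈ I, p' ≠ p1 → 2 * (eB p1 * S p1 p') + m * M p1 p' * (L * eB p') ≤
      m * M p1 p' * (eB p' * g p1 + eB p1 * g p') := by
    intro p' hp' hne
    have h4 := gcd_psd_gain (X p1) (X p') x x (e := eB p1) (e' := eB p') hl (hB p1 hp1)
      (hB p' hp') (hx p1 hp1) (hx p' hp') ha1 (by rw [hB1, one_mul, hx1])
      (fun a ha haa => hlone p1 hp1 a ha fun h => haa h.2)
      (fun b hb => hlone p' hp' b hb fun h => hne h.1)
    rw [← hg, ← hg, ← hL] at h4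
    have h5 := h3 p1 hp1 p' hp'
    have h6 : 2 * (∑ a ∈ X p1, ∑ b ∈ X p', Nat.gcd (eB p1 * x a) (eB p' * x b)) + L * eB p' ≤
        eB p' * g p1 + eB p1 * g p' := by
      have h7 := h4
      simp only [hB1, one_mul] at h7 ⊢
      exact h7
    calc 2 * (eB p1 * S p1 p') + m * M p1 p' * (L * eB p') ≤
          m * M p1 p' * (2 * ∑ a ∈ X p1, ∑ b ∈ X p', Nat.gcd (eB p1 * x a) (eB p' * x b)) +
            m * M p1 p' * (L * eB p') := Nat.add_le_add_right h5 _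
      _ = m * M p1 p' * (2 * (∑ a ∈ X p1, ∑ b ∈ X p', Nat.gcd (eB p1 * x a) (eB p' * x b)) +
            L * eB p') := by ring
      _ ≤ _ := Nat.mul_le_mul_left _ h6
  have h1b : ∀ p ∈ I, p ≠ p1 → 2 * (eB p * S p p1) + m * M p p1 * (L * eB p) ≤
      m * M p p1 * (eB p1 * g p + eB p * g p1) := by
    intro p hp hne
    have h4 := gcd_psd_gain (X p1) (X p) x x (e := eB p1) (e' := eB p) hl (hB p1 hp1)
      (hB p hp) (hx p1 hp1) (hx p hp) ha1 (by rw [hB1, one_mul, hx1])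
      (fun a ha haa => hlone p1 hp1 a ha fun h => haa h.2)
      (fun b hb => hlone p hp b hb fun h => hne h.1)
    rw [← hg, ← hg, ← hL] at h4
    have h5 := h3 p hp p1 hp1
    have hsw : ∑ a ∈ X p, ∑ b ∈ X p1, Nat.gcd (eB p * x a) (eB p1 * x b) =
        ∑ b ∈ X p1, ∑ a ∈ X p, Nat.gcd (eB p1 * x b) (eB p * x a) := by
      rw [Finset.sum_comm]
      refine Finset.sum_congr rfl fun b _ => Finset.sum_congr rfl fun a _ => ?_
      exact Nat.gcd_comm _ _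
    have h6 : 2 * (∑ a ∈ X p, ∑ b ∈ X p1, Nat.gcd (eB p * x a) (eB p1 * x b)) + L * eB p ≤
        eB p1 * g p + eB p * g p1 := by
      rw [hsw]
      have h7 := h4
      simp only [hB1, one_mul] at h7 ⊢
      omega
    calc 2 * (eB p * S p p1) + m * M p p1 * (L * eB p) ≤
          m * M p p1 * (2 * ∑ a ∈ X p, ∑ b ∈ X p1, Nat.gcd (eB p * x a) (eB p1 * x b)) +
            m * M p p1 * (L * eB p) := Nat.add_le_add_right h5 _
      _ = m * M p p1 * (2 * (∑ a ∈ X p, ∑ b ∈ X p1, Nat.gcd (eB p * x a) (eB p1 * x b)) +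
            L * eB p) := by ring
      _ ≤ _ := Nat.mul_le_mul_left _ h6
  -- divide by `eB p`
  have h5 : ∀ p ∈ I, ∀ p' ∈ I, (2 : ℚ) * (S p p' : ℚ) +
      ((if p = p1 then (m * L : ℚ) * ((eB p' : ℚ) * (M p1 p' : ℚ)) else 0) +
        (if p' = p1 then (m * L : ℚ) * (M p p1 : ℚ) else 0)) ≤
      m * (g p : ℚ) / (eB p : ℚ) * ((eB p' : ℚ) * (M p p' : ℚ)) + m * (g p' : ℚ) * (M p p' : ℚ) := by
    intro p hp p' hp'
    have hpos : (0 : ℚ) < (eB p : ℚ) := by exact_mod_cast hB p hp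
    have e1 : m * (g p : ℚ) / (eB p : ℚ) * ((eB p' : ℚ) * (M p p' : ℚ)) +
        m * (g p' : ℚ) * (M p p' : ℚ) = ((m : ℚ) * (M p p' : ℚ) * ((eB p' : ℚ) * (g p : ℚ) +
          (eB p : ℚ) * (g p' : ℚ))) / (eB p : ℚ) := by
      field_simp
    rw [e1, le_div_iff₀ hpos]
    by_cases hpp : p = p1
    · by_cases hpp' : p' = p1
      · subst hpp
        subst hpp'
        have h := h1 p' hp' p' hp'
        rw [hM, mul_zero, zero_mul] at h
        have h' : (2 : ℚ) * ((eB p' : ℚ) * (S p' p' : ℚ)) ≤ 0 := by exact_mod_cast h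
        simp only [if_true, hM, Nat.cast_zero, mul_zero, zero_mul, add_zero]
        linarith
      · subst hpp
        rw [if_pos rfl, if_neg hpp', add_zero]
        have h := h1a p' hp' hpp'
        have h' : (2 : ℚ) * ((eB p : ℚ) * (S p p' : ℚ)) +
            (m : ℚ) * (M p p' : ℚ) * ((L : ℚ) * (eB p' : ℚ)) ≤
            (m : ℚ) * (M p p' : ℚ) * ((eB p' : ℚ) * (g p : ℚ) + (eB p : ℚ) * (g p' : ℚ)) := by
          exact_mod_cast h
        have hb1 : (eB p : ℚ) = 1 := by exact_mod_cast hB1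
        rw [hb1] at h' ⊢
        linarith
    · by_cases hpp' : p' = p1
      · subst hpp'
        rw [if_neg hpp, if_pos rfl, zero_add]
        have h := h1b p hp hpp
        have h' : (2 : ℚ) * ((eB p : ℚ) * (S p p' : ℚ)) +
            (m : ℚ) * (M p p' : ℚ) * ((L : ℚ) * (eB p : ℚ)) ≤
            (m : ℚ) * (M p p' : ℚ) * ((eB p' : ℚ) * (g p : ℚ) + (eB p : ℚ) * (g p' : ℚ)) := by
          exact_mod_cast h
        linarith
      · rw [if_neg hpp, if_neg hpp', add_zero, add_zero]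
        have h := h1 p hp p' hp'
        have h' : (2 : ℚ) * ((eB p : ℚ) * (S p p' : ℚ)) ≤
            (m : ℚ) * (M p p' : ℚ) * ((eB p' : ℚ) * (g p : ℚ) + (eB p : ℚ) * (g p' : ℚ)) := by
          exact_mod_cast h
        linarith
  have h6 : ∑ p ∈ I, ∑ p' ∈ I, ((2 : ℚ) * (S p p' : ℚ) +
      ((if p = p1 then (m * L : ℚ) * ((eB p' : ℚ) * (M p1 p' : ℚ)) else 0) +
        (if p' = p1 then (m * L : ℚ) * (M p p1 : ℚ) else 0))) ≤
      ∑ p ∈ I, ∑ p' ∈ I, (m * (g p : ℚ) / (eB p : ℚ) * ((eB p' : ℚ) * (M p p' : ℚ)) +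
        m * (g p' : ℚ) * (M p p' : ℚ)) :=
    Finset.sum_le_sum fun p hp => Finset.sum_le_sum fun p' hp' => h5 p hp p' hp'
  have h7 : ∑ p ∈ I, ∑ p' ∈ I, (m * (g p : ℚ) / (eB p : ℚ) * ((eB p' : ℚ) * (M p p' : ℚ)) +
        m * (g p' : ℚ) * (M p p' : ℚ)) = 2 * (m * d' * ∑ p ∈ I, (g p : ℚ)) := by
    simp only [Finset.sum_add_distrib]
    have e1 : ∑ p ∈ I, ∑ p' ∈ I, m * (g p : ℚ) / (eB p : ℚ) * ((eB p' : ℚ) * (M p p' : ℚ)) =
        m * d' * ∑ p ∈ I, (g p : ℚ) := by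
      rw [Finset.mul_sum]
      refine Finset.sum_congr rfl fun p hp => ?_
      rw [← Finset.mul_sum]
      have hpos : (eB p : ℚ) ≠ 0 := by
        have := hB p hp
        have : (eB p) ≠ 0 := by omega
        exact_mod_cast this
      have hr : ∑ p' ∈ I, (eB p' : ℚ) * (M p p' : ℚ) = (eB p : ℚ) * d' := by
        exact_mod_cast hrow p hp
      rw [hr]
      field_simp
    have e2 : ∑ p ∈ I, ∑ p' ∈ I, m * (g p' : ℚ) * (M p p' : ℚ) =
        m * d' * ∑ p ∈ I, (g p : ℚ) := by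
      rw [Finset.sum_comm, Finset.mul_sum]
      refine Finset.sum_congr rfl fun p' hp' => ?_
      rw [← Finset.mul_sum]
      have hr : ∑ p ∈ I, (M p p' : ℚ) = d' := by exact_mod_cast hcol p' hp'
      rw [hr]
      ring
    rw [e1, e2]
    ring
  have h8 : ∑ p ∈ I, ∑ p' ∈ I, ((2 : ℚ) * (S p p' : ℚ) +
      ((if p = p1 then (m * L : ℚ) * ((eB p' : ℚ) * (M p1 p' : ℚ)) else 0) +
        (if p' = p1 then (m * L : ℚ) * (M p p1 : ℚ) else 0))) =
      2 * (∑ p ∈ I, ∑ p' ∈ I, (S p p' : ℚ)) + 2 * (L * (m * d')) := by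
    have e3 : ∑ p ∈ I, ∑ p' ∈ I,
        (if p = p1 then (m * L : ℚ) * ((eB p' : ℚ) * (M p1 p' : ℚ)) else 0) = m * L * d' := by
      have e4 : ∀ p ∈ I, ∑ p' ∈ I,
          (if p = p1 then (m * L : ℚ) * ((eB p' : ℚ) * (M p1 p' : ℚ)) else 0) =
          if p = p1 then (m * L * d' : ℚ) else 0 := by
        intro p _
        by_cases h : p = p1
        · simp only [if_pos h]
          rw [← Finset.mul_sum]
          have hr : ∑ p' ∈ I, (eB p' : ℚ) * (M p1 p' : ℚ) = d' := by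
            have := hrow p1 hp1
            rw [hB1, one_mul] at this
            exact_mod_cast this
          rw [hr]
        · simp only [if_neg h, Finset.sum_const_zero]
      rw [Finset.sum_congr rfl e4, Finset.sum_ite_eq' I p1, if_pos hp1]
    have e5 : ∑ p ∈ I, ∑ p' ∈ I, (if p' = p1 then (m * L : ℚ) * (M p p1 : ℚ) else 0) =
        m * L * d' := by
      have e6 : ∀ p ∈ I, ∑ p' ∈ I, (if p' = p1 then (m * L : ℚ) * (M p p1 : ℚ) else 0) =
          (m * L : ℚ) * (M p p1 : ℚ) := by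
        intro p _
        rw [Finset.sum_ite_eq' I p1, if_pos hp1]
      rw [Finset.sum_congr rfl e6, ← Finset.mul_sum]
      have hr : ∑ p ∈ I, (M p p1 : ℚ) = d' := by exact_mod_cast hcol p1 hp1
      rw [hr]
    simp only [Finset.sum_add_distrib]
    rw [e3, e5]
    have e7 : ∑ p ∈ I, ∑ p' ∈ I, (2 : ℚ) * (S p p' : ℚ) =
        2 * ∑ p ∈ I, ∑ p' ∈ I, (S p p' : ℚ) := by
      simp only [Finset.mul_sum]
    rw [e7]
    ring
  have h9 : (∑ p ∈ I, ∑ p' ∈ I, (S p p' : ℚ)) + L * (m * d') ≤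
      m * d' * ∑ p ∈ I, (g p : ℚ) := by
    rw [h7, h8] at h6
    linarith
  have h10 : (∑ p ∈ I, ∑ p' ∈ I, S p p') + L * (m * d') ≤ m * d' * ∑ p ∈ I, g p := by
    exact_mod_cast h9
  simpa only [hS, hg, hL] using h10

theorem GcdL_gs_cons (a : ℕ) (L : Multiset ℕ) :
    gs (a ::ₘ L) = gs L + 2 * (L.map fun b => Nat.gcd a b).sum + a := by
  unfold gs
  simp only [Multiset.map_cons, Multiset.sum_cons, Nat.gcd_self, Multiset.sum_map_add]
  have h1 : (L.map fun b => Nat.gcd b a) = L.map fun b => Nat.gcd a b :=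
    Multiset.map_congr rfl fun b _ => Nat.gcd_comm _ _
  rw [h1]
  ring

theorem GcdL_gs_parity (L : Multiset ℕ) : Even (gs L + L.sum) := by
  induction L using Multiset.induction_on with
  | empty => simp [gs]
  | cons a L ih =>
    rw [GcdL_gs_cons, Multiset.sum_cons]
    obtain ⟨k, hk⟩ := ih
    exact ⟨k + (L.map fun b => Nat.gcd a b).sum + a, by omega⟩

/-- Parity of the weight: `wt L ≡ card L * sum L - sum L` modulo two.

Proof.  `wt_add_gs` (WV/Wt.lean): `wt L + gs L = card L * sum L`; and `gs L ≡ sum L` modulo two: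
`gs (a ::ₘ L) = gs L + 2 ∑ gcd (a, b) + a` (induction; there may be a lemma `gs_cons` in WV/Wt.lean). -/
theorem wt_parity (L : Multiset ℕ) (h : ∀ e ∈ L, 1 ≤ e) :
    Even ((wt L : ℤ) - (Multiset.card L * L.sum - L.sum)) := by
  have h1 := WildV.wt_add_gs L h
  have h2 := GcdL_gs_parity L
  have h3 : (wt L : ℤ) + gs L = Multiset.card L * L.sum := by exact_mod_cast h1
  obtain ⟨k, hk⟩ := h2
  have hk' : (gs L : ℤ) + L.sum = k + k := by exact_mod_cast hk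
  refine ⟨(L.sum : ℤ) - k, ?_⟩
  linarith

end WildH
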