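import Mathlib

/-!
# Permutation groups generated by cycles of a fixed length (helper21, MP_11236d_an, stage 3)
-/

namespace WildH

open Equiv

variable {Ω : Type} [Fintype Ω] [DecidableEq Ω]

/-- The cycles of length `l` in `G`. -/
def LCs (G : Subgroup (Perm Ω)) (l : ℕ) : Set (Perm Ω) := {g | g ∈ G ∧ g.IsCycle ∧ g.support.card = l}

/-- The subgroup generated by the cycles of length `l`. -/
def NL (G : Subgroup (Perm Ω)) (l : ℕ) : Subgroup (Perm Ω) := Subgroup.closure (LCs G l)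

/-- The orbit relation of `NL G l`. -/
def Rel (G : Subgroup (Perm Ω)) (l : ℕ) (u v : Ω) : Prop := ∃ n ∈ NL G l, n u = v

theorem NL_le (G : Subgroup (Perm Ω)) (l : ℕ) : NL G l ≤ G :=
  (Subgroup.closure_le _).2 fun _ hg => hg.1

theorem Rel.refl (G : Subgroup (Perm Ω)) (l : ℕ) (u : Ω) : Rel G l u u := ⟨1, one_mem _, rfl⟩

theorem Rel.symm {G : Subgroup (Perm Ω)} {l : ℕ} {u v : Ω} (h : Rel G l u v) : Rel G l v u := by
  obtain ⟨n, hn, rfl⟩ := h
  exact ⟨n⁻¹, inv_mem hn, by simp⟩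

theorem Rel.trans {G : Subgroup (Perm Ω)} {l : ℕ} {u v w : Ω} (h : Rel G l u v)
    (h' : Rel G l v w) : Rel G l u w := by
  obtain ⟨n, hn, rfl⟩ := h
  obtain ⟨m, hm, rfl⟩ := h'
  exact ⟨m * n, mul_mem hm hn, rfl⟩

theorem grp1_conj_mem {G : Subgroup (Perm Ω)} {l : ℕ} {g n : Perm Ω} (hg : g ∈ G)
    (hn : n ∈ NL G l) : g * n * g⁻¹ ∈ NL G l := by
  refine Subgroup.closure_induction (p := fun n _ => g * n * g⁻¹ ∈ NL G l) ?_ ?_ ?_ ?_ hn
  · intro x hx
    exact Subgroup.subset_closure ⟨mul_mem (mul_mem hg hx.1) (inv_mem hg), hx.2.1.conj, by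
      rw [Perm.card_support_conj]; exact hx.2.2⟩
  · rw [mul_one, mul_inv_cancel]
    exact one_mem _
  · intro x y _ _ hx hy
    have h : g * (x * y) * g⁻¹ = (g * x * g⁻¹) * (g * y * g⁻¹) := by group
    rw [h]
    exact mul_mem hx hy
  · intro x _ hx
    have h : g * x⁻¹ * g⁻¹ = (g * x * g⁻¹)⁻¹ := by group
    rw [h]
    exact inv_mem hx

/-- The relation is invariant under `G`.  Proof: `NL G l` is normalised by `G` (a conjugate of a cycle
of length `l` is a cycle of length `l`: `Equiv.Perm.IsCycle.conj`, `Equiv.Perm.card_support_conj`). -/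
theorem Rel.map {G : Subgroup (Perm Ω)} {l : ℕ} {u v : Ω} (h : Rel G l u v) {g : Perm Ω}
    (hg : g ∈ G) : Rel G l (g u) (g v) := by
  obtain ⟨n, hn, rfl⟩ := h
  exact ⟨g * n * g⁻¹, grp1_conj_mem hg hn, by simp [Perm.mul_apply]⟩

/-- The points moved by one cycle are related.  Proof: `Equiv.Perm.IsCycle` gives a power of `g`
mapping `u` to `v`. -/
theorem rel_supp {G : Subgroup (Perm Ω)} {l : ℕ} {g : Perm Ω} (hg : g ∈ LCs G l) {u v : Ω}
    (hu : g u ≠ u) (hv : g v ≠ v) : Rel G l u v := by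
  obtain ⟨i, hi⟩ := hg.2.1.exists_zpow_eq hu hv
  exact ⟨g ^ i, zpow_mem (Subgroup.subset_closure hg) i, hi⟩

/-- **Local transitivity.**

Proof.  `v` is obtained from `u` by a word of cycles of length `l` (and inverses):
`Subgroup.closure_induction` (or `Subgroup.exists_list_of_mem_closure`).  Leave out those letters which
fix the current point; the other letters move the current point, which is in the class of `u`, so
their support lies in the class of `u` (`rel_supp`) and they fix every point outside.  (By induction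
over the word: the current point stays in the class.) -/
theorem rel_loc {G : Subgroup (Perm Ω)} {l : ℕ} {u v : Ω} (h : Rel G l u v) :
    ∃ n ∈ G, n u = v ∧ ∀ w, ¬ Rel G l u w → n w = w := by
  obtain ⟨T, hT⟩ : ∃ T : Set Ω, T = {v | Rel G l u v ∧
    ∃ n ∈ G, n u = v ∧ ∀ w, ¬ Rel G l u w → n w = w} := ⟨_, rfl⟩
  have hgen : ∀ g ∈ LCs G l, ∀ v, v ∈ T → g v ∈ T := by
    intro g hg v hv
    by_cases hgv : g v = v
    · rw [hgv]
      exact hv
    · rw [hT] at hv ⊢
      obtain ⟨h1, m, hm, h2, h3⟩ := hv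
      refine ⟨h1.trans ⟨g, Subgroup.subset_closure hg, rfl⟩, g * m, mul_mem hg.1 hm, ?_, ?_⟩
      · rw [Perm.mul_apply, h2]
      · intro w hw
        rw [Perm.mul_apply, h3 w hw]
        by_contra hne
        exact hw (h1.trans (rel_supp hg hgv hne))
  have hinv : ∀ g ∈ LCs G l, g⁻¹ ∈ LCs G l := by
    intro g hg
    exact ⟨inv_mem hg.1, hg.2.1.inv, by rw [Perm.support_inv]; exact hg.2.2⟩
  have hiff : ∀ n ∈ NL G l, ∀ v, v ∈ T ↔ n v ∈ T := by
    intro n hn
    refine Subgroup.closure_induction (p := fun n _ => ∀ v, v ∈ T ↔ n v ∈ T) ?_ ?_ ?_ ?_ hn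
    · intro g hg v
      refine ⟨hgen g hg v, fun hv => ?_⟩
      have h1 := hgen g⁻¹ (hinv g hg) (g v) hv
      have h2 : g⁻¹ (g v) = v := g.symm_apply_apply v
      rwa [h2] at h1
    · intro v
      rfl
    · intro x y _ _ hx hy v
      rw [Perm.mul_apply, ← hx (y v)]
      exact hy v
    · intro x _ hx v
      have h2 : x (x⁻¹ v) = v := x.apply_symm_apply v
      rw [hx (x⁻¹ v), h2]
  obtain ⟨n, hn, rfl⟩ := h
  have hu : u ∈ T := by
    rw [hT]
    exact ⟨Rel.refl G l u, 1, one_mem _, rfl, fun w _ => rfl⟩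
  have h1 := (hiff n hn u).1 hu
  rw [hT] at h1
  exact h1.2

end WildH
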