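import Pool.Agent.helper21.HD.Defs
import Pool.Agent.helper21.WV.StB

/-! Irreducible curves `C_A`.  (proofs: helper41) -/

namespace WildH

open Polynomial WildRat WildS WildV

variable {K : Type} [Field K] [Algebra ℂ K] {L : Type} [Field L] [Algebra ℂ L]

/-- The curve `C_A` is irreducible. -/
def IrrCurve (A : RF) : Prop := ∃ F : ℂ[X][X], Irreducible F ∧ A.W = (C X - X) * F

/-- All pairs of coordinates with the same value of `A` have the largest possible degree. -/
def Tr2 (A : RF) : Prop :=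
  ∀ (K : Type) [Field K] [Algebra ℂ K] (φ ψ : E →ₐ[ℂ] K), FinC φ → φ ≠ ψ →
    φ (elt A) = ψ (elt A) → (mu φ (ψ RatFunc.X)).natDegree + 1 = A.n

theorem IrrA_W (A : RF) (hn : 1 ≤ A.n) :
    A.W.map (algebraMap ℂ[X] E) = - (C (algebraMap ℂ[X] E A.Q) * GG A) := by
  have hQE : algebraMap ℂ[X] E A.Q ≠ 0 := by
    rw [Ne, map_eq_zero_iff _ (RatFunc.algebraMap_injective ℂ)]
    exact A.Q_ne_zero hn
  have hx0 : algebraMap ℂ[X] E A.Q * elt A = algebraMap ℂ[X] E A.P := by
    rw [elt_eq, mul_div_cancel₀ _ hQE]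
  have hc : (algebraMap ℂ[X] E).comp C = algebraMap ℂ E := by
    ext c
    exact (algC_E c).symm
  unfold RF.W GG
  rw [Polynomial.map_sub, Polynomial.map_mul, Polynomial.map_mul, map_C, map_C,
    Polynomial.map_map, Polynomial.map_map, hc, ← hx0, C_mul]
  ring

theorem IrrA_irr {A : RF} (hn : 2 ≤ A.n) {F : ℂ[X][X]} (hF : Irreducible F)
    (hW : A.W = (C X - X) * F) :
    C (algebraMap ℂ[X] E A.Q) * GG A = (X - C RatFunc.X) * F.map (algebraMap ℂ[X] E) ∧
      Irreducible (F.map (algebraMap ℂ[X] E)) ∧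
      (F.map (algebraMap ℂ[X] E)).natDegree + 1 = A.n := by
  have hn1 : 1 ≤ A.n := by omega
  have hQE : algebraMap ℂ[X] E A.Q ≠ 0 := by
    rw [Ne, map_eq_zero_iff _ (RatFunc.algebraMap_injective ℂ)]
    exact A.Q_ne_zero hn1
  have h1 : C (algebraMap ℂ[X] E A.Q) * GG A =
      (X - C RatFunc.X) * F.map (algebraMap ℂ[X] E) := by
    have h2 := IrrA_W A hn1
    rw [hW, Polynomial.map_mul, Polynomial.map_sub, map_C, map_X, RatFunc.algebraMap_X] at h2
    linear_combination h2
  have hinj : Function.Injective (algebraMap ℂ[X] E) := RatFunc.algebraMap_injective ℂ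
  have hF0 : F.map (algebraMap ℂ[X] E) ≠ 0 := by
    rw [Ne, Polynomial.map_eq_zero_iff hinj]
    exact hF.ne_zero
  have h3 : (F.map (algebraMap ℂ[X] E)).natDegree + 1 = A.n := by
    have h4 := congrArg natDegree h1
    rw [natDegree_C_mul hQE, GG_natDegree A hn1, natDegree_mul (X_sub_C_ne_zero _) hF0,
      natDegree_X_sub_C] at h4
    omega
  refine ⟨h1, ?_, h3⟩
  have h5 : F.natDegree ≠ 0 := by
    rw [natDegree_map_eq_of_injective hinj] at h3
    omega
  exact ((hF.isPrimitive h5).irreducible_iff_irreducible_map_fraction_map).1 hF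

/-- Proof.  Map the polynomial `W(x, y) = P(x) Q(y) - P(y) Q(x)` (`RF.W`, coefficients in the inner
variable `x`) to `E[Y]` by `ℂ[X] → E`: the image is `- Q(x) * GG A` (unfold `RF.W`, `GG`, `elt_eq`), so
`GG A = (Y - x) * G` with `G` the image of `F` up to a nonzero factor in `E`.  `F` is irreducible in
`ℂ[x][y]`; it is not a polynomial in `x` alone (compare degrees in `y`: `GG A` has degree `A.n ≥ 2`,
`GG_natDegree`), so it is primitive and irreducible in `E[Y]` by the lemma of Gauss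
(`Polynomial.IsPrimitive.irreducible_iff_irreducible_map_fraction_map`, with `IsFractionRing ℂ[X] E`).
For a pair, `NN_dvd`: `(Y - x) mu ∣ GG A`, so `mu ∣ G`, `mu` is irreducible, so it is associated to `G`, and
`natDegree G + 1 = A.n`. -/
theorem Tr2_of_irr {A : RF} (hn : 2 ≤ A.n) (h : IrrCurve A) : Tr2 A := by
  intro K _ _ φ ψ hφ hne heq
  obtain ⟨F, hF, hW⟩ := h
  obtain ⟨h1, h2, h3⟩ := IrrA_irr hn hF hW
  have h4 : NN φ ψ ∣ (X - C RatFunc.X) * F.map (algebraMap ℂ[X] E) := by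
    rw [← h1]
    exact (NN_dvd A (by omega) hne heq).trans (dvd_mul_left _ _)
  unfold NN at h4
  have h5 : mu φ (ψ RatFunc.X) ∣ F.map (algebraMap ℂ[X] E) :=
    (mul_dvd_mul_iff_left (X_sub_C_ne_zero _)).1 h4
  obtain ⟨hm, hpos⟩ := mu_pos φ hφ (ψ RatFunc.X)
  have h6 : ¬ IsUnit (mu φ (ψ RatFunc.X)) := by
    intro hu
    have := natDegree_eq_zero_of_isUnit hu
    omega
  rcases h2.dvd_iff.1 h5 with h7 | h7
  · exact absurd h7 h6
  · rw [← natDegree_eq_of_degree_eq (degree_eq_degree_of_associated h7)]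
    exact h3

/-- Proof.  `GG A = (X - C RatFunc.X) * mu0` with `mu0` monic of degree `A.n - 1 ≥ 1` (`GG_root`,
`StB_GG_monic`).  Let `F` be an irreducible factor of `mu0`; `exists_factor_pair` (WV/DTFacts.lean) gives a pair
with `mu` associated to `F`, so `F` has degree `A.n - 1` and `mu0` is associated to `F`. -/
theorem DTm_of_Tr2 {A : RF} (hn : 2 ≤ A.n) (hm : A.P.Monic) (hlt : A.Q.natDegree < A.P.natDegree)
    (h : Tr2 A) : DTm A := by
  have hn1 : 1 ≤ A.n := by omega
  have hroot : (X - C RatFunc.X : E[X]) ∣ GG A := by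
    rw [dvd_iff_isRoot, IsRoot.def]
    exact GG_root A hn1
  obtain ⟨G, hG⟩ := hroot
  have hG0 : G ≠ 0 := by
    rintro rfl
    rw [mul_zero] at hG
    exact Gauss_GG_ne A hn1 hG
  have hdeg : A.n = 1 + G.natDegree := by
    rw [← GG_natDegree A hn1, hG, natDegree_mul (X_sub_C_ne_zero _) hG0, natDegree_X_sub_C]
  have hGm : G.Monic := by
    have h1 := StB_GG_monic hm hlt
    rw [hG] at h1
    exact (monic_X_sub_C _).of_mul_monic_left h1
  have hGu : ¬ IsUnit G := by
    intro hu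
    have := natDegree_eq_zero_of_isUnit hu
    omega
  obtain ⟨F, hF, hFG⟩ := WfDvdMonoid.exists_irreducible_factor hGu hG0
  obtain ⟨K, i1, i2, φ, ψ, h1, h2, h3, h4⟩ := exists_factor_pair A hn1 hF
    (by rw [hG]; exact mul_dvd_mul_left _ hFG)
  have h5 : (mu φ (ψ RatFunc.X)).natDegree = F.natDegree :=
    natDegree_eq_of_degree_eq (degree_eq_degree_of_associated h4)
  have h6 := h K φ ψ h1 h2 h3
  obtain ⟨H, hH⟩ := hFG
  have hH0 : H ≠ 0 := by
    rintro rfl
    rw [mul_zero] at hH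
    exact hG0 hH
  have h7 : G.natDegree = F.natDegree + H.natDegree := by
    rw [hH, natDegree_mul hF.ne_zero hH0]
  have h8 : IsUnit H := by
    rw [eq_C_of_natDegree_eq_zero (by omega : H.natDegree = 0)] at hH0 ⊢
    exact isUnit_C.2 (IsUnit.mk0 _ fun h0 => hH0 (by rw [h0, C_0]))
  refine ⟨G, ?_, hGm, hG⟩
  rw [hH]
  exact (irreducible_mul_isUnit h8).2 hF

end WildH
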