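import Pool.Agent.helper21.HD.IrrA
import Pool.Agent.helper21.WV.Normal1

/-! Normalisation without a distinguished value. -/

namespace WildH

open Polynomial WildRat WildS WildV

variable {K : Type} [Field K] [Algebra ℂ K] {L : Type} [Field L] [Algebra ℂ L]

theorem Norm0_root (φ : E →ₐ[ℂ] K) (u : K) : (mu φ u).eval₂ φ.toRingHom u = 0 := by
  unfold mu
  let := φ.toRingHom.toAlgebra
  exact minpoly.aeval E u

theorem Norm0_dvd (φ : E →ₐ[ℂ] K) (u : K) {p : E[X]} (h : p.eval₂ φ.toRingHom u = 0) :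
    mu φ u ∣ p := by
  unfold mu
  let := φ.toRingHom.toAlgebra
  exact minpoly.dvd E u h

theorem Norm0_le {φ1 φ2 : E →ₐ[ℂ] K} (h1 : FinC φ1) {s : E →ₐ[ℂ] E} (hs : φ1 = φ2.comp s)
    (u : K) : (mu φ2 u).natDegree ≤ (mu φ1 u).natDegree := by
  have h2 := Norm0_root φ1 u
  have h3 : ((mu φ1 u).map s.toRingHom).eval₂ φ2.toRingHom u = 0 := by
    rw [eval₂_map]
    have h4 : φ2.toRingHom.comp s.toRingHom = φ1.toRingHom := by
      rw [hs]
      rfl
    rw [h4]
    exact h2
  have h5 := Norm0_dvd φ2 u h3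
  have h6 : (mu φ1 u).map s.toRingHom ≠ 0 :=
    ((mu_pos φ1 h1 u).1.map _).ne_zero
  have h7 := natDegree_le_of_dvd h5 h6
  rwa [natDegree_map] at h7

/-- A Moebius function generates the same field. -/
theorem Norm0_adj (φ : E →ₐ[ℂ] K) (hφ : FinC φ) (M M' : RF) {v v' : K} (h : v' = M.app v)
    (h' : v = M'.app v') : (mu φ v).natDegree = (mu φ v').natDegree := by
  unfold mu
  let := φ.toRingHom.toAlgebra
  have : IsScalarTower ℂ E K := IsScalarTower.of_algebraMap_eq fun c => (φ.commutes c).symm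
  have hfin : Module.Finite E K := hφ
  have key : ∀ (N : RF) (x : K) (F : IntermediateField E K), x ∈ F → N.app x ∈ F := by
    intro N x F hx
    have hp : ∀ p : ℂ[X], aeval x p ∈ F := by
      intro p
      rw [aeval_eq_sum_range]
      refine sum_mem fun i _ => ?_
      rw [Algebra.smul_def, IsScalarTower.algebraMap_apply ℂ E K]
      exact mul_mem (F.algebraMap_mem _) (pow_mem hx i)
    unfold RF.app
    exact div_mem (hp _) (hp _)
  have heq : IntermediateField.adjoin E {v} = IntermediateField.adjoin E {v'} := by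
    apply le_antisymm
    · rw [IntermediateField.adjoin_simple_le_iff, h']
      exact key M' v' _ (IntermediateField.mem_adjoin_simple_self E v')
    · rw [IntermediateField.adjoin_simple_le_iff, h]
      exact key M v _ (IntermediateField.mem_adjoin_simple_self E v)
  rw [← IntermediateField.adjoin.finrank (Algebra.IsIntegral.isIntegral v),
    ← IntermediateField.adjoin.finrank (Algebra.IsIntegral.isIntegral v'), heq]

theorem Norm0_pas {A A' : RF} (hn : 1 ≤ A.n) (hn' : 1 ≤ A'.n) {σ τ : P1 → P1}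
    (hσ : Function.Bijective σ) (hτ : Function.Injective τ)
    (hv : ∀ z, A'.val z = τ (A.val (σ z))) (he : ∀ z, A'.e z = A.e (σ z)) (c : P1) :
    pas A' (τ c) = pas A c := by
  classical
  unfold pas
  have h1 : fibP A c = (fibP A' (τ c)).image σ := by
    ext z
    rw [mem_fibP hn, Finset.mem_image]
    constructor
    · intro hz
      obtain ⟨w, rfl⟩ := hσ.2 z
      exact ⟨w, (mem_fibP hn').2 (by rw [hv, hz]), rfl⟩
    · rintro ⟨w, hw, rfl⟩
      have h2 := (mem_fibP hn').1 hw
      rw [hv] at h2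
      exact hτ h2
  rw [h1, Finset.image_val_of_injOn hσ.1.injOn, Multiset.map_map]
  exact Multiset.map_congr rfl fun z _ => he z

/-- Normalisation without a distinguished value: `A' = T ∘ A ∘ S` with Moebius maps, such that `A'` has
a monic numerator, `A'(∞) = ∞` and infinity is not a critical value.

Proof.  As `normalise1` in WV/Normal1.lean (`Normal_exists_point`, `Normal_S`, `Normal_T`,
`Normal_monic`; leave out the point `q`).  Transport of `TW`: `A'.val z = T (A.val (S z))`,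
`A'.e z = A.e (S z)` with bijections `S`, `T`, so `pas A' (T c) = pas A c`; a finite set `T0` of values of
`A` is mapped to a finite set of values of `A'`.  Transport of `Tr2`: let `φ', ψ'` be a pair for `A'`;
put `φ = φ' ∘ s`, `ψ = ψ' ∘ s`, where `s : E → E` maps `X` to the element of the Moebius map `S`; then
`φ (elt A) = T⁻¹ (φ' (elt A'))` up to the identification, so `φ (elt A) = ψ (elt A)`, `φ ≠ ψ`, and the
degree of `mu φ (ψ X)` is the degree `[ℂ(φ' X, ψ' X) : ℂ(φ' X)]`, the same as for `φ', ψ'` (`φ` and `φ'` have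
the same range, `ψ X` is a Moebius function of `ψ' X` and conversely; for instance
`minpoly` degrees: `IntermediateField.adjoin.finrank`). -/
theorem normalise0 (A : RF) (hn : 1 ≤ A.n) : ∃ A' : RF, A'.P.Monic ∧
    A'.Q.natDegree < A'.P.natDegree ∧ (∀ z, A'.val z = none → A'.e z = 1) ∧ A'.n = A.n ∧
      (∀ (K : Type) [Field K] [Algebra ℂ K] (φ ψ : E →ₐ[ℂ] K), φ ≠ ψ → φ (elt A) = ψ (elt A) →
        ∃ φ' ψ' : E →ₐ[ℂ] K, φ' ≠ ψ' ∧ φ' (elt A') = ψ' (elt A')) ∧ (TW A' → TW A) ∧
      (Tr2 A → Tr2 A') := by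
  classical
  obtain ⟨z0, c0, hz0, hc0⟩ := Normal_exists_point A hn
  obtain ⟨hSe, hSb, S', hS'n, hS'S, hSS', hSapp⟩ := moebius_facts (Normal_S z0) (Normal_S_n z0)
  obtain ⟨hTe, hTb, T', hT'n, hT'T, hTT', hTapp⟩ := moebius_facts (Normal_T c0) (Normal_T_n c0)
  have hSn : 1 ≤ (Normal_S z0).n := by rw [Normal_S_n]
  have hTn : 1 ≤ (Normal_T c0).n := by rw [Normal_T_n]
  have hS'n1 : 1 ≤ S'.n := by rw [hS'n]
  have hT'n1 : 1 ≤ T'.n := by rw [hT'n]
  obtain ⟨A1, hA1, hA1n⟩ := exists_comp A (Normal_S z0) hn hSn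
  obtain ⟨A2, hA2, hA2n⟩ := exists_comp (Normal_T c0) A1 hTn hA1n
  obtain ⟨A3, hA3, hmon, hA3n⟩ := Normal_monic A2 hA2n
  obtain ⟨-, hn1', hv1, he1⟩ := comp_facts hA1 hA1n hSn
  obtain ⟨-, hn2', hv2, he2⟩ := comp_facts hA2 hA2n hA1n
  obtain ⟨hn3, hv3, he3⟩ := congr_elt hA3 hA3n hA2n
  have hval : ∀ z, A3.val z = (Normal_T c0).val (A.val ((Normal_S z0).val z)) := by
    intro z; rw [hv3, hv2, hv1]
  have he : ∀ z, A3.e z = A.e ((Normal_S z0).val z) := by
    intro z; rw [he3, he2, he1, hTe, hSe, one_mul, mul_one]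
  have hnn : A3.n = A.n := by
    rw [hn3, hn2', hn1', Normal_S_n, Normal_T_n]; ring
  have hlt : A3.Q.natDegree < A3.P.natDegree := by
    have h1 : A3.val none = none := by
      rw [hval, Normal_S_none, hz0, Normal_T_some]
    have h2 : A3.Q.coeff A3.n = 0 := by
      by_contra h3
      simp only [RF.val] at h1
      rw [if_neg h3] at h1
      exact absurd h1 (by simp)
    have hQ0 := A3.Q_ne_zero hA3n
    by_contra hcon
    push Not at hcon
    have h3 : A3.n = A3.Q.natDegree := max_eq_right hcon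
    rw [h3, coeff_natDegree] at h2
    exact hQ0 (leadingCoeff_eq_zero.1 h2)
  refine ⟨A3, hmon, hlt, ?_, hnn, ?_, ?_, ?_⟩
  · intro z hz
    rw [he]
    apply hc0
    apply hTb.1
    rw [← hval, hz, Normal_T_some]
  · intro K _ _ φ ψ hne h
    have hφ := coord_nonConst φ
    have hψ := coord_nonConst ψ
    obtain ⟨φ', hφ'⟩ := exists_subst (S'.app_nonConst hS'n1 hφ)
    obtain ⟨ψ', hψ'⟩ := exists_subst (S'.app_nonConst hS'n1 hψ)
    have hkey : ∀ (χ χ' : E →ₐ[ℂ] K), NonConst (χ RatFunc.X) →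
        χ' RatFunc.X = S'.app (χ RatFunc.X) → χ' (elt A3) = (Normal_T c0).app (χ (elt A)) := by
      intro χ χ' hχ hχ'
      have hU : NonConst (S'.app (χ RatFunc.X)) := S'.app_nonConst hS'n1 hχ
      rw [hA3, coord_elt, coord_elt, hχ', hA2.app_eq hU, hA1.app_eq hU, (hSapp K _ hχ).1]
    refine ⟨φ', ψ', ?_, ?_⟩
    · intro heq
      apply coord_ne hne
      rw [← (hSapp K _ hφ).1, ← (hSapp K _ hψ).1, ← hφ', ← hψ', heq]
    · rw [hkey φ φ' hφ hφ', hkey ψ ψ' hψ hψ', h]
  · intro hTW T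
    have h1 := hTW (T.image (Normal_T c0).val)
    rw [Finset.sum_image hTb.1.injOn, hnn] at h1
    rw [Finset.sum_congr rfl fun c _ => by rw [← Norm0_pas hn hA3n hSb hTb.1 hval he c]]
    exact h1
  · intro hTr K _ _ φ' ψ' hfin hne heq
    have hφ' := coord_nonConst φ'
    have hψ' := coord_nonConst ψ'
    obtain ⟨s, hs⟩ := exists_subst (elt_nonConst (Normal_S z0) hSn)
    obtain ⟨s', hs'⟩ := exists_subst (elt_nonConst S' hS'n1)
    have hX : ∀ χ : E →ₐ[ℂ] K, (χ.comp s) RatFunc.X = (Normal_S z0).app (χ RatFunc.X) := by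
      intro χ
      rw [AlgHom.comp_apply, hs, coord_elt]
    have hback : ∀ χ : E →ₐ[ℂ] K, χ = (χ.comp s).comp s' := by
      intro χ
      apply coord_ext
      rw [AlgHom.comp_apply, hs', coord_elt, hX, (hSapp K _ (coord_nonConst χ)).2]
    have hkey : ∀ χ : E →ₐ[ℂ] K,
        χ (elt A3) = (Normal_T c0).app ((χ.comp s) (elt A)) := by
      intro χ
      have hU := coord_nonConst χ
      rw [hA3, coord_elt, coord_elt, hA2.app_eq hU, hA1.app_eq hU, hX]
    have hne2 : φ'.comp s ≠ ψ'.comp s := by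
      intro h
      apply hne
      rw [hback φ', hback ψ', h]
    have heq2 : (φ'.comp s) (elt A) = (ψ'.comp s) (elt A) := by
      have h1 : NonConst ((φ'.comp s) (elt A)) := by
        rw [coord_elt]
        exact A.app_nonConst hn (coord_nonConst _)
      have h2 : NonConst ((ψ'.comp s) (elt A)) := by
        rw [coord_elt]
        exact A.app_nonConst hn (coord_nonConst _)
      rw [← (hTapp K _ h1).2, ← (hTapp K _ h2).2, ← hkey, ← hkey, heq]
    have hfin2 : FinC (φ'.comp s) := finC_all φ' hfin _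
    have h3 := hTr K (φ'.comp s) (ψ'.comp s) hfin2 hne2 heq2
    have h4 : (mu φ' (ψ' RatFunc.X)).natDegree =
        (mu (φ'.comp s) ((ψ'.comp s) RatFunc.X)).natDegree := by
      have h5 : (mu φ' (ψ' RatFunc.X)).natDegree =
          (mu φ' ((ψ'.comp s) RatFunc.X)).natDegree :=
        Norm0_adj φ' hfin (Normal_S z0) S' (hX ψ')
          (by rw [hX, (hSapp K _ (coord_nonConst ψ')).2])
      rw [h5]
      exact le_antisymm (Norm0_le hfin2 rfl _) (Norm0_le hfin (hback φ') _)
    rw [h4, hnn]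
    exact h3

end WildH
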