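import Pool.Agent.helper21.HD.Build
import Pool.Agent.helper21.HD.NormalL
import Pool.Agent.helper21.HD.Norm0

/-! Functions of prime degree, and functions with an irreducible curve (author: helper59). -/

namespace WildH

open Polynomial WildRat WildS WildV

variable {K : Type} [Field K] [Algebra ℂ K] {L : Type} [Field L] [Algebra ℂ L]

/-- A family of maps which acts transitively on a finite set of prime order contains a cycle. -/
theorem PrimeD_cauchy {Ω Γ : Type} [Finite Ω] [Group Γ] [MulAction Γ Ω]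
    (hp : (Nat.card Ω).Prime) (htr : ∀ x y : Ω, ∃ g : Γ, g • x = y) :
    ∃ g : Γ, ∀ x y : Ω, ∃ k : ℕ, (g ^ k) • x = y := by
  classical
  have := Fintype.ofFinite Ω
  let ρ : Γ →* Equiv.Perm Ω := MulAction.toPermHom Γ Ω
  have : Fact (Nat.card Ω).Prime := ⟨hp⟩
  have hne : Nonempty Ω := (Nat.card_pos_iff.1 hp.pos).1
  obtain ⟨x0⟩ := hne
  have hpre : MulAction.IsPretransitive ρ.range Ω := by
    refine ⟨fun x y => ?_⟩
    obtain ⟨g, hg⟩ := htr x y
    exact ⟨⟨ρ g, g, rfl⟩, hg⟩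
  have h1 : Nat.card Ω ∣ Nat.card ρ.range := by
    rw [← MulAction.index_stabilizer_of_transitive ρ.range x0]
    exact Subgroup.index_dvd_card _
  obtain ⟨σ, hσ⟩ := exists_prime_orderOf_dvd_card' (Nat.card Ω) h1
  obtain ⟨g, hg⟩ := σ.2
  have h2 : orderOf (ρ g) = Fintype.card Ω := by
    rw [hg, Subgroup.orderOf_coe, hσ, Nat.card_eq_fintype_card]
  have h3 : (ρ g).IsCycle := by
    apply Equiv.Perm.isCycle_of_prime_order'' _ h2
    rw [← Nat.card_eq_fintype_card]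
    exact hp
  have h4 : (ρ g).support = Finset.univ := by
    rw [← Finset.card_eq_iff_eq_univ, ← h3.orderOf, h2]
  refine ⟨g, fun x y => ?_⟩
  have h5 : ∀ z, ρ g z ≠ z := by
    intro z
    have h6 : z ∈ (ρ g).support := by
      rw [h4]
      exact Finset.mem_univ z
    exact Equiv.Perm.mem_support.1 h6
  obtain ⟨k, hk⟩ := h3.exists_pow_eq (h5 x) (h5 y)
  refine ⟨k, ?_⟩
  rw [← map_pow] at hk
  exact hk

/-- The automorphisms fixing `t` contain one which is a cycle on the solutions (prime degree). -/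
theorem PrimeD_cyc {A : RF} (hp : A.n.Prime) (hm : A.P.Monic)
    (hlt : A.Q.natDegree < A.P.natDegree) {δ : E →ₐ[ℂ] L} (hL : Amb δ) :
    ∃ (g : L ≃ₐ[ℂ] L) (s : Finset L), g (δ RatFunc.X) = δ RatFunc.X ∧ s.card = A.n ∧
      (∀ z, z ∈ s ↔ Sol A (δ RatFunc.X) z) ∧ ∀ z ∈ s, ∀ w ∈ s, ∃ k : ℕ, (g ^ k) z = w := by
  classical
  have hn : 1 ≤ A.n := hp.one_lt.le
  obtain ⟨s, hs, hsc, -⟩ := Amb.roots hn hm hlt hL
  let Γ : Subgroup (L ≃ₐ[ℂ] L) := MulAction.stabilizer (L ≃ₐ[ℂ] L) (δ RatFunc.X)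
  have hΓ : ∀ τ : Γ, τ.1 (δ RatFunc.X) = δ RatFunc.X := fun τ => τ.2
  let act : MulAction Γ {z // z ∈ s} :=
    { smul := fun τ z => ⟨τ.1 z.1, (hs _).2 (((hs _).1 z.2).map τ.1 (hΓ τ))⟩
      one_smul := fun z => rfl
      mul_smul := fun τ τ' z => rfl }
  have hcard : Nat.card {z // z ∈ s} = A.n := by
    rw [Nat.card_eq_fintype_card, Fintype.card_coe, hsc]
  obtain ⟨g, hg⟩ := PrimeD_cauchy (Ω := {z // z ∈ s}) (Γ := Γ) (by rw [hcard]; exact hp) (by
    rintro ⟨x, hx⟩ ⟨y, hy⟩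
    obtain ⟨τ, h1, h2⟩ := Amb.trans hn hL ((hs x).1 hx) ((hs y).1 hy)
    exact ⟨⟨τ, h1⟩, Subtype.ext h2⟩)
  refine ⟨g.1, s, hΓ g, hsc, hs, fun z hz w hw => ?_⟩
  obtain ⟨k, hk⟩ := hg ⟨z, hz⟩ ⟨w, hw⟩
  exact ⟨k, congrArg Subtype.val hk⟩

/-- Prime degree.

Proof.  Let `L = AlgebraicClosure E`... or any ambient field: `amb_closure` for `K = E`, `φ = AlgHom.id`
(`RatK_finC_id`): `δ X = elt A` in `L = AlgebraicClosure E`.  The group of the permutations of the `A.n`
solutions (`Amb.roots`) induced by the automorphisms fixing `t` is transitive (`Amb.trans`), so its order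
is divisible by the prime `l = A.n`, and by Cauchy (`exists_prime_orderOf_dvd_card`) it contains an element
of order `l`, which is a cycle of length `l` (`Equiv.Perm.isCycle_of_prime_order'`,
`..of_prime_order''`: order `l`, degree `l`).  Let `g` be the automorphism.  `exists_Cls` and the field
`Cls.two` for `s = r =` all solutions (they are all related, by `Cls.cyc`) give: the group is doubly
transitive, then `irr_of_two` (every solution `w` has `Sm A z w`) gives `DTm A`; or `frob_TWf`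
applies (`Sol A t w` for the coordinate `δ`). -/
theorem prime_alt {A : RF} (hp : A.n.Prime) (hm : A.P.Monic)
    (hlt : A.Q.natDegree < A.P.natDegree) (hun : ∀ z, A.val z = none → A.e z = 1) :
    DTm A ∨ TWf A := by
  have hn : 1 ≤ A.n := hp.one_lt.le
  obtain ⟨δ, -, hL⟩ := amb_closure hn RatK_finC_id
  obtain ⟨g, s, hg, hsc, hs, hcyc⟩ := PrimeD_cyc hp hm hlt hL
  obtain ⟨R, hR⟩ := exists_Cls hn hm hlt hp hL
  have hgs : ∀ z ∈ s, g z ∈ s := fun z hz => (hs _).2 (((hs z).1 hz).map g hg)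
  have hout : ∀ z, Sol A (δ RatFunc.X) z → z ∉ s → g z = z :=
    fun z hz hzs => absurd ((hs z).2 hz) hzs
  have hRs := hR.cyc g s hg hsc (fun z hz => (hs z).1 hz) hgs hout hcyc
  have hsne : s.Nonempty := by
    rw [← Finset.card_pos, hsc]
    exact hp.pos
  obtain ⟨u, hu⟩ := hsne
  have hu1 := (hs u).1 hu
  have hs' : ∀ z, z ∈ s ↔ Sol A (δ RatFunc.X) z ∧ R u z :=
    fun z => ⟨fun hz => ⟨(hs z).1 hz, hRs u hu z hz⟩, fun hz => (hs z).2 hz.1⟩
  rcases hR.two s g s (Finset.Subset.refl s) hg hsc hgs hout hcyc u hu1 hs' with h | ⟨-, h⟩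
  · left
    obtain ⟨δu, hδu, hδu2, hLu⟩ := Amb.sol hn hL hu1
    apply irr_of_two hp.two_le hm hlt hLu
    intro v v' hv hvu hv' hvu'
    have hv1 := (Build_sol hn δu v).2 hv
    have hv1' := (Build_sol hn δu v').2 hv'
    rw [hδu2] at hv1 hv1'
    rw [hδu] at hvu hvu' ⊢
    obtain ⟨τ, -, h2, h3⟩ := h u hu v ((hs v).2 hv1) u hu v' ((hs v').2 hv1')
      (Ne.symm hvu) (Ne.symm hvu')
    exact ⟨τ, h2, h3⟩
  · right
    apply frob_TWf hp hm hlt hun hL
    intro τ hτ a b ha hb hab hτa hτb w hw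
    exact h τ hτ a ((hs a).2 ha) b ((hs b).2 hb) hab hτa hτb w ((hs w).2 hw)

theorem PrimeD_good (hK : Good K) (A : RF) (hn : 2 ≤ A.n) (hsol : A.SolIn K)
    (h0 : (A.n.Prime ∨ IrrCurve A)) : TW A := by
  obtain ⟨U, V, hU, hUV, hE⟩ := hsol
  have hn1 : 1 ≤ A.n := by omega
  have hV : NonConst V := RF.Eqn.nonConst hn1 hU hE
  obtain ⟨φ, hφ⟩ := exists_subst hU
  obtain ⟨ψ, hψ⟩ := exists_subst hV
  have hne : φ ≠ ψ := by
    rintro rfl
    exact hUV (hφ.symm.trans hψ)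
  have h : φ (elt A) = ψ (elt A) := by
    rw [coord_elt, coord_elt, hφ, hψ]
    exact RF.Eqn.app_eq hn1 hU hE
  obtain ⟨A', hm, hlt, hun, hn', htr, hTW, hTr2⟩ := normalise0 A hn1
  obtain ⟨φ', ψ', hne', h'⟩ := htr K φ ψ hne h
  have hn2 : 2 ≤ A'.n := by omega
  have h1 : DTm A' ∨ TWf A' := by
    rcases h0 with h0 | h0
    · exact prime_alt (by rw [hn']; exact h0) hm hlt hun
    · exact Or.inl (DTm_of_Tr2 hn2 hm hlt (hTr2 (Tr2_of_irr hn h0)))
  refine hTW (TW_of_TWf (by omega) hlt hun ?_)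
  rcases h1 with ⟨mu0, hirr, hmon, hgg⟩ | h2
  · exact fun T => W_one hK hn2 hlt hun hirr hmon hgg hne' h' T
  · exact h2

theorem PrimeD_hard (A : RF) (hn : 2 ≤ A.n) (hw : A.Wild) (h0 : (A.n.Prime ∨ IrrCurve A)) :
    TW A := by
  rcases hw with hr | ⟨f, hf3, hsq, hsol⟩
  · exact PrimeD_good good_E A hn hr h0
  · have := kf_fact f (by rw [hf3]; decide)
    exact PrimeD_good (good_KF f hf3 hsq) A hn hsol h0

/-- **Irreducible curves.**  A wild function with irreducible `C_A` satisfies the numerical condition.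

Proof.  As `hard_lone` (HD/FinalL.lean): for a solution in a good field `K` get `φ ≠ ψ` with
`φ (elt A) = ψ (elt A)`, `normalise0`, `DTm_of_Tr2`, `Tr2_of_irr`, `W_one` (WV/WOne.lean),
`TW_of_TWf`. -/
theorem hard_irr (A : RF) (hn : 2 ≤ A.n) (h : IrrCurve A) (hw : A.Wild) : TW A := by
  exact PrimeD_hard A hn hw (Or.inr h)

/-- **Prime degree.**  Proof: the same with `prime_alt`. -/
theorem hard_prime (A : RF) (hp : A.n.Prime) (hw : A.Wild) : TW A := by
  exact PrimeD_hard A hp.two_le hw (Or.inl hp)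

end WildH
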