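import Pool.Agent.helper21.HD.BuildS
import Pool.Agent.helper21.HD.PrimeD

/-! Functions of prime degree: the shape of the fibres in the Frobenius case; `DT` without
normalisation. -/

namespace WildH

open Polynomial WildRat WildS WildV WildN

/-- As `prime_alt`, with more information in the case of a Frobenius group. -/
theorem prime_altS {A : RF} (hp : A.n.Prime) (hm : A.P.Monic)
    (hlt : A.Q.natDegree < A.P.natDegree) (hun : ∀ z, A.val z = none → A.e z = 1) :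
    DTm A ∨ Aff A := by
  have hn : 1 ≤ A.n := hp.one_lt.le
  obtain ⟨δ, -, hL⟩ := amb_closure hn RatK_finC_id
  obtain ⟨g, s, hg, hsc, hs, hcyc⟩ := PrimeD_cyc hp hm hlt hL
  obtain ⟨R, hR⟩ := exists_Cls hn hm hlt hp hL
  have hgs : ∀ z ∈ s, g z ∈ s := fun z hz => (hs _).2 (((hs z).1 hz).map g hg)
  have hout : ∀ z, Sol A (δ RatFunc.X) z → z ∉ s → g z = z :=
    fun z hz hzs => absurd ((hs z).2 hz) hzs
  have hRs := hR.cyc g s hg hsc (fun z hz => (hs z).1 hz) hgs hout hcyc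
  have hsne : s.Nonempty := by
    rw [← Finset.card_pos, hsc]
    exact hp.pos
  obtain ⟨u, hu⟩ := hsne
  have hu1 := (hs u).1 hu
  have hs' : ∀ z, z ∈ s ↔ Sol A (δ RatFunc.X) z ∧ R u z :=
    fun z => ⟨fun hz => ⟨(hs z).1 hz, hRs u hu z hz⟩, fun hz => (hs z).2 hz.1⟩
  rcases hR.two s g s (Finset.Subset.refl s) hg hsc hgs hout hcyc u hu1 hs' with h | ⟨-, h⟩
  · left
    obtain ⟨δu, hδu, hδu2, hLu⟩ := Amb.sol hn hL hu1
    apply irr_of_two hp.two_le hm hlt hLu
    intro v v' hv hvu hv' hvu'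
    have hv1 := (Build_sol hn δu v).2 hv
    have hv1' := (Build_sol hn δu v').2 hv'
    rw [hδu2] at hv1 hv1'
    rw [hδu] at hvu hvu' ⊢
    obtain ⟨τ, -, h2, h3⟩ := h u hu v ((hs v).2 hv1) u hu v' ((hs v').2 hv1')
      (Ne.symm hvu) (Ne.symm hvu')
    exact ⟨τ, h2, h3⟩
  · right
    apply frob_Aff hp hm hlt hun hL
    intro τ hτ a b ha hb hab hτa hτb w hw
    exact h τ hτ a ((hs a).2 ha) b ((hs b).2 hb) hab hτa hτb w ((hs w).2 hw)

/-- As `DTm_of_Tr2`, without normalisation. -/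
theorem DT_of_Tr2 {A : RF} (hn : 2 ≤ A.n) (h : Tr2 A) : DT A := by
  have hn1 : 1 ≤ A.n := by omega
  have hroot : (X - C RatFunc.X : E[X]) ∣ GG A := by
    rw [dvd_iff_isRoot, IsRoot.def]
    exact GG_root A hn1
  obtain ⟨G, hG⟩ := hroot
  have hG0 : G ≠ 0 := by
    rintro rfl
    rw [mul_zero] at hG
    exact Gauss_GG_ne A hn1 hG
  have hdeg : A.n = 1 + G.natDegree := by
    rw [← GG_natDegree A hn1, hG, natDegree_mul (X_sub_C_ne_zero _) hG0, natDegree_X_sub_C]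
  have hGu : ¬ IsUnit G := by
    intro hu
    have := natDegree_eq_zero_of_isUnit hu
    omega
  obtain ⟨F, hF, hFG⟩ := WfDvdMonoid.exists_irreducible_factor hGu hG0
  obtain ⟨K, i1, i2, φ, ψ, h1, h2, h3, h4⟩ := exists_factor_pair A hn1 hF
    (by rw [hG]; exact mul_dvd_mul_left _ hFG)
  have h5 : (mu φ (ψ RatFunc.X)).natDegree = F.natDegree :=
    natDegree_eq_of_degree_eq (degree_eq_degree_of_associated h4)
  have h6 := h K φ ψ h1 h2 h3
  obtain ⟨H, hH⟩ := hFG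
  have hH0 : H ≠ 0 := by
    rintro rfl
    rw [mul_zero] at hH
    exact hG0 hH
  have h7 : G.natDegree = F.natDegree + H.natDegree := by
    rw [hH, natDegree_mul hF.ne_zero hH0]
  have h8 : IsUnit H := by
    rw [eq_C_of_natDegree_eq_zero (by omega : H.natDegree = 0)] at hH0 ⊢
    exact isUnit_C.2 (IsUnit.mk0 _ fun h0 => hH0 (by rw [h0, C_0]))
  refine ⟨G, ?_, hG⟩
  rw [hH]
  exact (irreducible_mul_isUnit h8).2 hF

theorem DT_of_DTm {A : RF} (h : DTm A) : DT A := by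
  obtain ⟨mu0, h1, -, h2⟩ := h
  exact ⟨mu0, h1, h2⟩

end WildH
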