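import Pool.Agent.helper21.HD.StAL

/-! The structure of the minimal polynomial in case II, part B: the coefficients.
author: helper58 -/

namespace WildH

open Polynomial WildRat WildS WildV

variable {K : Type} [Field K] [Algebra ℂ K]

/-- The coefficients of `mu` are rational functions of `elt C`.

Proof.  `L = AlgebraicClosure K`, `x = φ X`, `δx` = the composition of `φ` and `K → L`, an ambient
coordinate (`Amb δx`: `L` is algebraic over `K`, `K` finite over `E`).  By `mem_of_agree` (HD/ClassF.lean) it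
is enough to show `δw (a) = δx (a)` for every coefficient `a` of `mu` and every coordinate `δw` with
`Sm C x (δw X)`.  Let `τ` be the automorphism of `ClL.loc` with `τ x = δw X`; `τ ∘ δx = δw`.
All roots `v` of `mu` in `L` are solutions (`StA_root` in WV/StA.lean) outside the class of `x`
(`StAL_ne`), so `τ v = v`; `mu` splits in `L`, so `τ` fixes its coefficients (`StB_fix` in WV/StB.lean). -/
theorem StBL_coeff {A B C : RF} {c q : ℂ} {l : ℕ} {φ : E →ₐ[ℂ] K} (h : ClL A B C c q l φ)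
    {ψ : E →ₐ[ℂ] K} (hφ : FinC φ) (hA : φ (elt A) = ψ (elt A)) (hC : φ (elt C) ≠ ψ (elt C))
    (i : ℕ) :
    (mu φ (ψ RatFunc.X)).coeff i ∈ IntermediateField.adjoin ℂ {elt C} := by
  obtain ⟨hAn, -⟩ := h.facts
  have hC2 := h.two
  have hn : 1 ≤ C.n := by omega
  have hne : φ ≠ ψ := by
    rintro rfl
    exact hC rfl
  obtain ⟨θ, hθ⟩ : ∃ θ : E →ₐ[ℂ] AlgebraicClosure K,
      ∀ u, θ u = algebraMap K (AlgebraicClosure K) (φ u) :=
    ⟨(IsScalarTower.toAlgHom ℂ K (AlgebraicClosure K)).comp φ, fun u => rfl⟩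
  have hx := StB_self hn θ
  have hxA := StB_self hAn θ
  have hQ : aeval (θ RatFunc.X) C.Q ≠ 0 := (coord_nonConst θ).aeval_ne_zero (C.Q_ne_zero hn)
  obtain ⟨δ, hδ, hAmb⟩ := amb_closure hAn hφ
  have hsol : Sol A (δ RatFunc.X) (θ RatFunc.X) := by
    show aeval (θ RatFunc.X) A.P = δ RatFunc.X * aeval (θ RatFunc.X) A.Q
    rw [hxA, hδ, hθ (elt A)]
  obtain ⟨δz, hz1, -, hz3⟩ := hAmb.sol hAn hsol
  have hAmbθ : Amb θ := by
    rw [← coord_ext hz1]
    exact hz3
  refine mem_of_agree hn h.monic h.lt hAmbθ fun δw hw => ?_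
  rw [hδ] at hsol
  obtain ⟨τ, hτ1, hτ2⟩ := h.loc (θ RatFunc.X) (δw RatFunc.X) hsol hw
  have hτ : ∀ u, τ (θ u) = δw u := by
    have e1 : (τ : AlgebraicClosure K →ₐ[ℂ] AlgebraicClosure K).comp θ = δw := coord_ext hτ1
    intro u
    exact DFunLike.congr_fun e1 u
  have hmap : ((mu φ (ψ RatFunc.X)).map θ.toRingHom) =
      (((mu φ (ψ RatFunc.X)).map φ.toRingHom).map (algebraMap K (AlgebraicClosure K))) := by
    rw [Polynomial.map_map]
    congr 1
    ext u
    exact hθ u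
  have hfix : ((mu φ (ψ RatFunc.X)).map θ.toRingHom).map
      (τ : AlgebraicClosure K →ₐ[ℂ] AlgebraicClosure K).toRingHom =
      (mu φ (ψ RatFunc.X)).map θ.toRingHom := by
    refine StB_fix ((mu_pos φ hφ (ψ RatFunc.X)).1.map _) _ fun w hw => ?_
    have hw' : aeval w ((mu φ (ψ RatFunc.X)).map φ.toRingHom) = 0 := by
      rw [IsRoot.def, hmap, eval_map_algebraMap] at hw
      exact hw
    obtain ⟨h1, -⟩ := StA_root hAn hφ hne hA hw'
    have h3 := StAL_ne h hφ hA hC hw'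
    refine hτ2 w h1 fun hsm => h3 ?_
    have h4 : aeval (θ RatFunc.X) C.P * aeval w C.Q = aeval w C.P * aeval (θ RatFunc.X) C.Q := hsm
    rw [hx] at h4
    rw [← hθ (elt C)]
    refine mul_right_cancel₀ hQ ?_
    rw [← h4]
    ring
  have h1 := congrArg (fun p => p.coeff i) hfix
  simp only [coeff_map] at h1
  have h2 : τ (θ ((mu φ (ψ RatFunc.X)).coeff i)) = θ ((mu φ (ψ RatFunc.X)).coeff i) := h1
  rw [← hτ, h2]

/-- **Structure of `mu` in case II.**  As `struct_mu` in WV/StB.lean (same proof, with `StAL_eval`,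
`StBL_coeff`, `StB_ord`). -/
theorem struct_muL {A B C : RF} {c q : ℂ} {l : ℕ} {φ : E →ₐ[ℂ] K} (h : ClL A B C c q l φ)
    {ψ : E →ₐ[ℂ] K} (hφ : FinC φ) (hA : φ (elt A) = ψ (elt A)) (hC : φ (elt C) ≠ ψ (elt C)) :
    ∃ (d' : ℕ) (M : ℂ → ℂ → ℕ), 1 ≤ d' ∧ (mu φ (ψ RatFunc.X)).natDegree = C.n * d' ∧
      ∀ p p' t0 : ℂ, p ∈ fC B t0 → ∀ a ∈ fC C p, ∀ b ∈ fC C p',
        (plE a).ord ((mu φ (ψ RatFunc.X)).eval (algebraMap ℂ E b)) =
          (C.e (some a) : ℤ) * M p p' := by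
  classical
  obtain ⟨hAn, hB, hmul, hval, he, -⟩ := h.facts
  have hC2 := h.two
  have hn : 1 ≤ C.n := by omega
  have hne : φ ≠ ψ := by
    rintro rfl
    exact hC rfl
  obtain ⟨d', hd1, hd2, hd3⟩ := StAL_eval h hφ hA hC
  obtain ⟨hmm, hmpos⟩ := mu_pos φ hφ (ψ RatFunc.X)
  -- a point over each value
  have hb : ∀ p' : ℂ, ∃ b, b ∈ fC C p' := by
    intro p'
    have h1 := sum_fC hn h.lt p'
    rcases (fC C p').eq_empty_or_nonempty with h2 | h2
    · rw [h2, Finset.sum_empty] at h1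
      omega
    · exact h2
  choose b0 hb0 using hb
  have hne0 : ∀ b : ℂ, (mu φ (ψ RatFunc.X)).eval (algebraMap ℂ E b) ≠ 0 := by
    intro b
    obtain ⟨m, -, -, hm⟩ := mu_norm φ hφ (ψ RatFunc.X)
    exact (hm 0 b (coord_nonConst ψ b)).1
  have hmem : ∀ b : ℂ, (mu φ (ψ RatFunc.X)).eval (algebraMap ℂ E b) ∈
      IntermediateField.adjoin ℂ {elt C} := by
    intro b
    rw [eval_eq_sum_range]
    refine sum_mem fun i _ => mul_mem (StBL_coeff h hφ hA hC i) (pow_mem ?_ _)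
    exact IntermediateField.algebraMap_mem _ b
  have hk : ∀ p p' : ℂ, ∃ k : ℤ, ∀ a ∈ fC C p,
      (plE a).ord ((mu φ (ψ RatFunc.X)).eval (algebraMap ℂ E (b0 p'))) = C.e (some a) * k :=
    fun p p' => StB_ord hn h.lt (hmem _) (hne0 _) p
  choose k hk' using hk
  refine ⟨d', fun p p' => (k p p').toNat, hd1, hd2, fun p p' t0 hp a ha b hb => ?_⟩
  have hpos : 1 ≤ C.e (some a) := C.one_le_e hn _
  obtain ⟨hQb, hPb⟩ := (mem_fC' hn).1 hb
  obtain ⟨hQb0, hPb0⟩ := (mem_fC' hn).1 (hb0 p')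
  have hconst : ∀ c : ℂ, c ≠ 0 → algebraMap ℂ E c ≠ 0 := fun c hc =>
    (map_ne_zero (algebraMap ℂ E)).2 hc
  have heq : (plE a).ord ((mu φ (ψ RatFunc.X)).eval (algebraMap ℂ E b)) =
      (plE a).ord ((mu φ (ψ RatFunc.X)).eval (algebraMap ℂ E (b0 p'))) := by
    have h1 := congrArg (plE a).ord (hd3 b (b0 p') p' hPb hPb0)
    rw [(plE a).ord_mul (hne0 _) (hconst _ (pow_ne_zero _ hQb0)), (plE a).ord_C,
      (plE a).ord_mul (hne0 _) (hconst _ (pow_ne_zero _ hQb)), (plE a).ord_C, add_zero,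
      add_zero] at h1
    exact h1
  have hnonneg : 0 ≤ (plE a).ord ((mu φ (ψ RatFunc.X)).eval (algebraMap ℂ E (b0 p'))) := by
    refine Gauss_eval_nonneg a (gauss a (StB_GG_monic h.norm.monic h.norm.lt) hmm
      ((dvd_mul_left _ _).trans (NN_dvd A hAn hne hA)) ?_) _
    have hAa : A.val (some a) = some t0 := by
      rw [hval, (mem_fC hn).1 ha]
      exact (mem_fC hB).1 hp
    obtain ⟨hQa, hPa⟩ := (Quad_val_some A).1 hAa
    have hordA : 0 ≤ (plE a).ord (elt A) := by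
      obtain ⟨-, -, -, -, h5⟩ := Pair_ord A h.norm.lt a 0
      rw [map_zero, sub_zero] at h5
      have hQm : A.Q.rootMultiplicity a = 0 := rootMultiplicity_eq_zero (fun h0 => hQa h0)
      rw [h5, hQm]
      simp
    intro i
    have hco : (GG A).coeff i =
        algebraMap ℂ E (A.P.coeff i) - elt A * algebraMap ℂ E (A.Q.coeff i) := by
      unfold GG
      rw [coeff_sub, coeff_C_mul, coeff_map, coeff_map]
    rw [hco]
    refine (plE a).ord_nonneg_sub ?_ ((plE a).ord_nonneg_mul hordA ?_)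
    · rw [(plE a).ord_C]
    · rw [(plE a).ord_C]
  rw [heq, hk' p p' a ha] at *
  have hk0 : 0 ≤ k p p' := by
    by_contra hlt
    push Not at hlt
    have h1 : (C.e (some a) : ℤ) * k p p' < 0 :=
      mul_neg_of_pos_of_neg (by exact_mod_cast hpos) hlt
    linarith
  rw [Int.toNat_of_nonneg hk0]

end WildH
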