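import Pool.Agent.helper21.HD.StBL
import Pool.Agent.helper21.HD.GcdL

/-! Case II for a lone index: `φ (elt C) ≠ ψ (elt C)`. -/

namespace WildH

open Polynomial WildRat WildS WildV

variable {K : Type} [Field K] [Algebra ℂ K]

theorem WTwoL_biUnion {A B C : RF} {c q : ℂ} {l : ℕ} {φ : E →ₐ[ℂ] K} (h : ClL A B C c q l φ)
    (t0 : ℂ) : fC A t0 = (fC B t0).biUnion (fC C) := by
  obtain ⟨hA, h2, h3, h4, h5, h6, h7, h8, h9, h10, h11⟩ := h.facts
  have hC2 := h.two
  ext a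
  rw [Finset.mem_biUnion, mem_fC hA, h4]
  constructor
  · intro h
    rcases hv : C.val (some a) with _ | p
    · rw [hv, Quad_val_none B h6] at h
      exact absurd h (by simp)
    · rw [hv] at h
      exact ⟨p, (mem_fC h2).2 h, (mem_fC (by omega)).2 hv⟩
  · rintro ⟨p, hp, ha⟩
    rw [(mem_fC (by omega)).1 ha]
    exact (mem_fC h2).1 hp

theorem WTwoL_fibre {A B C : RF} {c q : ℂ} {l : ℕ} {φ : E →ₐ[ℂ] K} (h : ClL A B C c q l φ)
    (t0 : ℂ) (f : ℂ → ℤ) : ∑ a ∈ fC A t0, f a = ∑ p ∈ fC B t0, ∑ a ∈ fC C p, f a := by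
  have h1 := h.two
  rw [WTwoL_biUnion h, Finset.sum_biUnion (WTwo_disj (by omega) _)]

/-- The indices on such a fibre. -/
theorem WTwoL_e {A B C : RF} {c q : ℂ} {l : ℕ} {φ : E →ₐ[ℂ] K} (h : ClL A B C c q l φ)
    {t0 p a : ℂ} (hp : p ∈ fC B t0) (ha : a ∈ fC C p) :
    a ∈ fC A t0 ∧ A.e (some a) = B.e (some p) * C.e (some a) := by
  obtain ⟨hA, h2, h3, h4, h5, -⟩ := h.facts
  have hC2 := h.two
  constructor
  · rw [WTwoL_biUnion h]
    exact Finset.mem_biUnion.2 ⟨p, hp, ha⟩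
  · rw [h5, (mem_fC (by omega)).1 ha]

/-- rearrangement of the double sum -/
theorem WTwoL_dsum {A B C : RF} {c q : ℂ} {l : ℕ} {φ : E →ₐ[ℂ] K} (h : ClL A B C c q l φ)
    (t0 : ℂ) (N : ℂ → ℂ → ℕ) : ∑ a ∈ fC A t0, ∑ b ∈ fC A t0, (N a b : ℤ) =
      ((∑ p ∈ fC B t0, ∑ p' ∈ fC B t0, ∑ a ∈ fC C p, ∑ b ∈ fC C p', N a b : ℕ) : ℤ) := by
  push_cast
  rw [WTwoL_fibre h]
  refine Finset.sum_congr rfl fun p _ => ?_
  conv_rhs => rw [Finset.sum_comm]
  refine Finset.sum_congr rfl fun a _ => ?_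
  rw [WTwoL_fibre h]

/-- The matrix over `t0`: as `WTwo_matrix` in WV/WTwo.lean (same proof with `ClL.facts`, `struct_muL`; the
auxiliary lemmas `WTwo_biUnion`, `WTwo_fibre`, `WTwo_e`, `WTwo_dsum` have to be restated for
`ClL`; `M p1 p1 = 0` from `ClL.uniq` and `C.e q = l ≥ 2`). -/
theorem WTwoL_matrix (hK : Good K) {A B C : RF} {c q : ℂ} {l : ℕ} {φ : E →ₐ[ℂ] K}
    (h : ClL A B C c q l φ) {ψ : E →ₐ[ℂ] K} (hA : φ (elt A) = ψ (elt A))
    (hC : φ (elt C) ≠ ψ (elt C)) :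
    ∃ (m d' : ℕ) (M : ℂ → ℂ → ℕ), 1 ≤ m ∧ 1 ≤ d' ∧ deg φ = m * (C.n * d') ∧
      (∀ t0, ∀ p ∈ fC B t0, ∀ p' ∈ fC B t0, ∀ a ∈ fC C p, ∀ b ∈ fC C p',
        (PS hK φ ψ a b).card *
            Nat.lcm (B.e (some p) * C.e (some a)) (B.e (some p') * C.e (some b)) ≤
          B.e (some p') * C.e (some b) * (m * (C.e (some a) * M p p'))) ∧
      (∀ t0, ∀ p ∈ fC B t0, ∑ p' ∈ fC B t0, B.e (some p') * M p p' = B.e (some p) * d') ∧
      (∀ t0, ∀ p' ∈ fC B t0, ∑ p ∈ fC B t0, M p p' = d') ∧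
      ∀ p1, C.val (some q) = some p1 → M p1 p1 = 0 := by
  obtain ⟨hAn, h2, h3, h4, h5, h6, h7, h8, h9, hqA, h11⟩ := h.facts
  have h1 := h.two
  have hCn : 1 ≤ C.n := by omega
  have hlt := h.norm.lt
  obtain ⟨d', M, hd1, hd2, hM⟩ := struct_muL h (hK.fin φ) hA hC
  obtain ⟨m, hm, hm1, hm2⟩ := PS_mu hK hAn hlt hA
  rw [hd2] at hm1
  -- the intersection numbers
  have hI : ∀ t0, ∀ p ∈ fC B t0, ∀ a ∈ fC C p, ∀ p', ∀ b ∈ fC C p',
      ∑ P ∈ PS hK φ ψ a b, P.ord (ψ RatFunc.X - algebraMap ℂ K b) =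
        (m : ℤ) * ((C.e (some a) : ℤ) * M p p') := by
    intro t0 p hp a ha p' b hb
    rw [hm2 a b t0 (WTwoL_e h hp ha).1, hM p p' t0 hp a ha b hb]
  have hmZ : (0 : ℤ) < m := by exact_mod_cast hm
  have hCnZ : (0 : ℤ) < C.n := by exact_mod_cast hCn
  refine ⟨m, d', M, hm, hd1, hm1.symm, ?_, ?_, ?_, ?_⟩
  · intro t0 p hp p' hp' a ha b hb
    obtain ⟨e1, e2⟩ := WTwoL_e h hp ha
    obtain ⟨e3, e4⟩ := WTwoL_e h hp' hb
    have h13 := PS_card hK hAn hlt hA (b := b) e1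
    rw [hI t0 p hp a ha p' b hb, e2, e4] at h13
    have h14 : (((PS hK φ ψ a b).card *
            Nat.lcm (B.e (some p) * C.e (some a)) (B.e (some p') * C.e (some b)) : ℕ) : ℤ) ≤
        ((B.e (some p') * C.e (some b) * (m * (C.e (some a) * M p p')) : ℕ) : ℤ) := by
      push_cast
      push_cast at h13
      exact h13
    exact_mod_cast h14
  · intro t0 p hp
    obtain ⟨a, ha⟩ := WTwo_nonempty hCn h.lt p
    obtain ⟨e1, e2⟩ := WTwoL_e h hp ha
    have h13 := PS_row hK hAn hlt hA e1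
    rw [WTwoL_fibre h, e2, ← hm1] at h13
    have h14 : ∀ p' ∈ fC B t0, ∑ b ∈ fC C p', (A.e (some b) : ℤ) *
        ∑ P ∈ PS hK φ ψ a b, P.ord (ψ RatFunc.X - algebraMap ℂ K b) =
        (m * C.e (some a) * C.n : ℤ) * (B.e (some p') * M p p') := by
      intro p' hp'
      have h15 : ∀ b ∈ fC C p', (A.e (some b) : ℤ) *
          ∑ P ∈ PS hK φ ψ a b, P.ord (ψ RatFunc.X - algebraMap ℂ K b) =
          (m * C.e (some a) * (B.e (some p') * M p p') : ℤ) * C.e (some b) := by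
        intro b hb
        rw [hI t0 p hp a ha p' b hb, (WTwoL_e h hp' hb).2]
        push_cast
        ring
      rw [Finset.sum_congr rfl h15, ← Finset.mul_sum]
      have h16 : ∑ b ∈ fC C p', (C.e (some b) : ℤ) = C.n := by
        exact_mod_cast sum_fC hCn h.lt p'
      rw [h16]
      ring
    rw [Finset.sum_congr rfl h14, ← Finset.mul_sum] at h13
    have hea : (0 : ℤ) < C.e (some a) := by exact_mod_cast C.one_le_e hCn (some a)
    have hne : (m * C.e (some a) * C.n : ℤ) ≠ 0 := by positivity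
    have h17 : (∑ p' ∈ fC B t0, (B.e (some p') * M p p' : ℤ)) = B.e (some p) * d' := by
      apply mul_left_cancel₀ hne
      rw [h13]
      push_cast
      ring
    exact_mod_cast h17
  · intro t0 p' hp'
    obtain ⟨b, hb⟩ := WTwo_nonempty hCn h.lt p'
    obtain ⟨e1, e2⟩ := WTwoL_e h hp' hb
    have h13 := PS_col hK hAn hlt hA e1
    rw [WTwoL_fibre h, ← hm1] at h13
    have h14 : ∀ p ∈ fC B t0, ∑ a ∈ fC C p,
        ∑ P ∈ PS hK φ ψ a b, P.ord (ψ RatFunc.X - algebraMap ℂ K b) =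
        (m * C.n : ℤ) * M p p' := by
      intro p hp
      have h15 : ∀ a ∈ fC C p,
          ∑ P ∈ PS hK φ ψ a b, P.ord (ψ RatFunc.X - algebraMap ℂ K b) =
          (m * M p p' : ℤ) * C.e (some a) := by
        intro a ha
        rw [hI t0 p hp a ha p' b hb]
        ring
      rw [Finset.sum_congr rfl h15, ← Finset.mul_sum]
      have h16 : ∑ b ∈ fC C p, (C.e (some b) : ℤ) = C.n := by
        exact_mod_cast sum_fC hCn h.lt p
      rw [h16]
      ring
    rw [Finset.sum_congr rfl h14, ← Finset.mul_sum] at h13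
    have hne : (m * C.n : ℤ) ≠ 0 := by positivity
    have h17 : (∑ p ∈ fC B t0, (M p p' : ℤ)) = d' := by
      apply mul_left_cancel₀ hne
      rw [h13]
      push_cast
      ring
    exact_mod_cast h17
  · intro p1 hp1
    have hq : q ∈ fC C p1 := (mem_fC hCn).2 hp1
    have hp1B : p1 ∈ fC B c := by
      rw [mem_fC h2, ← hp1, ← h4]
      exact hqA
    have hne : φ ≠ ψ := fun e => hC (by rw [e])
    have hemp : PS hK φ ψ q q = ∅ := by
      rw [Finset.eq_empty_iff_forall_notMem]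
      intro P hP
      rw [mem_PS] at hP
      exact hC (h.uniq ψ P hne hA hP.1 hP.2)
    have h13 := hI c p1 hp1B q hq p1 q hq
    rw [hemp, Finset.sum_empty, h.eq] at h13
    have hl0 : (0 : ℤ) < l := by exact_mod_cast h.norm.prime.pos
    have h14 : (m : ℤ) * ((l : ℤ) * M p1 p1) = 0 := h13.symm
    have h15 : (l : ℤ) * M p1 p1 = 0 := (mul_eq_zero.1 h14).resolve_left hmZ.ne'
    have h16 : (M p1 p1 : ℤ) = 0 := (mul_eq_zero.1 h15).resolve_left hl0.ne'
    exact_mod_cast h16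

/-- The number of places: as `WTwo_general` in WV/WTwo.lean; over `c` use `gcd_count_lone`
(HD/GcdL.lean; `hlone` from `ClL.facts`: `A.e (some a) = B.e (some p) * C.e (some a)`). -/
theorem WTwoL_general (hK : Good K) {A B C : RF} {c q : ℂ} {l : ℕ} {φ : E →ₐ[ℂ] K}
    (h : ClL A B C c q l φ) {ψ : E →ₐ[ℂ] K} (hA : φ (elt A) = ψ (elt A))
    (hC : φ (elt C) ≠ ψ (elt C)) :
    ∃ m d' : ℕ, 1 ≤ m ∧ 1 ≤ d' ∧ deg φ = m * (C.n * d') ∧
      (∀ t0, ∑ a ∈ fC A t0, ∑ b ∈ fC A t0, ((PS hK φ ψ a b).card : ℤ) ≤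
        m * d' * ∑ p ∈ fC B t0, (gs (pasF C p) : ℤ)) ∧
      ∑ a ∈ fC A c, ∑ b ∈ fC A c, ((PS hK φ ψ a b).card : ℤ) + ((l : ℤ) - 1) * (m * d') ≤
        m * d' * ∑ p ∈ fC B c, (gs (pasF C p) : ℤ) := by
  classical
  obtain ⟨hAn, h2, h3, h4, h5, h6, h7, h8, h9, hqA, h11⟩ := h.facts
  have h1 := h.two
  have hCn : 1 ≤ C.n := by omega
  obtain ⟨m, d', M, hm, hd, hdeg, hcnt, hrow, hcol, hM0⟩ := WTwoL_matrix hK h hA hC
  refine ⟨m, d', hm, hd, hdeg, fun t0 => ?_, ?_⟩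
  · have h13 := gcd_count (fC B t0) (fun p => B.e (some p)) (fC C) (fun a => C.e (some a)) M
      (fun a b => (PS hK φ ψ a b).card) (m := m) (d' := d')
      (fun p _ => B.one_le_e h2 (some p)) (fun p _ a _ => C.one_le_e hCn (some a))
      (fun p hp p' hp' a ha b hb => hcnt t0 p hp p' hp' a ha b hb) (hrow t0) (hcol t0)
    have h14 := WTwoL_dsum h t0 fun a b => (PS hK φ ψ a b).card
    rw [h14]
    have h15 : (m * d' * ∑ p ∈ fC B t0, (gs (pasF C p) : ℤ)) =
        ((m * d' * ∑ p ∈ fC B t0, ∑ a ∈ fC C p, ∑ a' ∈ fC C p,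
          Nat.gcd (C.e (some a)) (C.e (some a')) : ℕ) : ℤ) := by
      rw [Finset.sum_congr rfl (fun p _ => by rw [WTwo_gs])]
      push_cast
      rfl
    rw [h15]
    exact_mod_cast h13
  · rcases hv : C.val (some q) with _ | p1
    · rw [h4, hv, Quad_val_none B h6] at hqA
      exact absurd hqA (by simp)
    have hq : q ∈ fC C p1 := (mem_fC hCn).2 hv
    have hp1B : p1 ∈ fC B c := by
      rw [mem_fC h2, ← hv, ← h4]
      exact hqA
    have hB1 : B.e (some p1) = 1 := by rw [← hv]; exact h9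
    have h13 := gcd_count_lone (fC B c) (fun p => B.e (some p)) (fC C) (fun a => C.e (some a)) M
      (fun a b => (PS hK φ ψ a b).card) (m := m) (d' := d') h.norm.prime
      (fun p _ => B.one_le_e h2 (some p)) (fun p _ a _ => C.one_le_e hCn (some a)) hp1B hB1 hq h.eq
      (fun p hp a ha hne => by
        obtain ⟨e1, e2⟩ := WTwoL_e h hp ha
        have haq : a ≠ q := by
          intro haq
          apply hne
          refine ⟨?_, haq⟩
          have e3 := (mem_fC hCn).1 ha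
          rw [haq, hv] at e3
          exact (Option.some.inj e3).symm
        have e3 := h11 (some a) (fun e => haq (Option.some.inj e)) ((mem_fC hAn).1 e1)
        rwa [e2] at e3)
      (fun p hp p' hp' a ha b hb => hcnt c p hp p' hp' a ha b hb) (hrow c) (hcol c) (hM0 p1 hv)
    have h14 := WTwoL_dsum h c fun a b => (PS hK φ ψ a b).card
    rw [h14]
    have h15 : (m * d' * ∑ p ∈ fC B c, (gs (pasF C p) : ℤ)) =
        ((m * d' * ∑ p ∈ fC B c, ∑ a ∈ fC C p, ∑ a' ∈ fC C p,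
          Nat.gcd (C.e (some a)) (C.e (some a')) : ℕ) : ℤ) := by
      rw [Finset.sum_congr rfl (fun p _ => by rw [WTwo_gs])]
      push_cast
      rfl
    rw [h15]
    have hl1 : ((l - 1 : ℕ) : ℤ) = (l : ℤ) - 1 := by
      have := h.norm.prime.one_le
      push_cast [this]
      ring
    rw [← hl1]
    exact_mod_cast h13

/-- **Case II.**

Proof.  As `W_two` in WV/WTwo.lean (same proof): it gives `∑_{p ∈ R'} wt_p ≤ 2 n - (l - 1)` for the finite set
`R' ⊇` the finite critical values of `C`, where `T` may be assumed to be contained in `R'` up to points of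
weight zero.  If `l ≥ 3` this is `≤ 2 n - 2`.  If `l = 2`, it is `≤ 2 n - 1`, and `∑_{p ∈ R'} wt_p` is even:
by `wt_parity` (HD/GcdL.lean) `wt_p ≡ n (r_p - 1)` with `n = C.n`, `r_p = card (fC C p)`,
`n (r_p - 1) ≡ n (n - r_p)` modulo two (`n (n - 1)` is even), and `∑ (n - r_p) = 2 n - 2` (`rh_fin`). -/
theorem W_twoL (hK : Good K) {A B C : RF} {c q : ℂ} {l : ℕ} {φ : E →ₐ[ℂ] K}
    (h : ClL A B C c q l φ) {ψ : E →ₐ[ℂ] K} (hA : φ (elt A) = ψ (elt A))
    (hC : φ (elt C) ≠ ψ (elt C)) : TWf C := by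
  classical
  intro T
  obtain ⟨hAn, h2, h3, h4, h5, h6, h7, h8, h9, hqA, h11⟩ := h.facts
  have h1 := h.two
  have hCn : 1 ≤ C.n := by omega
  have hltA := h.norm.lt
  obtain ⟨m, d', hm, hd, hdeg, hgen, hc⟩ := WTwoL_general hK h hA hC
  -- the finite set of values
  have hfin := A.ramified_finite hAn
  let f : P1 → ℂ := fun z => z.getD 0
  let R : Finset ℂ := insert c (hfin.toFinset.image (fun z => f (A.val z)) ∪
    T.image fun p => f (B.val (some p)))
  have hRc : c ∈ R := Finset.mem_insert_self _ _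
  have hRA : ∀ z t, A.val z = some t → A.e z ≠ 1 → t ∈ R := by
    intro z t hz he
    refine Finset.mem_insert_of_mem (Finset.mem_union_left _ ?_)
    rw [Finset.mem_image]
    exact ⟨z, hfin.mem_toFinset.2 he, by rw [hz]; rfl⟩
  have hRT : ∀ p ∈ T, ∀ t, B.val (some p) = some t → t ∈ R := by
    intro p hp t ht
    refine Finset.mem_insert_of_mem (Finset.mem_union_right _ ?_)
    rw [Finset.mem_image]
    exact ⟨p, hp, by rw [ht]; rfl⟩
  let R' : Finset ℂ := R.biUnion (fC B)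
  have hBval : B.val none = none := Quad_val_none B h6
  have hCval : C.val none = none := Quad_val_none C h.lt
  -- Riemann-Hurwitz for `B`
  have hRHB := rh_fin h2 h6 h7 R (by
    intro a p hap hea
    obtain ⟨w, hw⟩ := WTwo_nonempty hCn h.lt a
    have e1 := (mem_fC hCn).1 hw
    refine hRA (some w) p (by rw [h4, e1, hap]) ?_
    rw [h5, e1]
    intro e2
    exact hea (Nat.eq_one_of_mul_eq_one_right e2))
  -- Riemann-Hurwitz for `C`
  have hRHC := rh_fin hCn h.lt (fun z hz => h8 z (by rw [h4, hz, hBval])) R' (by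
    intro a p hap hea
    rcases hv : B.val (some p) with _ | t
    · exact absurd (h8 (some a) (by rw [h4, hap, hv])) hea
    · have e1 : t ∈ R := by
        refine hRA (some a) t (by rw [h4, hap, hv]) ?_
        rw [h5]
        intro e2
        exact hea (Nat.eq_one_of_mul_eq_one_left e2)
      exact Finset.mem_biUnion.2 ⟨t, e1, (mem_fC h2).2 hv⟩)
  have hR'sum : ∀ g : ℂ → ℤ, ∑ p ∈ R', g p = ∑ t ∈ R, ∑ p ∈ fC B t, g p := by
    intro g
    exact Finset.sum_biUnion (WTwo_disj h2 _)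
  -- the main inequality
  have hrh := PS_rh hK hAn hltA hA R
  have hmain : ∑ t ∈ R, ((A.n : ℤ) * deg φ - m * d' * ∑ p ∈ fC B t, (gs (pasF C p) : ℤ)) +
      ((l : ℤ) - 1) * (m * d') ≤ 2 * (A.n * deg φ) := by
    refine le_trans ?_ hrh
    rw [← Finset.add_sum_erase R _ hRc, ← Finset.add_sum_erase R _ hRc]
    have e1 : ∑ t ∈ R.erase c, ((A.n : ℤ) * deg φ - m * d' * ∑ p ∈ fC B t,
        (gs (pasF C p) : ℤ)) ≤ ∑ t ∈ R.erase c, ((A.n : ℤ) * deg φ -
          ∑ a ∈ fC A t, ∑ b ∈ fC A t, ((PS hK φ ψ a b).card : ℤ)) := by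
      refine Finset.sum_le_sum fun t _ => ?_
      have := hgen t
      linarith
    linarith
  have hdegZ : (deg φ : ℤ) = m * (C.n * d') := by exact_mod_cast hdeg
  have hAnZ : (A.n : ℤ) = B.n * C.n := by exact_mod_cast h3
  have hgs : ∀ p, (gs (pasF C p) : ℤ) = (fC C p).card * C.n - wt (pasF C p) := by
    intro p
    have := WTwo_wt hCn h.lt p
    linarith
  have hsum1 : ∑ t ∈ R, ((A.n : ℤ) * deg φ - m * d' * ∑ p ∈ fC B t, (gs (pasF C p) : ℤ)) =
      (m * d' : ℤ) * ∑ t ∈ R, ((C.n : ℤ) ^ 2 * (B.n - (fC B t).card) +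
        ∑ p ∈ fC B t, ((C.n : ℤ) * (C.n - (fC C p).card) + wt (pasF C p))) := by
    rw [Finset.mul_sum]
    refine Finset.sum_congr rfl fun t _ => ?_
    have e1 : ∑ p ∈ fC B t, ((C.n : ℤ) * (C.n - (fC C p).card) + wt (pasF C p)) =
        (fC B t).card * (C.n : ℤ) ^ 2 - ∑ p ∈ fC B t, (gs (pasF C p) : ℤ) := by
      have e2 : ∀ p ∈ fC B t, ((C.n : ℤ) * (C.n - (fC C p).card) + wt (pasF C p)) =
          (C.n : ℤ) ^ 2 - gs (pasF C p) := by
        intro p _
        rw [hgs p]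
        ring
      rw [Finset.sum_congr rfl e2, Finset.sum_sub_distrib, Finset.sum_const, nsmul_eq_mul]
    rw [e1, hdegZ, hAnZ]
    ring
  have hsum2 : ∑ t ∈ R, ((C.n : ℤ) ^ 2 * (B.n - (fC B t).card) +
        ∑ p ∈ fC B t, ((C.n : ℤ) * (C.n - (fC C p).card) + wt (pasF C p))) =
      (C.n : ℤ) ^ 2 * (2 * B.n - 2) + C.n * (2 * C.n - 2) + ∑ p ∈ R', (wt (pasF C p) : ℤ) := by
    rw [Finset.sum_add_distrib, ← Finset.mul_sum, hRHB, ← hR'sum, Finset.sum_add_distrib,
      ← Finset.mul_sum, hRHC]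
    ring
  rw [hsum1, hsum2, hdegZ, hAnZ] at hmain
  have hmd : (0 : ℤ) < m * d' := by
    have e1 : (0 : ℤ) < m := by exact_mod_cast hm
    have e2 : (0 : ℤ) < d' := by exact_mod_cast hd
    exact mul_pos e1 e2
  have hfinal0 : ∑ p ∈ R', (wt (pasF C p) : ℤ) ≤ 2 * C.n - ((l : ℤ) - 1) := by
    have e1 : (m * d' : ℤ) * ((C.n : ℤ) ^ 2 * (2 * B.n - 2) + C.n * (2 * C.n - 2) +
        ∑ p ∈ R', (wt (pasF C p) : ℤ) + ((l : ℤ) - 1)) ≤ (m * d' : ℤ) * (2 * (B.n * C.n ^ 2)) := by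
      refine le_trans (le_of_eq ?_) (hmain.trans (le_of_eq ?_))
      · ring
      · ring
    have e2 := le_of_mul_le_mul_left e1 hmd
    linarith
  -- the parity of the sum
  have hpar : Even (∑ p ∈ R', (wt (pasF C p) : ℤ)) := by
    have e1 : ∀ p ∈ R', Even ((wt (pasF C p) : ℤ) + C.n * ((C.n : ℤ) - (fC C p).card)) := by
      intro p _
      have e2 := wt_parity (pasF C p) (by
        intro e he
        unfold pasF at he
        obtain ⟨a, _, rfl⟩ := Multiset.mem_map.1 he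
        exact C.one_le_e hCn (some a))
      rw [WTwo_card, WTwo_sum, sum_fC hCn h.lt] at e2
      have e3 : Even ((C.n : ℤ) * (C.n - 1)) := Int.even_mul_pred_self _
      have e4 := e2.add e3
      have e5 : (wt (pasF C p) : ℤ) + C.n * ((C.n : ℤ) - (fC C p).card) =
          (wt (pasF C p) : ℤ) - ((fC C p).card * C.n - C.n) + C.n * (C.n - 1) := by ring
      rw [e5]
      exact e4
    have e2 : Even (∑ p ∈ R', ((wt (pasF C p) : ℤ) + C.n * ((C.n : ℤ) - (fC C p).card))) :=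
      Finset.even_sum _ e1
    rw [Finset.sum_add_distrib, ← Finset.mul_sum, hRHC] at e2
    have e3 : Even ((C.n : ℤ) * (2 * C.n - 2)) := by
      refine Even.mul_left ?_ _
      exact ⟨C.n - 1, by ring⟩
    exact (Int.even_add.1 e2).2 e3
  have hfinal : ∑ p ∈ R', (wt (pasF C p) : ℤ) ≤ 2 * C.n - 2 := by
    have e1 : 2 ≤ l := h.norm.prime.two_le
    obtain ⟨k, hk⟩ := hpar
    have e2 : (2 : ℤ) ≤ l := by exact_mod_cast e1
    omega
  -- the points of `T` outside `R'`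
  refine le_trans ?_ hfinal
  have hT : ∀ p ∈ T, p ∉ R' → (wt (pasF C p) : ℤ) = 0 := by
    intro p hp hpR
    have hv : B.val (some p) = none := by
      rcases hv : B.val (some p) with _ | t
      · rfl
      · exact absurd (Finset.mem_biUnion.2 ⟨t, hRT p hp t hv, (mem_fC h2).2 hv⟩) hpR
    have e1 : pasF C p = Multiset.replicate (Multiset.card (pasF C p)) 1 := by
      rw [Multiset.eq_replicate]
      refine ⟨rfl, fun e he => ?_⟩
      unfold pasF at he
      obtain ⟨a, ha, rfl⟩ := Multiset.mem_map.1 he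
      exact h8 (some a) (by rw [h4, (mem_fC hCn).1 ha, hv])
    rw [e1, wt_replicate]
    rfl
  rw [← Finset.sum_filter_add_sum_filter_not T (fun p => p ∈ R')]
  have e1 : ∑ p ∈ T.filter (fun p => ¬ p ∈ R'), (wt (pasF C p) : ℤ) = 0 := by
    refine Finset.sum_eq_zero fun p hp => ?_
    rw [Finset.mem_filter] at hp
    exact hT p hp.1 hp.2
  rw [e1, add_zero]
  refine Finset.sum_le_sum_of_subset_of_nonneg ?_ fun p _ _ => by positivity
  intro p hp
  exact (Finset.mem_filter.1 hp).2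

end WildH
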